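import Mathlib

set_option autoImplicit false

/-! A split graph without triangles and without independent triples embeds in the path `P₄`. -/

namespace Pool.Agent.W889.VC.P4L

open SimpleGraph

theorem emb {n : ℕ} {H : SimpleGraph (Fin n)} (f : Fin n → Fin 4) (hf : Function.Injective f)
    (h : ∀ i j, H.Adj i j ↔ (pathGraph 4).Adj (f i) (f j)) : Nonempty (H ↪g pathGraph 4) :=
  ⟨⟨⟨f, hf⟩, fun {i j} => (h i j).symm⟩⟩

theorem path4 {n : ℕ} (H : SimpleGraph (Fin n)) (a b c d : Fin n) (hab : a ≠ b) (hcd : c ≠ d)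
    (hac : a ≠ c) (had : a ≠ d) (hbc : b ≠ c) (hbd : b ≠ d)
    (all : ∀ i, i = a ∨ i = b ∨ i = c ∨ i = d) (jab : H.Adj a b) (jcd : ¬ H.Adj c d)
    (jac : H.Adj a c) (jbc : ¬ H.Adj b c) (jbd : H.Adj b d) (jad : ¬ H.Adj a d) :
    Nonempty (H ↪g pathGraph 4) := by
  classical
  obtain ⟨f, fa, fb, fc, fd⟩ : ∃ f : Fin n → Fin 4, f a = 1 ∧ f b = 2 ∧ f c = 0 ∧ f d = 3 := by
    refine ⟨fun i => if i = c then 0 else if i = a then 1 else if i = b then 2 else 3,
      ?_, ?_, ?_, ?_⟩
    · simp only [if_neg hac, if_true]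
    · simp only [if_neg hbc, if_neg hab.symm, if_true]
    · simp only [if_true]
    · simp only [if_neg hcd.symm, if_neg had.symm, if_neg hbd.symm]
  have t : ∀ x y : Fin 4, (pathGraph 4).Adj x y ↔ (x.val + 1 = y.val ∨ y.val + 1 = x.val) := by
    intro x y
    rw [pathGraph_adj]
  refine emb f ?_ ?_
  · intro i j hij
    rcases all i with rfl | rfl | rfl | rfl <;> rcases all j with rfl | rfl | rfl | rfl
    all_goals first
      | rfl
      | (exfalso; simp only [fa, fb, fc, fd] at hij; exact absurd hij (by decide))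
  · intro i j
    rw [t]
    rcases all i with rfl | rfl | rfl | rfl <;> rcases all j with rfl | rfl | rfl | rfl
    all_goals simp only [fa, fb, fc, fd]
    · exact iff_of_false (H.loopless.irrefl _) (by decide)
    · exact iff_of_true jab (by decide)
    · exact iff_of_true jac (by decide)
    · exact iff_of_false jad (by decide)
    · exact iff_of_true jab.symm (by decide)
    · exact iff_of_false (H.loopless.irrefl _) (by decide)
    · exact iff_of_false jbc (by decide)
    · exact iff_of_true jbd (by decide)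
    · exact iff_of_true jac.symm (by decide)
    · exact iff_of_false (fun h => jbc h.symm) (by decide)
    · exact iff_of_false (H.loopless.irrefl _) (by decide)
    · exact iff_of_false jcd (by decide)
    · exact iff_of_false (fun h => jad h.symm) (by decide)
    · exact iff_of_true jbd.symm (by decide)
    · exact iff_of_false (fun h => jcd h.symm) (by decide)
    · exact iff_of_false (H.loopless.irrefl _) (by decide)

theorem three (H : SimpleGraph (Fin 3)) (x y z : Fin 4) (hxy : x ≠ y) (hxz : x ≠ z)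
    (hyz : y ≠ z) (h01 : H.Adj 0 1 ↔ (pathGraph 4).Adj x y)
    (h02 : H.Adj 0 2 ↔ (pathGraph 4).Adj x z) (h12 : H.Adj 1 2 ↔ (pathGraph 4).Adj y z) :
    Nonempty (H ↪g pathGraph 4) := by
  have flip : ∀ {i j : Fin 3} {u v : Fin 4}, (H.Adj i j ↔ (pathGraph 4).Adj u v) →
      (H.Adj j i ↔ (pathGraph 4).Adj v u) := fun h =>
    ⟨fun k => (h.1 k.symm).symm, fun k => (h.2 k.symm).symm⟩
  have dg : ∀ (i : Fin 3) (u : Fin 4), H.Adj i i ↔ (pathGraph 4).Adj u u := fun i u =>
    iff_of_false (H.loopless.irrefl _) ((pathGraph 4).loopless.irrefl _)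
  refine emb ![x, y, z] ?_ ?_
  · intro i j hij
    fin_cases i <;> fin_cases j
    · rfl
    · exact absurd hij hxy
    · exact absurd hij hxz
    · exact absurd hij hxy.symm
    · rfl
    · exact absurd hij hyz
    · exact absurd hij hxz.symm
    · exact absurd hij hyz.symm
    · rfl
  · intro i j
    fin_cases i <;> fin_cases j
    · exact dg _ _
    · exact h01
    · exact h02
    · exact flip h01
    · exact dg _ _
    · exact h12
    · exact flip h02
    · exact flip h12
    · exact dg _ _

theorem split_emb {n : ℕ} (H : SimpleGraph (Fin n)) (A : Fin n → Prop)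
    (h1 : ∀ i j, A i → A j → i ≠ j → H.Adj i j) (h2 : ∀ i j, ¬ A i → ¬ A j → ¬ H.Adj i j)
    (h3 : ¬ ∃ i j k, H.Adj i j ∧ H.Adj j k ∧ H.Adj i k)
    (h4 : ¬ ∃ i j k, Hᶜ.Adj i j ∧ Hᶜ.Adj j k ∧ Hᶜ.Adj i k) : Nonempty (H ↪g pathGraph 4) := by
  classical
  let S : Finset (Fin n) := Finset.univ.filter A
  let T : Finset (Fin n) := Finset.univ.filter (fun i => ¬ A i)
  have hS : S.card ≤ 2 := by
    by_contra h
    push Not at h
    obtain ⟨a, b, c, ha, hb, hc, hab, hac, hbc⟩ := Finset.two_lt_card_iff.1 h
    simp only [S, Finset.mem_filter, Finset.mem_univ, true_and] at ha hb hc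
    exact h3 ⟨a, b, c, h1 a b ha hb hab, h1 b c hb hc hbc, h1 a c ha hc hac⟩
  have hT : T.card ≤ 2 := by
    by_contra h
    push Not at h
    obtain ⟨a, b, c, ha, hb, hc, hab, hac, hbc⟩ := Finset.two_lt_card_iff.1 h
    simp only [T, Finset.mem_filter, Finset.mem_univ, true_and] at ha hb hc
    exact h4 ⟨a, b, c, ⟨hab, h2 a b ha hb⟩, ⟨hbc, h2 b c hb hc⟩, ⟨hac, h2 a c ha hc⟩⟩
  have hn : S.card + T.card = n := by
    have := Finset.card_filter_add_card_filter_not (s := (Finset.univ : Finset (Fin n))) A
    simpa [S, T] using this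
  have ac : ∀ i j, H.Adj i j ↔ H.Adj j i := fun i j => H.adj_comm i j
  have hir : ∀ i, ¬ H.Adj i i := fun i => H.loopless.irrefl i
  by_cases hn4 : n = 4
  · -- the main case
    have e1 : S.card = 2 := by omega
    have e2 : T.card = 2 := by omega
    obtain ⟨a, b, hab, hSab⟩ := Finset.card_eq_two.1 e1
    obtain ⟨c, d, hcd, hTcd⟩ := Finset.card_eq_two.1 e2
    have hA : ∀ i, A i ↔ (i = a ∨ i = b) := by
      intro i
      have : i ∈ S ↔ i ∈ ({a, b} : Finset (Fin n)) := by rw [hSab]
      simpa [S] using this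
    have hA' : ∀ i, ¬ A i ↔ (i = c ∨ i = d) := by
      intro i
      have : i ∈ T ↔ i ∈ ({c, d} : Finset (Fin n)) := by rw [hTcd]
      simpa [T] using this
    have ha := (hA a).2 (Or.inl rfl)
    have hb := (hA b).2 (Or.inr rfl)
    have hc := (hA' c).2 (Or.inl rfl)
    have hd := (hA' d).2 (Or.inr rfl)
    have hac : a ≠ c := fun e => hc (e ▸ ha)
    have had : a ≠ d := fun e => hd (e ▸ ha)
    have hbc : b ≠ c := fun e => hc (e ▸ hb)
    have hbd : b ≠ d := fun e => hd (e ▸ hb)
    have jab := h1 a b ha hb hab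
    have jcd := h2 c d hc hd
    have all : ∀ i, i = a ∨ i = b ∨ i = c ∨ i = d := by
      intro i
      by_cases hi : A i
      · rcases (hA i).1 hi with h | h
        · exact Or.inl h
        · exact Or.inr (Or.inl h)
      · exact Or.inr (Or.inr ((hA' i).1 hi))
    have all' : ∀ i, i = a ∨ i = b ∨ i = d ∨ i = c := by
      intro i
      rcases all i with h | h | h | h
      · exact Or.inl h
      · exact Or.inr (Or.inl h)
      · exact Or.inr (Or.inr (Or.inr h))
      · exact Or.inr (Or.inr (Or.inl h))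
    by_cases jac : H.Adj a c
    · have jbc : ¬ H.Adj b c := fun h => h3 ⟨a, b, c, jab, h, jac⟩
      have jbd : H.Adj b d := by
        by_contra h
        exact h4 ⟨b, c, d, ⟨hbc, jbc⟩, ⟨hcd, jcd⟩, ⟨hbd, h⟩⟩
      have jad : ¬ H.Adj a d := fun h => h3 ⟨a, b, d, jab, jbd, h⟩
      exact path4 H a b c d hab hcd hac had hbc hbd all jab jcd jac jbc jbd jad
    · have jad : H.Adj a d := by
        by_contra h
        exact h4 ⟨a, c, d, ⟨hac, jac⟩, ⟨hcd, jcd⟩, ⟨had, h⟩⟩
      have jbd : ¬ H.Adj b d := fun h => h3 ⟨a, b, d, jab, h, jad⟩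
      have jbc : H.Adj b c := by
        by_contra h
        exact h4 ⟨b, c, d, ⟨hbc, h⟩, ⟨hcd, jcd⟩, ⟨hbd, jbd⟩⟩
      exact path4 H a b d c hab hcd.symm had hac hbd hbc all' jab (fun h => jcd h.symm) jad jbd
        jbc jac
  · have hn3 : n ≤ 3 := by omega
    clear hn hS hT h1 h2
    interval_cases n
    · exact emb (fun i => i.elim0) (fun i => i.elim0) (fun i => i.elim0)
    · refine emb (fun _ => 0) (fun i j _ => Subsingleton.elim _ _) (fun i j => ?_)
      fin_cases i
      fin_cases j
      simp
    · clear h3 h4 S T A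
      by_cases h01 : H.Adj 0 1
      · refine emb ![0, 1] (by decide) (fun i j => ?_)
        have h10 := (ac 0 1).1 h01
        fin_cases i <;> fin_cases j <;> simp_all [pathGraph_adj]
      · refine emb ![0, 2] (by decide) (fun i j => ?_)
        have h10 : ¬ H.Adj 1 0 := fun h => h01 ((ac 1 0).1 h)
        fin_cases i <;> fin_cases j <;> simp_all [pathGraph_adj]
    · have t : ∀ x y : Fin 4, (x.val + 1 = y.val ∨ y.val + 1 = x.val) →
          (pathGraph 4).Adj x y := by
        intro x y h
        rw [pathGraph_adj]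
        exact h
      have t' : ∀ x y : Fin 4, ¬ (x.val + 1 = y.val ∨ y.val + 1 = x.val) →
          ¬ (pathGraph 4).Adj x y := by
        intro x y h
        rw [pathGraph_adj]
        exact h
      by_cases h01 : H.Adj 0 1 <;> by_cases h02 : H.Adj 0 2 <;> by_cases h12 : H.Adj 1 2
      · exact absurd ⟨0, 1, 2, h01, h12, h02⟩ h3
      · exact three H 1 0 2 (by decide) (by decide) (by decide)
          (iff_of_true h01 (t _ _ (by decide))) (iff_of_true h02 (t _ _ (by decide)))
          (iff_of_false h12 (t' _ _ (by decide)))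
      · exact three H 0 1 2 (by decide) (by decide) (by decide)
          (iff_of_true h01 (t _ _ (by decide))) (iff_of_false h02 (t' _ _ (by decide)))
          (iff_of_true h12 (t _ _ (by decide)))
      · exact three H 0 1 3 (by decide) (by decide) (by decide)
          (iff_of_true h01 (t _ _ (by decide))) (iff_of_false h02 (t' _ _ (by decide)))
          (iff_of_false h12 (t' _ _ (by decide)))
      · exact three H 0 2 1 (by decide) (by decide) (by decide)
          (iff_of_false h01 (t' _ _ (by decide))) (iff_of_true h02 (t _ _ (by decide)))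
          (iff_of_true h12 (t _ _ (by decide)))
      · exact three H 0 3 1 (by decide) (by decide) (by decide)
          (iff_of_false h01 (t' _ _ (by decide))) (iff_of_true h02 (t _ _ (by decide)))
          (iff_of_false h12 (t' _ _ (by decide)))
      · exact three H 3 0 1 (by decide) (by decide) (by decide)
          (iff_of_false h01 (t' _ _ (by decide))) (iff_of_false h02 (t' _ _ (by decide)))
          (iff_of_true h12 (t _ _ (by decide)))
      · exact absurd ⟨0, 1, 2, ⟨by decide, h01⟩, ⟨by decide, h12⟩, ⟨by decide, h02⟩⟩ h4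

end Pool.Agent.W889.VC.P4L
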