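import Mathlib

set_option autoImplicit false

/-! Graphs without an induced path on four vertices have nontrivial modules. -/

namespace Pool.Agent.W889.VC

/-- no induced path on four vertices -/
def P4F (q : ℕ → ℕ → Prop) : Prop :=
  ∀ a b c d, q a b → q b c → q c d → ¬ q a c → ¬ q b d → ¬ q a d → False

/-- modules -/
def Mdl (q : ℕ → ℕ → Prop) (X : ℕ → Prop) : Prop :=
  ∀ u u' w, X u → X u' → ¬ X w → (q u w ↔ q u' w)

theorem step1 {q : ℕ → ℕ → Prop} (hs : ∀ u v, q u v → q v u) (hi : ∀ u, ¬ q u u)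
    (hq : P4F q)
    (hm : ∀ X, Mdl q X → (∃ u u', X u ∧ X u' ∧ u ≠ u') → ∀ w, X w) (v c c' : ℕ)
    (h1 : c ≠ v) (h2 : ¬ q c v) (h3 : c' ≠ v) (h4 : ¬ q c' v) : ¬ q c c' := by
  intro hcc
  let r : ℕ → ℕ → Prop := fun x y => q x y ∧ ¬ q y v ∧ y ≠ v
  let C : ℕ → Prop := fun u => Relation.ReflTransGen r c u
  have hC : ∀ u, C u → ¬ q u v ∧ u ≠ v := by
    intro u hu
    rcases Relation.ReflTransGen.cases_tail hu with h | ⟨w, -, h⟩
    · rw [h]
      exact ⟨h2, h1⟩
    · exact h.2
  have step : ∀ x y w, C x → C y → q x y → ¬ C w → q x w → q y w := by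
    intro x y w hx hy hxy hw hxw
    by_contra hyw
    have hwv : q w v := by
      by_contra h
      by_cases he : w = v
      · subst he
        exact (hC x hx).1 hxw
      · exact hw (Relation.ReflTransGen.tail hx ⟨hxw, h, he⟩)
    exact hq v w x y (hs _ _ hwv) (hs _ _ hxw) hxy (fun h => (hC x hx).1 (hs _ _ h))
      (fun h => hyw (hs _ _ h)) (fun h => (hC y hy).1 (hs _ _ h))
  have key : ∀ u, C u → ∀ w, ¬ C w → (q c w ↔ q u w) := by
    intro u hu w hw
    induction hu with
    | refl => exact Iff.rfl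
    | @tail x y hx hxy ih =>
      have hy : C y := Relation.ReflTransGen.tail hx hxy
      exact ih.trans ⟨step x y w hx hy hxy.1 hw, step y x w hy hx (hs _ _ hxy.1) hw⟩
  have hmod : Mdl q C := fun u u' w hu hu' hw => (key u hu w hw).symm.trans (key u' hu' w hw)
  have hne : c ≠ c' := fun h => hi c (by rw [← h] at hcc; exact hcc)
  have := hm C hmod ⟨c, c', Relation.ReflTransGen.refl,
    Relation.ReflTransGen.single ⟨hcc, h4, h3⟩, hne⟩ v
  exact (hC v this).2 rfl

/-- an infinite graph without induced `P₄` is not prime -/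
theorem not_prime {q : ℕ → ℕ → Prop} (hs : ∀ u v, q u v → q v u) (hi : ∀ u, ¬ q u u)
    (hq : P4F q) : ∃ X, Mdl q X ∧ (∃ u u', X u ∧ X u' ∧ u ≠ u') ∧ ∃ w, ¬ X w := by
  by_contra hcon
  have hm : ∀ X, Mdl q X → (∃ u u', X u ∧ X u' ∧ u ≠ u') → ∀ w, X w := by
    intro X h1 h2
    by_contra h3
    push Not at h3
    exact hcon ⟨X, h1, h2, h3⟩
  have a1 := step1 hs hi hq hm
  -- the complement
  have a2 := step1 (q := fun u v => u ≠ v ∧ ¬ q u v) (fun u v h => ⟨h.1.symm, fun h' =>
    h.2 (hs _ _ h')⟩) (fun u h => h.1 rfl) (by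
      intro a b c d h1 h2 h3 h4 h5 h6
      have e1 : a ≠ c := by
        rintro rfl
        exact h6 h3
      have e2 : b ≠ d := by
        rintro rfl
        exact h6 h1
      have e3 : a ≠ d := by
        rintro rfl
        exact h4 ⟨h3.1.symm, fun h => h3.2 (hs _ _ h)⟩
      have f1 : q a c := by
        by_contra h
        exact h4 ⟨e1, h⟩
      have f2 : q b d := by
        by_contra h
        exact h5 ⟨e2, h⟩
      have f3 : q a d := by
        by_contra h
        exact h6 ⟨e3, h⟩
      exact hq c a d b (hs _ _ f1) f3 (hs _ _ f2) h3.2 h1.2 (fun h => h2.2 (hs _ _ h)))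
    (by
      intro X hX h w
      refine hm X (fun u u' w hu hu' hw => ?_) h w
      have h1 : u ≠ w := fun e => hw (e ▸ hu)
      have h2 : u' ≠ w := fun e => hw (e ▸ hu')
      have := hX u u' w hu hu' hw
      constructor
      · intro h3
        by_contra h4
        exact (this.2 ⟨h2, h4⟩).2 h3
      · intro h3
        by_contra h4
        exact (this.1 ⟨h1, h4⟩).2 h3)
  have b2 : ∀ v x y, q x v → q y v → x ≠ y → q x y := by
    intro v x y h1 h2 h3
    have e1 : x ≠ v := fun e => hi v (by rw [e] at h1; exact h1)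
    have e2 : y ≠ v := fun e => hi v (by rw [e] at h2; exact h2)
    by_contra h4
    exact a2 v x y e1 (fun h => h.2 h1) e2 (fun h => h.2 h2) ⟨h3, h4⟩
  have := hm (fun u => u = 0 ∨ u = 1) (by
    have key : ∀ w, w ≠ 0 → w ≠ 1 → (q 0 w ↔ q 1 w) := by
      intro w h0 h1
      constructor
      · intro h
        by_cases h01 : q 0 1
        · exact b2 0 1 w (hs _ _ h01) (hs _ _ h) (fun e => h1 e.symm)
        · by_contra h'
          exact a1 1 0 w (by norm_num) h01 h1 (fun k => h' (hs _ _ k)) h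
      · intro h
        by_cases h01 : q 0 1
        · exact b2 1 0 w h01 (hs _ _ h) (fun e => h0 e.symm)
        · by_contra h'
          exact a1 0 1 w (by norm_num) (fun k => h01 (hs _ _ k)) h0 (fun k => h' (hs _ _ k)) h
    rintro u u' w hu hu' hw
    have h0 : w ≠ 0 := fun e => hw (Or.inl e)
    have h1 : w ≠ 1 := fun e => hw (Or.inr e)
    rcases hu with rfl | rfl <;> rcases hu' with rfl | rfl
    · exact Iff.rfl
    · exact key w h0 h1
    · exact (key w h0 h1).symm
    · exact Iff.rfl) ⟨0, 1, Or.inl rfl, Or.inr rfl, by norm_num⟩ 2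
  simp at this

end Pool.Agent.W889.VC
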