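import Pool.Agent.W889.VC.HF
import Pool.Agent.W889.VC.Coh
import Pool.Agent.Results.MP_5df2c5_lc.ModularDecomposition

set_option autoImplicit false

/-! Vaught's conjecture for graphs without an induced path on four vertices. -/

namespace Pool.Agent.W889.VC

open Set

open Pool.Agent.Results.MP_5df2c5_lc

/-- `BinStr` as structures with binary relations -/
def up (y : BinStr) : Str (fun _ => 2) := fun i v => if i = 0 then y (v 0) (v 1) else false

theorem back' {Y : Type} [TopologicalSpace Y] [MeasurableSpace Y] {E : Y → Y → Prop} {a : ℕ → ℕ}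
    (up : Y → Str a) (down : Str a → Y) (hc : Continuous down) (hm : Measurable down)
    (R : Str a → Prop) (hR : BP R) (hRi : ∀ x x', Iso x x' → R x → R x')
    (hud : ∀ x, R x → up (down x) = x) (hdu : ∀ y, down (up y) = y) (hup : ∀ y, R (up y))
    (hE : ∀ y z, E y z ↔ Iso (up y) (up z)) (cont : Prop) (K : Y → Prop) (K' : Str a → Prop)
    (hK : ∀ x, R x → K (down x) → K' x)
    (h : VCof cont (Iso (a := a)) K') : VCof cont E K := by
  intro B hB hinv hBK
  have hE' : ∀ x x', R x → R x' → (E (down x) (down x') ↔ Iso x x') := by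
    intro x x' h1 h2
    rw [hE, hud x h1, hud x' h2]
  rcases h {x | R x ∧ down x ∈ B} (MeasurableSet.inter hR (hm hB)) (by
    intro x y hxy
    constructor
    · rintro ⟨h1, h2⟩
      have h3 := hRi x y hxy h1
      exact ⟨h3, (hinv _ _ ((hE' x y h1 h3).2 hxy)).1 h2⟩
    · rintro ⟨h1, h2⟩
      have h3 := hRi y x hxy.symm h1
      exact ⟨h3, (hinv _ _ ((hE' x y h3 h1).2 hxy)).2 h2⟩)
    (fun x hx => hK x hx.1 (hBK _ hx.2)) with
    ⟨f, hf⟩ | ⟨g, h1, h2, h3⟩
  · left
    refine ⟨fun n => down (f n), fun y hy => ?_⟩
    obtain ⟨n, hn⟩ := hf (up y) ⟨hup y, by rw [hdu]; exact hy⟩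
    refine ⟨n, ?_⟩
    rw [hE, hud _ (hRi _ _ hn.symm (hup y))]
    exact hn
  · right
    refine ⟨fun c => down (g c), fun hcont => hc.comp (h1 hcont), fun c => (h2 c).2,
      fun c d hcd => h3 c d ((hE' _ _ (h2 c).1 (h2 d).1).1 hcd)⟩

theorem down_bin (cont : Prop) (K : BinStr → Prop) (K' : Str (fun _ => 2) → Prop)
    (hK : ∀ y, K y → K' (up y)) (h : VCof cont (Iso (a := fun _ => 2)) K') :
    VCof cont BIso K := by
  have hcd : Continuous (fun (x : Str (fun _ => 2)) (m n : ℕ) => x 0 ![m, n]) :=
    continuous_pi fun m => continuous_pi fun n =>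
      (continuous_apply (![m, n] : Fin 2 → ℕ)).comp (continuous_apply 0)
  have hmd : Measurable (fun (x : Str (fun _ => 2)) (m n : ℕ) => x 0 ![m, n]) :=
    measurable_pi_iff.2 fun m => measurable_pi_iff.2 fun n =>
      (measurable_pi_apply (![m, n] : Fin 2 → ℕ)).comp (measurable_pi_apply 0)
  have e2 : ∀ v : Fin 2 → ℕ, ![v 0, v 1] = v := by
    intro v
    funext i
    fin_cases i <;> rfl
  have hud : ∀ x : Str (fun _ => 2), (∀ i v, i ≠ 0 → x i v = false) →
      up (fun m n => x 0 ![m, n]) = x := by
    intro x hx
    funext i v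
    unfold up
    by_cases hi : i = 0
    · subst hi
      simp only [if_true]
      rw [e2]
    · simp only [if_neg hi]
      exact (hx i v hi).symm
  refine back' (E := BIso) (a := fun _ => 2) up
    (fun x m n => x 0 ![m, n]) hcd hmd (fun x => ∀ i v, i ≠ 0 → x i v = false) ?_ ?_ hud ?_ ?_ ?_
    cont K K' ?_ h
  · refine BP.all fun i => BP.all fun v => (BP.const _).imp ?_
    have hm : Measurable (fun x : Str (fun _ => 2) => x i v) :=
      (measurable_pi_apply v).comp (measurable_pi_apply i)
    exact hm (measurableSet_singleton false)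
  · rintro x x' ⟨σ, hσ⟩ hx i v hi
    have := hσ i (⇑σ.symm ∘ v)
    rw [hx i _ hi] at this
    rw [← this]
    congr 1
    funext j
    simp
  · intro y
    rfl
  · intro y i v hi
    simp only [up, if_neg hi]
  · intro y z
    constructor
    · rintro ⟨σ, hσ⟩
      refine ⟨σ, fun i v => ?_⟩
      by_cases hi : i = 0
      · subst hi
        simp only [up, if_true, Function.comp_apply]
        exact hσ _ _
      · simp only [up, if_neg hi]
    · rintro ⟨σ, hσ⟩
      refine ⟨σ, fun m n => ?_⟩
      have := hσ 0 ![m, n]
      simpa [up] using this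
  · intro x hx hKx
    have := hK _ hKx
    rwa [hud x hx] at this

/-- graphs without induced `P₄` have no infinite prime quotients -/
theorem p4_quot {y : BinStr} (hy : HFree (SimpleGraph.pathGraph 4) y) :
    ModularDecomposition.PrimeQuotientsIn (fun _ => False) (up y) := by
  intro X e he hX hdis hU hprime
  have hne : ∀ m n, m ≠ n → e m ≠ e n := by
    intro m n hmn heq
    exact Set.disjoint_left.1 (hdis m n hmn) (he m) (by rw [heq]; exact he n)
  obtain ⟨hg, hfree⟩ := hy
  have hsym : ∀ u v, y u v = y v u := fun u v => by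
    rw [Bool.eq_iff_iff]
    exact ⟨hg.symm u v, hg.symm v u⟩
  have hp : P4F (fun m n => y (e m) (e n) = true) := by
    intro a b c d h1 h2 h3 h4 h5 h6
    have n1 : a ≠ b := fun h => by rw [h, hg.irrefl] at h1; exact absurd h1 (by decide)
    have n2 : b ≠ c := fun h => by rw [h, hg.irrefl] at h2; exact absurd h2 (by decide)
    have n3 : c ≠ d := fun h => by rw [h, hg.irrefl] at h3; exact absurd h3 (by decide)
    have n4 : a ≠ c := fun h => h6 (by rw [h]; exact h3)
    have n5 : b ≠ d := fun h => h6 (by rw [← h]; exact h1)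
    have n6 : a ≠ d := fun h => h4 (by rw [h]; exact hg.symm _ _ h3)
    refine hfree ⟨![e a, e b, e c, e d], ?_, ?_⟩
    · intro i j hij
      fin_cases i <;> fin_cases j
      · rfl
      · exact absurd hij (hne _ _ n1)
      · exact absurd hij (hne _ _ n4)
      · exact absurd hij (hne _ _ n6)
      · exact absurd hij (hne _ _ n1.symm)
      · rfl
      · exact absurd hij (hne _ _ n2)
      · exact absurd hij (hne _ _ n5)
      · exact absurd hij (hne _ _ n4.symm)
      · exact absurd hij (hne _ _ n2.symm)
      · rfl
      · exact absurd hij (hne _ _ n3)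
      · exact absurd hij (hne _ _ n6.symm)
      · exact absurd hij (hne _ _ n5.symm)
      · exact absurd hij (hne _ _ n3.symm)
      · rfl
    · have ir : ∀ u, ¬ y u u = true := fun u => by rw [hg.irrefl]; decide
      have sw : ∀ u v, ¬ y u v = true → ¬ y v u = true := fun u v h h' => h (hg.symm _ _ h')
      intro i j
      rw [SimpleGraph.pathGraph_adj]
      fin_cases i <;> fin_cases j
      · exact iff_of_false (ir _) (by decide)
      · exact iff_of_true h1 (by decide)
      · exact iff_of_false h4 (by decide)
      · exact iff_of_false h6 (by decide)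
      · exact iff_of_true (hg.symm _ _ h1) (by decide)
      · exact iff_of_false (ir _) (by decide)
      · exact iff_of_true h2 (by decide)
      · exact iff_of_false h5 (by decide)
      · exact iff_of_false (sw _ _ h4) (by decide)
      · exact iff_of_true (hg.symm _ _ h2) (by decide)
      · exact iff_of_false (ir _) (by decide)
      · exact iff_of_true h3 (by decide)
      · exact iff_of_false (sw _ _ h6) (by decide)
      · exact iff_of_false (sw _ _ h5) (by decide)
      · exact iff_of_true (hg.symm _ _ h3) (by decide)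
      · exact iff_of_false (ir _) (by decide)
  obtain ⟨Z, hZ, ⟨u, u', hu, hu', huu⟩, w, hw⟩ := not_prime
    (q := fun m n => y (e m) (e n) = true) (fun m n h => hg.symm _ _ h)
    (fun m h => by rw [hg.irrefl] at h; exact absurd h (by decide)) hp
  have hZ' : ∀ m m' n, Z m → Z m' → ¬ Z n → y (e m) (e n) = y (e m') (e n) := by
    intro m m' n h1 h2 h3
    rw [Bool.eq_iff_iff]
    exact hZ m m' n h1 h2 h3
  rcases hprime {m | Z m} (by
    intro i t k l b hk hb hl
    have hkl : k ≠ l := fun h => hl (h ▸ hk)
    unfold ModularDecomposition.quotient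
    have c1 : ∃ j l, t j ≠ t l := ⟨k, l, fun h => hl (by rw [← h]; exact hk)⟩
    have c2 : ∃ j l', Function.update t k b j ≠ Function.update t k b l' :=
      ⟨k, l, by
        rw [Function.update_self, Function.update_of_ne hkl.symm]
        exact fun h => hl (by rw [← h]; exact hb)⟩
    rw [if_pos c1, if_pos c2]
    unfold up
    by_cases hi : i = 0
    · rw [if_pos hi, if_pos hi]
      simp only [Function.comp_apply]
      -- `k`, `l` are `0`, `1` in some order
      have f2 : ∀ k : Fin 2, k = 0 ∨ k = 1 := by decide
      have hk' := f2 k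
      have hl' := f2 l
      rcases hk' with rfl | rfl <;> rcases hl' with rfl | rfl
      · exact absurd rfl hkl
      · rw [Function.update_self, Function.update_of_ne hkl.symm]
        exact hZ' b (t 0) (t 1) hb hk hl
      · rw [Function.update_self, Function.update_of_ne hkl.symm, hsym, hsym (e (t 0))]
        exact hZ' b (t 1) (t 0) hb hk hl
      · exact absurd rfl hkl
    · rw [if_neg hi, if_neg hi]) with h | h
  · exact huu (h hu hu')
  · exact hw (by
      have : w ∈ ({m | Z m} : Set ℕ) := by rw [h]; exact Set.mem_univ _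
      exact this)

theorem vc_p4 : VCof True BIso (HFree (SimpleGraph.pathGraph 4)) := by
  refine down_bin True _ (ModularDecomposition.PrimeQuotientsIn (fun _ => False))
    (fun y hy => p4_quot hy) ?_
  have h := (ModularDecomposition.result (fun _ => 2) (fun _ => by norm_num) (fun _ => False)
    (by
      intro B _ _ hF
      left
      exact ⟨fun _ => (fun _ _ => false, fun _ _ => false), fun x hx => (hF x hx).elim⟩)).2
  intro B h1 h2 h3
  rcases h B h1 h2 h3 with ⟨f, hf⟩ | ⟨g, hg, k1, k2⟩
  · exact Or.inl ⟨f, hf⟩
  · exact Or.inr ⟨g, fun _ => hg, k1, k2⟩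

end Pool.Agent.W889.VC
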