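import Mathlib

set_option autoImplicit false

/-! Back and forth for coloured dense linear orders. -/

namespace Pool.Agent.W889.VC

open Order

/-- dense strict linear order without endpoints, given by a relation -/
structure DLO {A : Type} (lt : A → A → Prop) : Prop where
  irrefl : ∀ a, ¬ lt a a
  trans : ∀ a b c, lt a b → lt b c → lt a c
  total : ∀ a b, a ≠ b → lt a b ∨ lt b a
  dense : ∀ a b, lt a b → ∃ c, lt a c ∧ lt c b
  above : ∀ a, ∃ b, lt a b
  below : ∀ a, ∃ b, lt b a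

theorem bf {A B : Type} [Countable A] [Countable B] (G : Finset (A × B) → Prop) (h0 : G ∅)
    (hf : ∀ f, G f → ∀ a, ∃ b, ∃ g, f ⊆ g ∧ (a, b) ∈ g ∧ G g)
    (hb : ∀ f, G f → ∀ b, ∃ a, ∃ g, f ⊆ g ∧ (a, b) ∈ g ∧ G g)
    (inj : ∀ f, G f → ∀ p ∈ f, ∀ q ∈ f, (p.1 = q.1 ↔ p.2 = q.2)) :
    ∃ e : A ≃ B, ∀ a a', ∃ f, G f ∧ (a, e a) ∈ f ∧ (a', e a') ∈ f := by
  classical
  let P := {f : Finset (A × B) // G f}
  letI : Preorder P := inferInstanceAs (Preorder {f : Finset (A × B) // G f})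
  haveI : Inhabited P := ⟨⟨∅, h0⟩⟩
  let L : A → Cofinal P := fun a =>
    { carrier := {f | ∃ b, (a, b) ∈ f.1}
      isCofinal := by
        intro f
        obtain ⟨b, g, h1, h2, h3⟩ := hf f.1 f.2 a
        exact ⟨⟨g, h3⟩, ⟨b, h2⟩, h1⟩ }
  let R : B → Cofinal P := fun b =>
    { carrier := {f | ∃ a, (a, b) ∈ f.1}
      isCofinal := by
        intro f
        obtain ⟨a, g, h1, h2, h3⟩ := hb f.1 f.2 b
        exact ⟨⟨g, h3⟩, ⟨a, h2⟩, h1⟩ }
  let _ := Encodable.ofCountable A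
  let _ := Encodable.ofCountable B
  let D : A ⊕ B → Cofinal P := Sum.elim L R
  let I : Ideal P := idealOfCofinals (default : P) D
  have hL : ∀ a, ∃ b, ∃ f ∈ I, (a, b) ∈ f.1 := by
    intro a
    obtain ⟨f, ⟨b, hb⟩, hf⟩ := cofinal_meets_idealOfCofinals (default : P) D (Sum.inl a)
    exact ⟨b, f, hf, hb⟩
  have hR : ∀ b, ∃ a, ∃ f ∈ I, (a, b) ∈ f.1 := by
    intro b
    obtain ⟨f, ⟨a, ha⟩, hf⟩ := cofinal_meets_idealOfCofinals (default : P) D (Sum.inr b)
    exact ⟨a, f, hf, ha⟩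
  choose F fF hF1 hF2 using hL
  choose H fH hH1 hH2 using hR
  have hdir : ∀ f ∈ I, ∀ g ∈ I, ∃ h ∈ I, f.1 ⊆ h.1 ∧ g.1 ⊆ h.1 := by
    intro f hf g hg
    obtain ⟨h, hh, h1, h2⟩ := I.directed f hf g hg
    exact ⟨h, hh, h1, h2⟩
  refine ⟨⟨F, H, ?_, ?_⟩, ?_⟩
  · intro a
    obtain ⟨h, hh, h1, h2⟩ := hdir _ (hF1 a) _ (hH1 (F a))
    exact ((inj h.1 h.2 _ (h1 (hF2 a)) _ (h2 (hH2 (F a)))).2 rfl).symm
  · intro b
    obtain ⟨h, hh, h1, h2⟩ := hdir _ (hF1 (H b)) _ (hH1 b)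
    exact (inj h.1 h.2 _ (h1 (hF2 (H b))) _ (h2 (hH2 b))).1 rfl
  · intro a a'
    obtain ⟨h, hh, h1, h2⟩ := hdir _ (hF1 a) _ (hF1 a')
    exact ⟨h.1, h.2, h1 (hF2 a), h2 (hF2 a')⟩

/-- a coloured element in the gap between two finite sets -/
theorem gap {B Q : Type} (lt : B → B → Prop) (hd : DLO lt) (k : B → Q)
    (hk : ∀ b b1 b2, lt b1 b2 → ∃ b', lt b1 b' ∧ lt b' b2 ∧ k b' = k b) (b : B)
    (lo hi : Finset B) (h : ∀ x ∈ lo, ∀ y ∈ hi, lt x y) :
    ∃ m, (∀ x ∈ lo, lt x m) ∧ (∀ y ∈ hi, lt m y) ∧ k m = k b := by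
  classical
  letI : IsStrictTotalOrder B lt :=
    { trichotomous := fun a b h1 h2 => by
        by_contra hne
        rcases hd.total a b hne with h | h
        · exact h1 h
        · exact h2 h
      irrefl := hd.irrefl
      trans := hd.trans }
  letI : LinearOrder B := linearOrderOfSTO lt
  haveI : DenselyOrdered B := ⟨fun a b h => hd.dense a b h⟩
  haveI : NoMaxOrder B := ⟨fun a => hd.above a⟩
  haveI : NoMinOrder B := ⟨fun a => hd.below a⟩
  haveI : Nonempty B := ⟨b⟩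
  obtain ⟨m0, h1, h2⟩ := exists_between_finsets lo hi h
  obtain ⟨m1, h3, h4⟩ := exists_between_finsets {m0} hi (by
    intro x hx y hy
    rw [Finset.mem_singleton] at hx
    rw [hx]
    exact h2 y hy)
  obtain ⟨m, h5, h6, h7⟩ := hk b m0 m1 (h3 m0 (Finset.mem_singleton_self _))
  exact ⟨m, fun x hx => hd.trans _ _ _ (h1 x hx) h5, fun y hy => hd.trans _ _ _ h6 (h4 y hy), h7⟩

/-- one step of the back and forth -/
theorem forth {A B Q : Type} (lt : A → A → Prop) (lt' : B → B → Prop) (hA : DLO lt)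
    (hB : DLO lt') (k : A → Q) (k' : B → Q)
    (hk' : ∀ b b1 b2, lt' b1 b2 → ∃ b', lt' b1 b' ∧ lt' b' b2 ∧ k' b' = k' b)
    (hr : ∀ a, ∃ b, k' b = k a) (f : Finset (A × B))
    (hf : (∀ p ∈ f, ∀ q ∈ f, (lt p.1 q.1 ↔ lt' p.2 q.2)) ∧ ∀ p ∈ f, k' p.2 = k p.1) (a : A) :
    ∃ b : B, (∀ p ∈ f, ((lt p.1 a ↔ lt' p.2 b) ∧ (lt a p.1 ↔ lt' b p.2))) ∧ k' b = k a := by
  classical
  by_cases h : ∃ b, (a, b) ∈ f
  · obtain ⟨b, hb⟩ := h
    exact ⟨b, fun p hp => ⟨hf.1 p hp _ hb, hf.1 _ hb p hp⟩, hf.2 _ hb⟩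
  obtain ⟨b0, hb0⟩ := hr a
  have hgap : ∀ x ∈ (f.filter (fun p => lt p.1 a)).image Prod.snd,
      ∀ y ∈ (f.filter (fun p => lt a p.1)).image Prod.snd, lt' x y := by
    intro x hx y hy
    rw [Finset.mem_image] at hx hy
    rcases hx with ⟨p, hp, rfl⟩
    rcases hy with ⟨q, hq, rfl⟩
    rw [Finset.mem_filter] at hp hq
    exact (hf.1 p hp.1 q hq.1).1 (hA.trans _ _ _ hp.2 hq.2)
  obtain ⟨b, h1, h2, h3⟩ := gap lt' hB k' hk' b0 _ _ hgap
  refine ⟨b, fun p hp => ?_, h3.trans hb0⟩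
  have hne : p.1 ≠ a := fun he => h ⟨p.2, by rw [← he]; exact hp⟩
  rcases hA.total _ _ hne with hl | hl
  · have h4 : lt' p.2 b := h1 _ (Finset.mem_image.2 ⟨p, Finset.mem_filter.2 ⟨hp, hl⟩, rfl⟩)
    exact ⟨iff_of_true hl h4, iff_of_false (fun h5 => hA.irrefl _ (hA.trans _ _ _ hl h5))
      (fun h5 => hB.irrefl _ (hB.trans _ _ _ h4 h5))⟩
  · have h4 : lt' b p.2 := h2 _ (Finset.mem_image.2 ⟨p, Finset.mem_filter.2 ⟨hp, hl⟩, rfl⟩)
    exact ⟨iff_of_false (fun h5 => hA.irrefl _ (hA.trans _ _ _ hl h5))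
      (fun h5 => hB.irrefl _ (hB.trans _ _ _ h4 h5)), iff_of_true hl h4⟩

/-- Two countable dense linear orders without endpoints, coloured with the same colours in such a
way that every colour is dense, are isomorphic. -/
theorem shuffle_unique {A B Q : Type} [Countable A] [Countable B] (lt : A → A → Prop)
    (lt' : B → B → Prop) (hA : DLO lt) (hB : DLO lt') (k : A → Q) (k' : B → Q)
    (hk : ∀ a a1 a2, lt a1 a2 → ∃ a', lt a1 a' ∧ lt a' a2 ∧ k a' = k a)
    (hk' : ∀ b b1 b2, lt' b1 b2 → ∃ b', lt' b1 b' ∧ lt' b' b2 ∧ k' b' = k' b)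
    (hr : ∀ a, ∃ b, k' b = k a) (hr' : ∀ b, ∃ a, k a = k' b) :
    ∃ e : A ≃ B, (∀ a a', lt a a' ↔ lt' (e a) (e a')) ∧ ∀ a, k' (e a) = k a := by
  classical
  let G : Finset (A × B) → Prop := fun f =>
    (∀ p ∈ f, ∀ q ∈ f, (lt p.1 q.1 ↔ lt' p.2 q.2)) ∧ ∀ p ∈ f, k' p.2 = k p.1
  have h0 : G ∅ := ⟨fun p hp => absurd hp (Finset.notMem_empty p),
    fun p hp => absurd hp (Finset.notMem_empty p)⟩
  have key : ∀ f, G f → ∀ a b, (∀ p ∈ f, ((lt p.1 a ↔ lt' p.2 b) ∧ (lt a p.1 ↔ lt' b p.2))) →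
      k' b = k a → G (insert (a, b) f) := by
    intro f hf a b h1 h2
    refine ⟨?_, ?_⟩
    · intro p hp q hq
      rw [Finset.mem_insert] at hp hq
      rcases hp with rfl | hp <;> rcases hq with rfl | hq
      · exact iff_of_false (hA.irrefl _) (hB.irrefl _)
      · exact (h1 q hq).2
      · exact (h1 p hp).1
      · exact hf.1 p hp q hq
    · intro p hp
      rw [Finset.mem_insert] at hp
      rcases hp with rfl | hp
      · exact h2
      · exact hf.2 p hp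
  obtain ⟨e, he⟩ := bf G h0
    (fun f hf a => by
      obtain ⟨b, h1, h2⟩ := forth lt lt' hA hB k k' hk' hr f hf a
      exact ⟨b, insert (a, b) f, Finset.subset_insert _ _, Finset.mem_insert_self _ _,
        key f hf a b h1 h2⟩)
    (fun f hf b => by
      obtain ⟨a, h1, h2⟩ := forth lt' lt hB hA k' k hk hr' (f.image Prod.swap)
        ⟨by
          intro p hp q hq
          rw [Finset.mem_image] at hp hq
          obtain ⟨p, hp, rfl⟩ := hp
          obtain ⟨q, hq, rfl⟩ := hq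
          exact (hf.1 p hp q hq).symm, by
          intro p hp
          rw [Finset.mem_image] at hp
          obtain ⟨p, hp, rfl⟩ := hp
          exact (hf.2 p hp).symm⟩ b
      exact ⟨a, insert (a, b) f, Finset.subset_insert _ _, Finset.mem_insert_self _ _,
        key f hf a b (fun p hp => by
          have := h1 p.swap (Finset.mem_image_of_mem _ hp)
          exact ⟨this.1.symm, this.2.symm⟩) h2.symm⟩)
    (by
      intro f hf p hp q hq
      have e1 := hf.1 p hp q hq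
      have e2 := hf.1 q hq p hp
      constructor
      · intro h
        by_contra hne
        rcases hB.total _ _ hne with h3 | h3
        · have := e1.2 h3
          rw [h] at this
          exact hA.irrefl _ this
        · have := e2.2 h3
          rw [h] at this
          exact hA.irrefl _ this
      · intro h
        by_contra hne
        rcases hA.total _ _ hne with h3 | h3
        · have := e1.1 h3
          rw [h] at this
          exact hB.irrefl _ this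
        · have := e2.1 h3
          rw [h] at this
          exact hB.irrefl _ this)
  refine ⟨e, fun a a' => ?_, fun a => ?_⟩
  · obtain ⟨f, hf, h1, h2⟩ := he a a'
    exact hf.1 _ h1 _ h2
  · obtain ⟨f, hf, h1, -⟩ := he a a
    exact hf.2 _ h1

end Pool.Agent.W889.VC
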