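import Pool.Agent.W889.VC.Grid

set_option autoImplicit false

/-! Decoding: grids on the natural numbers and the structures they describe. -/

namespace Pool.Agent.W889.VC

namespace Grid

open Classical

variable {a : ℕ → ℕ}

/-- two rows have the same multiplicities -/
def Same (γ : Grid ℕ) (r r' : ℕ) : Prop := ∀ c, γ.C c → ∀ k, γ.Mult r c k ↔ γ.Mult r' c k

/-- two columns have the same multiplicities -/
def SameC (γ : Grid ℕ) (c c' : ℕ) : Prop := ∀ r, γ.R r → ∀ k, γ.Mult r c k ↔ γ.Mult r c' k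

/-- the least row of its colour -/
def rep (γ : Grid ℕ) (r : ℕ) : Prop := γ.R r ∧ ∀ r', r' < r → γ.R r' → ¬ γ.Same r' r

/-- the representative number `n` -/
def Rth (γ : Grid ℕ) (n r : ℕ) : Prop :=
  γ.rep r ∧ ∃ s : Finset ℕ, s.card = n ∧ ∀ u, u ∈ s ↔ u < r ∧ γ.rep u

/-- the column has the colour `t` -/
def ColT (γ : Grid ℕ) (c : ℕ) (t : Tup a) : Prop := ∀ n r, γ.Rth n r → γ.Mult r c (lam n t)

/-- the structure described by the grid -/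
noncomputable def dec (a : ℕ → ℕ) (γ : Grid ℕ) : Str a :=
  fun i v => decide (∃ c, γ.C c ∧ γ.ColT c (Sum.inr ⟨i, v⟩ : Tup a))

/-- the axioms -/
structure GoodN (a : ℕ → ℕ) (γ : Grid ℕ) : Prop where
  base : Base γ
  denR : ∀ r r1 r2, γ.R r → γ.R r1 → γ.R r2 → γ.lt r1 r2 →
    ∃ r', γ.R r' ∧ γ.lt r1 r' ∧ γ.lt r' r2 ∧ γ.Same r' r
  denC : ∀ r r1 r2, γ.C r → γ.C r1 → γ.C r2 → γ.lt r1 r2 →
    ∃ r', γ.C r' ∧ γ.lt r1 r' ∧ γ.lt r' r2 ∧ γ.SameC r' r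
  inf : ∀ N, ∃ r, N ≤ r ∧ γ.rep r
  col : ∀ c, γ.C c → ∃ t : Tup a, γ.ColT c t
  mark : ∀ n, ∃ c, γ.C c ∧ γ.ColT c (Sum.inl n : Tup a)

theorem Same.refl (γ : Grid ℕ) (r : ℕ) : γ.Same r r := fun _ _ _ => Iff.rfl

theorem Same.symm {γ : Grid ℕ} {r r' : ℕ} (h : γ.Same r r') : γ.Same r' r :=
  fun c hc k => (h c hc k).symm

theorem Same.trans {γ : Grid ℕ} {r r' r'' : ℕ} (h : γ.Same r r') (h' : γ.Same r' r'') :
    γ.Same r r'' := fun c hc k => (h c hc k).trans (h' c hc k)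

theorem exists_rep (γ : Grid ℕ) (r : ℕ) (hr : γ.R r) : ∃ r0, γ.rep r0 ∧ γ.Same r0 r := by
  have h : ∃ r0, γ.R r0 ∧ γ.Same r0 r := ⟨r, hr, Same.refl γ r⟩
  refine ⟨Nat.find h, ⟨(Nat.find_spec h).1, fun r' h1 h2 h3 => ?_⟩, (Nat.find_spec h).2⟩
  exact Nat.find_min h h1 ⟨h2, h3.trans (Nat.find_spec h).2⟩

theorem rep_eq {γ : Grid ℕ} {r r' : ℕ} (h : γ.rep r) (h' : γ.rep r') (hs : γ.Same r r') :
    r = r' := by
  rcases lt_trichotomy r r' with h1 | h1 | h1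
  · exact absurd hs (h'.2 r h1 h.1)
  · exact h1
  · exact absurd hs.symm (h.2 r' h1 h'.1)

theorem Rth_iff {γ : Grid ℕ} {n r : ℕ} : γ.Rth n r ↔ γ.rep r ∧ Nat.count γ.rep r = n := by
  constructor
  · rintro ⟨h1, s, h2, h3⟩
    refine ⟨h1, ?_⟩
    rw [Nat.count_eq_card_filter_range, ← h2]
    congr 1
    ext u
    rw [h3, Finset.mem_filter, Finset.mem_range]
  · rintro ⟨h1, h2⟩
    refine ⟨h1, (Finset.range r).filter γ.rep, ?_, fun u => ?_⟩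
    · rw [← h2, Nat.count_eq_card_filter_range]
    · rw [Finset.mem_filter, Finset.mem_range]

theorem Rth_exists {γ : Grid ℕ} (hinf : ∀ N, ∃ r, N ≤ r ∧ γ.rep r) (n : ℕ) :
    ∃ r, γ.Rth n r := by
  have h : ({r | γ.rep r} : Set ℕ).Infinite := by
    intro hf
    obtain ⟨N, hN⟩ := hf.bddAbove
    obtain ⟨r, h1, h2⟩ := hinf (N + 1)
    have := hN h2
    omega
  exact ⟨Nat.nth γ.rep n, Rth_iff.2 ⟨Nat.nth_mem_of_infinite h n, Nat.count_nth_of_infinite h n⟩⟩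

theorem Rth_inj {γ : Grid ℕ} {n m r : ℕ} (h : γ.Rth n r) (h' : γ.Rth m r) : n = m := by
  rw [Rth_iff] at h h'
  rw [← h.2, ← h'.2]

theorem Rth_uniq {γ : Grid ℕ} {n r r' : ℕ} (h : γ.Rth n r) (h' : γ.Rth n r') : r = r' := by
  rw [Rth_iff] at h h'
  exact Nat.count_injective h.1 h'.1 (h.2.trans h'.2.symm)

/-- good grids can be labelled -/
theorem lab_of_good {γ : Grid ℕ} (h : GoodN a γ) : ∃ κ κ', Lab γ (dec a γ) κ κ' := by
  have hex : ∀ r, ∃ n, γ.R r → ∃ r0, γ.Rth n r0 ∧ γ.Same r0 r := by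
    intro r
    by_cases hr : γ.R r
    · obtain ⟨r0, h1, h2⟩ := exists_rep γ r hr
      exact ⟨Nat.count γ.rep r0, fun _ => ⟨r0, Rth_iff.2 ⟨h1, rfl⟩, h2⟩⟩
    · exact ⟨0, fun h => absurd h hr⟩
  choose κ hκ using hex
  have hexc : ∀ c, ∃ t : Tup a, γ.C c → γ.ColT c t := by
    intro c
    by_cases hc : γ.C c
    · obtain ⟨t, ht⟩ := h.col c hc
      exact ⟨t, fun _ => ht⟩
    · exact ⟨Sum.inl 0, fun h => absurd h hc⟩
  choose κ' hκ' using hexc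
  have uC : ∀ c (t t' : Tup a), γ.ColT c t → γ.ColT c t' → t = t' := by
    intro c t t' h1 h2
    refine lam_inj t t' fun n => ?_
    obtain ⟨r, hr⟩ := Rth_exists h.inf n
    exact (h1 n r hr).uniq (h2 n r hr)
  have uR : ∀ r n, γ.R r → (∃ r0, γ.Rth n r0 ∧ γ.Same r0 r) → κ r = n := by
    rintro r n hr ⟨r0, h1, h2⟩
    obtain ⟨r1, h3, h4⟩ := hκ r hr
    have : r0 = r1 := rep_eq h1.1 h3.1 (h2.trans h4.symm)
    subst this
    exact Rth_inj h3 h1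
  refine ⟨κ, κ', ?_, ?_, ?_, ?_, ?_⟩
  · intro r c hr hc
    obtain ⟨r0, h1, h2⟩ := hκ r hr
    exact (h2 c hc _).1 (hκ' c hc _ r0 h1)
  · intro n
    obtain ⟨r, hr⟩ := Rth_exists h.inf n
    exact ⟨r, hr.1.1, uR r n hr.1.1 ⟨r, hr, Same.refl γ r⟩⟩
  · intro r r1 r2 hr h1 h2 h3
    obtain ⟨r', h4, h5, h6, h7⟩ := h.denR r r1 r2 hr h1 h2 h3
    refine ⟨r', h4, h5, h6, uR r' _ h4 ?_⟩
    obtain ⟨r0, h8, h9⟩ := hκ r hr
    exact ⟨r0, h8, h9.trans h7.symm⟩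
  · rintro (n | ⟨i, v⟩)
    · refine iff_of_true ?_ trivial
      obtain ⟨c, h1, h2⟩ := h.mark n
      exact ⟨c, h1, uC c _ _ (hκ' c h1) h2⟩
    · simp only [occ, dec, decide_eq_true_eq]
      constructor
      · rintro ⟨c, h1, h2⟩
        exact ⟨c, h1, h2 ▸ hκ' c h1⟩
      · rintro ⟨c, h1, h2⟩
        exact ⟨c, h1, uC c _ _ (hκ' c h1) h2⟩
  · intro r r1 r2 hr h1 h2 h3
    obtain ⟨r', h4, h5, h6, h7⟩ := h.denC r r1 r2 hr h1 h2 h3
    refine ⟨r', h4, h5, h6, uC r' _ _ (hκ' r' h4) fun n r0 h8 => ?_⟩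
    exact (h7 r0 h8.1.1 _).2 (hκ' r hr n r0 h8)

/-- labelled grids are good -/
theorem good_of_lab {γ : Grid ℕ} (hb : Base γ) {x : Str a} {κ : ℕ → ℕ} {κ' : ℕ → Tup a}
    (h : Lab γ x κ κ') : GoodN a γ ∧ Iso (dec a γ) x := by
  have hmu : ∀ r c k, γ.R r → γ.C c → (γ.Mult r c k ↔ k = lam (κ r) (κ' c)) := by
    intro r c k hr hc
    have h1 := h.mult r c hr hc
    exact ⟨fun h2 => h2.uniq h1, fun h2 => h2 ▸ h1⟩
  have hsame : ∀ r r', γ.R r → γ.R r' → (γ.Same r r' ↔ κ r = κ r') := by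
    intro r r' hr hr'
    constructor
    · intro h1
      obtain ⟨c, hc, h2⟩ := (h.sC (Sum.inl (κ r))).2 trivial
      have h3 := (h1 c hc 2).1 ((hmu r c 2 hr hc).2 (by rw [h2]; simp [lam]))
      rw [hmu r' c 2 hr' hc, h2] at h3
      by_contra hne
      have h4 : ¬ κ r' = κ r := fun h => hne h.symm
      simp [lam, h4] at h3
    · intro h1 c hc k
      rw [hmu r c k hr hc, hmu r' c k hr' hc, h1]
  have hsameC : ∀ c c', γ.C c → γ.C c' → κ' c = κ' c' → γ.SameC c c' := by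
    intro c c' hc hc' h1 r hr k
    rw [hmu r c k hr hc, hmu r c' k hr hc', h1]
  -- representatives
  have hrepex : ∀ n, ∃ r, γ.rep r ∧ κ r = n := by
    intro n
    obtain ⟨r, hr, h1⟩ := h.sR n
    obtain ⟨r0, h2, h3⟩ := exists_rep γ r hr
    exact ⟨r0, h2, ((hsame r0 r h2.1 hr).1 h3).trans h1⟩
  have hinf : ∀ N, ∃ r, N ≤ r ∧ γ.rep r := by
    intro N
    by_contra hcon
    push Not at hcon
    choose g hg1 hg2 using hrepex
    have hinj : Function.Injective g := fun n m hnm => by rw [← hg2 n, ← hg2 m, hnm]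
    have h1 : ∀ n, g n < N := fun n => by
      by_contra h2
      exact hcon (g n) (by omega) (hg1 n)
    exact Set.not_injOn_infinite_finite_image (Set.infinite_univ (α := ℕ))
      (Set.Finite.subset (Set.finite_lt_nat N) (by rintro _ ⟨n, -, rfl⟩; exact h1 n))
      (fun n _ m _ hnm => hinj hnm)
  have hρ := fun n => Rth_exists hinf n
  choose ρ hρ using hρ
  have hτi : Function.Injective (fun n => κ (ρ n)) := by
    intro n m hnm
    have h1 : γ.Same (ρ n) (ρ m) := (hsame _ _ (hρ n).1.1 (hρ m).1.1).2 hnm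
    have h2 := rep_eq (hρ n).1 (hρ m).1 h1
    have h3 := hρ n
    rw [h2] at h3
    exact Rth_inj h3 (hρ m)
  have hτs : Function.Surjective (fun n => κ (ρ n)) := by
    intro m
    obtain ⟨r, h1, h2⟩ := hrepex m
    refine ⟨Nat.count γ.rep r, ?_⟩
    have h3 : γ.Rth (Nat.count γ.rep r) r := Rth_iff.2 ⟨h1, rfl⟩
    have h4 : ρ (Nat.count γ.rep r) = r := Rth_uniq (hρ _) h3
    show κ (ρ _) = m
    rw [h4, h2]
  let τ : Equiv.Perm ℕ := Equiv.ofBijective _ ⟨hτi, hτs⟩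
  have hτ : ∀ n, κ (ρ n) = τ n := fun n => rfl
  have hcol : ∀ c (t : Tup a), γ.C c → (γ.ColT c t ↔ κ' c = tmap τ t) := by
    intro c t hc
    constructor
    · intro h1
      refine lam_inj _ _ fun m => ?_
      obtain ⟨n, hn⟩ := τ.surjective m
      subst hn
      rw [lam_tmap]
      have h2 := h1 n (ρ n) (hρ n)
      rw [hmu _ _ _ (hρ n).1.1 hc] at h2
      rw [h2, hτ]
    · intro h1 n r hr
      have : r = ρ n := Rth_uniq hr (hρ n)
      subst this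
      rw [hmu _ _ _ hr.1.1 hc, h1, hτ, lam_tmap]
  refine ⟨⟨hb, ?_, ?_, hinf, ?_, ?_⟩, τ, ?_⟩
  · intro r r1 r2 hr h1 h2 h3
    obtain ⟨r', h4, h5, h6, h7⟩ := h.denR r r1 r2 hr h1 h2 h3
    exact ⟨r', h4, h5, h6, (hsame r' r h4 hr).2 h7⟩
  · intro r r1 r2 hr h1 h2 h3
    obtain ⟨r', h4, h5, h6, h7⟩ := h.denC r r1 r2 hr h1 h2 h3
    exact ⟨r', h4, h5, h6, hsameC r' r h4 hr h7⟩
  · intro c hc
    exact ⟨tmap τ.symm (κ' c), (hcol c _ hc).2 (tmap_symm τ _).symm⟩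
  · intro n
    obtain ⟨c, h1, h2⟩ := (h.sC (Sum.inl (τ n))).2 trivial
    exact ⟨c, h1, (hcol c _ h1).2 (by rw [h2]; rfl)⟩
  · intro i v
    rw [Bool.eq_iff_iff]
    have h1 : x i (τ ∘ v) = true ↔ ∃ c, γ.C c ∧ κ' c = (Sum.inr ⟨i, τ ∘ v⟩ : Tup a) :=
      (h.sC (Sum.inr ⟨i, τ ∘ v⟩)).symm
    rw [h1]
    simp only [dec, decide_eq_true_eq]
    constructor
    · rintro ⟨c, h2, h3⟩
      exact ⟨c, h2, (hcol c _ h2).2 h3⟩
    · rintro ⟨c, h2, h3⟩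
      exact ⟨c, h2, (hcol c _ h2).1 h3⟩

end Grid

end Pool.Agent.W889.VC
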