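import Pool.Agent.W889.VC.Dec

set_option autoImplicit false

/-! Every structure is described by a grid. -/

namespace Pool.Agent.W889.VC

namespace Grid

variable {a : ℕ → ℕ}

/-- the dense order used -/
noncomputable def pos (u : ℚ × ℕ) : ℝ := (u.1 : ℝ) + (u.2 : ℝ) * Real.sqrt 2

theorem pos_inj : Function.Injective pos := by
  rintro ⟨q, k⟩ ⟨q', k'⟩ h
  unfold pos at h
  simp only at h
  by_cases hk : k = k'
  · subst hk
    have : (q : ℝ) = q' := by linarith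
    have h2 : q = q' := by exact_mod_cast this
    rw [h2]
  · exfalso
    have h1 : ((k : ℝ) - k') * Real.sqrt 2 = q' - q := by linarith
    have h2 : (k : ℝ) - k' ≠ 0 := by
      intro h3
      exact hk (by exact_mod_cast sub_eq_zero.1 h3)
    have h3 : Real.sqrt 2 = ((q' - q : ℚ) / ((k : ℚ) - k') : ℚ) := by
      push_cast
      field_simp
      linarith
    exact irrational_sqrt_two ⟨_, h3.symm⟩

theorem pos_between (x y : ℝ) (h : x < y) (k : ℕ) : ∃ u : ℚ × ℕ, x < pos u ∧ pos u < y ∧ u.2 = k := by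
  obtain ⟨q, h1, h2⟩ := exists_rat_btwn (show x - (k : ℝ) * Real.sqrt 2 < y - (k : ℝ) * Real.sqrt 2
    by linarith)
  refine ⟨(q, k), ?_, ?_, rfl⟩
  · unfold pos; simp only; linarith
  · unfold pos; simp only; linarith

theorem exists_grid (x : Str a) : ∃ (γ : Grid ℕ) (κ : ℕ → ℕ) (κ' : ℕ → Tup a),
    Base γ ∧ Lab γ x κ κ' := by
  classical
  have : Nonempty {t : Tup a // occ x t} := ⟨⟨Sum.inl 0, trivial⟩⟩
  obtain ⟨s, hs⟩ := exists_surjective_nat {t : Tup a // occ x t}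
  let Q : Type := ℚ × ℕ
  let PP : Type := Σ rc : Q × Q, Fin (lam rc.1.2 (s rc.2.2).1)
  let U : Type := Q ⊕ Q ⊕ PP
  let γ : Grid U :=
    { R := fun u => ∃ r, u = Sum.inl r
      C := fun u => ∃ c, u = Sum.inr (Sum.inl c)
      lt := fun u v => (∃ r r', u = Sum.inl r ∧ v = Sum.inl r' ∧ pos r < pos r') ∨
        (∃ c c', u = Sum.inr (Sum.inl c) ∧ v = Sum.inr (Sum.inl c') ∧ pos c < pos c')
      iR := fun p r => ∃ q : PP, p = Sum.inr (Sum.inr q) ∧ r = Sum.inl q.1.1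
      iC := fun p c => ∃ q : PP, p = Sum.inr (Sum.inr q) ∧ c = Sum.inr (Sum.inl q.1.2) }
  let κ : U → ℕ := fun u => match u with
    | Sum.inl r => r.2
    | _ => 0
  let κ' : U → Tup a := fun u => match u with
    | Sum.inr (Sum.inl c) => (s c.2).1
    | _ => Sum.inl 0
  have hP : ∀ u, γ.P u ↔ ∃ q : PP, u = Sum.inr (Sum.inr q) := by
    rintro (r | c | q)
    · refine iff_of_false (fun h => h.1 ⟨r, rfl⟩) ?_
      rintro ⟨q, hq⟩
      exact absurd hq (by simp)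
    · refine iff_of_false (fun h => h.2 ⟨c, rfl⟩) ?_
      rintro ⟨q, hq⟩
      exact absurd (Sum.inr.inj hq) Sum.inl_ne_inr
    · refine iff_of_true ⟨?_, ?_⟩ ⟨q, rfl⟩
      · rintro ⟨r, hr⟩
        exact absurd hr (by simp)
      · rintro ⟨r, hr⟩
        exact absurd (Sum.inr.inj hr) Sum.inr_ne_inl
  have ltR : ∀ r r' : Q, γ.lt (Sum.inl r) (Sum.inl r') ↔ pos r < pos r' := by
    intro r r'
    constructor
    · rintro (⟨r1, r2, h1, h2, h3⟩ | ⟨r1, r2, h1, h2, h3⟩)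
      · rw [Sum.inl.injEq] at h1 h2
        rwa [h1, h2]
      · exact absurd h1 (by simp)
    · intro h
      exact Or.inl ⟨r, r', rfl, rfl, h⟩
  have ltC : ∀ r r' : Q, γ.lt (Sum.inr (Sum.inl r)) (Sum.inr (Sum.inl r')) ↔ pos r < pos r' := by
    intro r r'
    constructor
    · rintro (⟨r1, r2, h1, h2, h3⟩ | ⟨r1, r2, h1, h2, h3⟩)
      · exact absurd h1 (by simp)
      · rw [Sum.inr.injEq, Sum.inl.injEq] at h1 h2
        rwa [h1, h2]
    · intro h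
      exact Or.inr ⟨r, r', rfl, rfl, h⟩
  have hbase : Base γ := by
    refine ⟨?_, ⟨?_, ?_, ?_, ?_, ?_, ?_⟩, ⟨?_, ?_, ?_, ?_, ?_, ?_⟩, ?_, ?_⟩
    · rintro u ⟨r, rfl⟩ ⟨c, hc⟩
      exact absurd hc (by simp)
    · rintro _ ⟨r, rfl⟩
      rw [ltR]
      exact lt_irrefl _
    · rintro _ _ _ ⟨r, rfl⟩ ⟨r', rfl⟩ ⟨r'', rfl⟩
      rw [ltR, ltR, ltR]
      exact lt_trans
    · rintro _ _ ⟨r, rfl⟩ ⟨r', rfl⟩ hne
      rw [ltR, ltR]
      exact lt_or_gt_of_ne fun h => hne (by rw [pos_inj h])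
    · rintro _ _ ⟨r, rfl⟩ ⟨r', rfl⟩ h
      rw [ltR] at h
      obtain ⟨u, h1, h2, -⟩ := pos_between _ _ h 0
      exact ⟨Sum.inl u, ⟨u, rfl⟩, (ltR _ _).2 h1, (ltR _ _).2 h2⟩
    · rintro _ ⟨r, rfl⟩
      obtain ⟨u, h1, h2, -⟩ := pos_between (pos r) (pos r + 1) (by linarith) 0
      exact ⟨Sum.inl u, ⟨u, rfl⟩, (ltR _ _).2 h1⟩
    · rintro _ ⟨r, rfl⟩
      obtain ⟨u, h1, h2, -⟩ := pos_between (pos r - 1) (pos r) (by linarith) 0
      exact ⟨Sum.inl u, ⟨u, rfl⟩, (ltR _ _).2 h2⟩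
    · rintro _ ⟨r, rfl⟩
      rw [ltC]
      exact lt_irrefl _
    · rintro _ _ _ ⟨r, rfl⟩ ⟨r', rfl⟩ ⟨r'', rfl⟩
      rw [ltC, ltC, ltC]
      exact lt_trans
    · rintro _ _ ⟨r, rfl⟩ ⟨r', rfl⟩ hne
      rw [ltC, ltC]
      exact lt_or_gt_of_ne fun h => hne (by rw [pos_inj h])
    · rintro _ _ ⟨r, rfl⟩ ⟨r', rfl⟩ h
      rw [ltC] at h
      obtain ⟨u, h1, h2, -⟩ := pos_between _ _ h 0
      exact ⟨Sum.inr (Sum.inl u), ⟨u, rfl⟩, (ltC _ _).2 h1, (ltC _ _).2 h2⟩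
    · rintro _ ⟨r, rfl⟩
      obtain ⟨u, h1, h2, -⟩ := pos_between (pos r) (pos r + 1) (by linarith) 0
      exact ⟨Sum.inr (Sum.inl u), ⟨u, rfl⟩, (ltC _ _).2 h1⟩
    · rintro _ ⟨r, rfl⟩
      obtain ⟨u, h1, h2, -⟩ := pos_between (pos r - 1) (pos r) (by linarith) 0
      exact ⟨Sum.inr (Sum.inl u), ⟨u, rfl⟩, (ltC _ _).2 h2⟩
    · intro p hp
      obtain ⟨q, rfl⟩ := (hP p).1 hp
      refine ⟨Sum.inl q.1.1, ⟨_, rfl⟩, ⟨q, rfl, rfl⟩, ?_⟩
      rintro _ - ⟨q', h1, rfl⟩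
      rw [Sum.inr.injEq, Sum.inr.injEq] at h1
      rw [h1]
    · intro p hp
      obtain ⟨q, rfl⟩ := (hP p).1 hp
      refine ⟨Sum.inr (Sum.inl q.1.2), ⟨_, rfl⟩, ⟨q, rfl, rfl⟩, ?_⟩
      rintro _ - ⟨q', h1, rfl⟩
      rw [Sum.inr.injEq, Sum.inr.injEq] at h1
      rw [h1]
  have hlab : Lab γ x κ κ' := by
    refine ⟨?_, ?_, ?_, ?_, ?_⟩
    · rintro _ _ ⟨r, rfl⟩ ⟨c, rfl⟩
      refine ⟨(Finset.univ : Finset (Fin (lam r.2 (s c.2).1))).map
        ⟨fun i => Sum.inr (Sum.inr ⟨(r, c), i⟩), ?_⟩, ?_, ?_⟩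
      · intro i j hij
        exact eq_of_heq (Sigma.mk.inj (Sum.inr.inj (Sum.inr.inj hij))).2
      · rw [Finset.card_map, Finset.card_univ, Fintype.card_fin]
      · intro p
        rw [Finset.mem_map]
        constructor
        · rintro ⟨i, -, rfl⟩
          exact ⟨(hP _).2 ⟨_, rfl⟩, ⟨_, rfl, rfl⟩, ⟨_, rfl, rfl⟩⟩
        · rintro ⟨-, ⟨⟨⟨r1, c1⟩, i⟩, rfl, h2⟩, ⟨⟨⟨r2, c2⟩, j⟩, h3, h4⟩⟩
          rw [Sum.inl.injEq] at h2
          rw [Sum.inr.injEq, Sum.inr.injEq] at h3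
          rw [Sum.inr.injEq, Sum.inl.injEq] at h4
          have h5 : (r1, c1) = (r2, c2) := congrArg Sigma.fst h3
          simp only at h2 h4
          rw [Prod.mk.injEq] at h5
          obtain ⟨h6, h7⟩ := h5
          have h8 : c1 = c := by rw [h7, h4]
          subst h2
          subst h8
          exact ⟨i, Finset.mem_univ _, rfl⟩
    · intro n
      exact ⟨Sum.inl (0, n), ⟨_, rfl⟩, rfl⟩
    · rintro _ _ _ ⟨r, rfl⟩ ⟨r1, rfl⟩ ⟨r2, rfl⟩ h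
      rw [ltR] at h
      obtain ⟨u, h1, h2, h3⟩ := pos_between _ _ h r.2
      exact ⟨Sum.inl u, ⟨u, rfl⟩, (ltR _ _).2 h1, (ltR _ _).2 h2, h3⟩
    · intro t
      constructor
      · rintro ⟨_, ⟨c, rfl⟩, rfl⟩
        exact (s c.2).2
      · intro ht
        obtain ⟨k, hk⟩ := hs ⟨t, ht⟩
        exact ⟨Sum.inr (Sum.inl (0, k)), ⟨_, rfl⟩, congrArg Subtype.val hk⟩
    · rintro _ _ _ ⟨r, rfl⟩ ⟨r1, rfl⟩ ⟨r2, rfl⟩ h
      rw [ltC] at h
      obtain ⟨u, h1, h2, h3⟩ := pos_between _ _ h r.2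
      refine ⟨Sum.inr (Sum.inl u), ⟨u, rfl⟩, (ltC _ _).2 h1, (ltC _ _).2 h2, ?_⟩
      show (s u.2).1 = (s r.2).1
      rw [h3]
  have hcU : Countable U := inferInstanceAs (Countable (Q ⊕ Q ⊕ PP))
  have hiU : Infinite U := inferInstanceAs (Infinite (Q ⊕ Q ⊕ PP))
  obtain ⟨e⟩ := nonempty_equiv_of_countable (α := U) (β := ℕ)
  let δ : Grid ℕ :=
    { R := fun u => γ.R (e.symm u)
      C := fun u => γ.C (e.symm u)
      lt := fun u v => γ.lt (e.symm u) (e.symm v)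
      iR := fun u v => γ.iR (e.symm u) (e.symm v)
      iC := fun u v => γ.iC (e.symm u) (e.symm v) }
  have hg : GIso e γ δ := by
    refine ⟨?_, ?_, ?_, ?_, ?_, ?_⟩
    · intro u; simp [δ]
    · intro u; simp [δ]
    · intro u v _ _; simp [δ]
    · intro u v _ _; simp [δ]
    · intro u v _ _; simp [δ]
    · intro u v _ _; simp [δ]
  exact ⟨δ, _, _, hg.base hbase, hg.lab hlab⟩

end Grid

end Pool.Agent.W889.VC
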