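import Pool.Agent.W889.VC.PL

set_option autoImplicit false

/-! Final assembly: faithful completeness and the converse direction. -/

namespace Pool.Agent.W889.VC

open Set

/-- Every invariant Borel class of structures has the same isomorphism types as an invariant Borel
subclass of `K`. -/
theorem Target.strong {Y : Type} [TopologicalSpace Y] [MeasurableSpace Y]
    {E : Y → Y → Prop} {K : Y → Prop} {D : Y → Grid ℕ} {W : Y → Prop}
    (T : Target E K D W) (a : ℕ → ℕ) (B : Set (Str a)) (hB : MeasurableSet B)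
    (hinv : ∀ x y, Iso x y → (x ∈ B ↔ y ∈ B)) :
    ∃ (B' : Set Y) (F : Y → Str a), MeasurableSet B' ∧ (∀ y z, E y z → (y ∈ B' ↔ z ∈ B')) ∧
      (∀ y ∈ B', K y) ∧ Measurable F ∧ (∀ y ∈ B', F y ∈ B) ∧
      (∀ y ∈ B', ∀ z ∈ B', E y z ↔ Iso (F y) (F z)) ∧ ∀ x ∈ B, ∃ y ∈ B', Iso x (F y) := by
  have key : ∀ y z, E y z → Grid.GoodN a (D y) →
      Grid.GoodN a (D z) ∧ Iso (Grid.dec a (D z)) (Grid.dec a (D y)) := by
    intro y z h1 h2
    obtain ⟨σ, h3⟩ := T.iso y z h1
    obtain ⟨κ, κ', h4⟩ := Grid.lab_of_good h2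
    exact Grid.good_of_lab (h3.base h2.base) (h3.lab h4)
  have hmd : Measurable (fun y => Grid.dec a (D y)) := T.mg.dec
  have hstep : ∀ y z, E y z → y ∈ {y | (W y ∧ Grid.GoodN a (D y)) ∧ Grid.dec a (D y) ∈ B} →
      z ∈ {y | (W y ∧ Grid.GoodN a (D y)) ∧ Grid.dec a (D y) ∈ B} := by
    rintro y z h ⟨⟨h1, h2⟩, h3⟩
    obtain ⟨h4, h5⟩ := key y z h h2
    exact ⟨⟨T.inv y z h h1, h4⟩, (hinv _ _ h5).2 h3⟩
  refine ⟨{y | (W y ∧ Grid.GoodN a (D y)) ∧ Grid.dec a (D y) ∈ B}, fun y => Grid.dec a (D y),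
    (T.mW.and T.mg.GoodN).and (hmd hB), fun y z h => ⟨hstep y z h, hstep z y (T.symm y z h)⟩,
    fun y hy => T.cls y hy.1.1 hy.1.2.base, hmd, fun y hy => hy.2, ?_, ?_⟩
  · intro y hy z hz
    refine ⟨fun h => (key z y (T.symm y z h) hz.1.2).2, fun h => ?_⟩
    obtain ⟨κ, κ', hl⟩ := Grid.lab_of_good hy.1.2
    obtain ⟨μ, μ', hl'⟩ := Grid.lab_of_good hz.1.2
    exact T.iso' _ _ hy.1.1 hz.1.1 hy.1.2.base hz.1.2.base
      (Grid.unique hy.1.2.base hz.1.2.base h hl hl')
  · intro x hx
    obtain ⟨γ, κ, κ', hb, hl⟩ := Grid.exists_grid x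
    have hr0 : ∃ r, γ.R r := ⟨_, (hl.sR 0).choose_spec.1⟩
    have hc0 : ∃ c, γ.C c := ⟨_, ((hl.sC (Sum.inl 0)).2 trivial).choose_spec.1⟩
    obtain ⟨y, hy1, hy2⟩ := T.ex γ hb hr0 hc0 (by
      intro r c hr hc
      obtain ⟨s, hs, h⟩ := hl.mult r c hr hc
      have : 0 < s.card := by rw [hs]; exact lam_pos _ _
      obtain ⟨p, hp⟩ := Finset.card_pos.1 this
      exact ⟨p, (h p).1 hp⟩) (fun r c hr hc => ⟨_, hl.mult r c hr hc⟩)
    obtain ⟨hg, hi⟩ := Grid.good_of_lab (hy2.base hb) (hy2.lab hl)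
    exact ⟨y, ⟨⟨hy1, hg⟩, (hinv _ _ hi).2 hx⟩, hi.symm⟩

/-- the converse direction -/
theorem back {Y : Type} [TopologicalSpace Y] [MeasurableSpace Y] {E : Y → Y → Prop} {a : ℕ → ℕ}
    (up : Y → Str a) (down : Str a → Y) (hc : Continuous down) (hm : Measurable down)
    (R : Str a → Prop) (hR : BP R) (hRi : ∀ x x', Iso x x' → R x → R x')
    (hud : ∀ x, R x → up (down x) = x) (hdu : ∀ y, down (up y) = y) (hup : ∀ y, R (up y))
    (hE : ∀ y z, E y z ↔ Iso (up y) (up z)) (cont : Prop)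
    (h : VCof cont (Iso (a := a)) (fun _ => True)) (K : Y → Prop) : VCof cont E K := by
  intro B hB hinv _
  have hE' : ∀ x x', R x → R x' → (E (down x) (down x') ↔ Iso x x') := by
    intro x x' h1 h2
    rw [hE, hud x h1, hud x' h2]
  rcases h {x | R x ∧ down x ∈ B} (MeasurableSet.inter hR (hm hB)) (by
    intro x y hxy
    constructor
    · rintro ⟨h1, h2⟩
      have h3 := hRi x y hxy h1
      exact ⟨h3, (hinv _ _ ((hE' x y h1 h3).2 hxy)).1 h2⟩
    · rintro ⟨h1, h2⟩
      have h3 := hRi y x hxy.symm h1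
      exact ⟨h3, (hinv _ _ ((hE' x y h3 h1).2 hxy)).2 h2⟩) (fun _ _ => trivial) with
    ⟨f, hf⟩ | ⟨g, h1, h2, h3⟩
  · left
    refine ⟨fun n => down (f n), fun y hy => ?_⟩
    obtain ⟨n, hn⟩ := hf (up y) ⟨hup y, by rw [hdu]; exact hy⟩
    refine ⟨n, ?_⟩
    rw [hE, hud _ (hRi _ _ hn.symm (hup y))]
    exact hn
  · right
    refine ⟨fun c => down (g c), fun hcont => hc.comp (h1 hcont), fun c => (h2 c).2,
      fun c d hcd => h3 c d ((hE' _ _ (h2 c).1 (h2 d).1).1 hcd)⟩

theorem back_bin (cont : Prop)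
    (h : ∀ a : ℕ → ℕ, VCof cont (Iso (a := a)) (fun _ => True)) (K : BinStr → Prop) :
    VCof cont BIso K := by
  have hcd : Continuous (fun (x : Str (fun _ => 2)) (m n : ℕ) => x 0 ![m, n]) :=
    continuous_pi fun m => continuous_pi fun n =>
      (continuous_apply (![m, n] : Fin 2 → ℕ)).comp (continuous_apply 0)
  have hmd : Measurable (fun (x : Str (fun _ => 2)) (m n : ℕ) => x 0 ![m, n]) :=
    measurable_pi_iff.2 fun m => measurable_pi_iff.2 fun n =>
      (measurable_pi_apply (![m, n] : Fin 2 → ℕ)).comp (measurable_pi_apply 0)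
  have e2 : ∀ v : Fin 2 → ℕ, ![v 0, v 1] = v := by
    intro v
    funext i
    fin_cases i <;> rfl
  refine back (E := BIso) (a := fun _ => 2)
    (fun y i v => if i = 0 then y (v 0) (v 1) else false)
    (fun x m n => x 0 ![m, n]) hcd hmd (fun x => ∀ i v, i ≠ 0 → x i v = false) ?_ ?_ ?_ ?_ ?_ ?_
    cont (h _) K
  · refine BP.all fun i => BP.all fun v => (BP.const _).imp ?_
    have hm : Measurable (fun x : Str (fun _ => 2) => x i v) :=
      (measurable_pi_apply v).comp (measurable_pi_apply i)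
    exact hm (measurableSet_singleton false)
  · rintro x x' ⟨σ, hσ⟩ hx i v hi
    have := hσ i (⇑σ.symm ∘ v)
    rw [hx i _ hi] at this
    rw [← this]
    congr 1
    funext j
    simp
  · intro x hx
    funext i v
    by_cases hi : i = 0
    · subst hi
      simp only [if_true]
      rw [e2]
    · simp only [if_neg hi]
      exact (hx i v hi).symm
  · intro y
    rfl
  · intro y i v hi
    simp only [if_neg hi]
  · intro y z
    constructor
    · rintro ⟨σ, hσ⟩
      refine ⟨σ, fun i v => ?_⟩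
      by_cases hi : i = 0
      · subst hi
        simp only [if_true, Function.comp_apply]
        exact hσ _ _
      · simp only [if_neg hi]
    · rintro ⟨σ, hσ⟩
      refine ⟨σ, fun m n => ?_⟩
      have := hσ 0 ![m, n]
      simpa using this

theorem back_pair (cont : Prop)
    (h : ∀ a : ℕ → ℕ, VCof cont (Iso (a := a)) (fun _ => True)) (K : PairStr → Prop) :
    VCof cont PIso K := by
  have hcd : ∀ i : ℕ, Continuous (fun (x : Str (fun _ => 2)) (m n : ℕ) => x i ![m, n]) :=
    fun i => continuous_pi fun m => continuous_pi fun n =>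
      (continuous_apply (![m, n] : Fin 2 → ℕ)).comp (continuous_apply i)
  have hmd : ∀ i : ℕ, Measurable (fun (x : Str (fun _ => 2)) (m n : ℕ) => x i ![m, n]) :=
    fun i => measurable_pi_iff.2 fun m => measurable_pi_iff.2 fun n =>
      (measurable_pi_apply (![m, n] : Fin 2 → ℕ)).comp (measurable_pi_apply i)
  have e2 : ∀ v : Fin 2 → ℕ, ![v 0, v 1] = v := by
    intro v
    funext i
    fin_cases i <;> rfl
  refine back (E := PIso) (a := fun _ => 2)
    (fun y i v => if i = 0 then y.1 (v 0) (v 1) else if i = 1 then y.2 (v 0) (v 1) else false)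
    (fun x => (fun m n => x 0 ![m, n], fun m n => x 1 ![m, n])) ((hcd 0).prodMk (hcd 1))
    ((hmd 0).prodMk (hmd 1)) (fun x => ∀ i v, i ≠ 0 → i ≠ 1 → x i v = false) ?_ ?_ ?_ ?_ ?_ ?_
    cont (h _) K
  · refine BP.all fun i => BP.all fun v => (BP.const _).imp ((BP.const _).imp ?_)
    have hm : Measurable (fun x : Str (fun _ => 2) => x i v) :=
      (measurable_pi_apply v).comp (measurable_pi_apply i)
    exact hm (measurableSet_singleton false)
  · rintro x x' ⟨σ, hσ⟩ hx i v hi hi'
    have := hσ i (⇑σ.symm ∘ v)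
    rw [hx i _ hi hi'] at this
    rw [← this]
    congr 1
    funext j
    simp
  · intro x hx
    funext i v
    by_cases hi : i = 0
    · subst hi
      simp only [if_true]
      rw [e2]
    · by_cases hi' : i = 1
      · subst hi'
        simp only [if_true, one_ne_zero, if_false]
        rw [e2]
      · simp only [if_neg hi, if_neg hi']
        exact (hx i v hi hi').symm
  · intro y
    rfl
  · intro y i v hi hi'
    simp only [if_neg hi, if_neg hi']
  · intro y z
    constructor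
    · rintro ⟨σ, hσ⟩
      refine ⟨σ, fun i v => ?_⟩
      by_cases hi : i = 0
      · subst hi
        simp only [if_true, Function.comp_apply]
        exact (hσ _ _).1
      · by_cases hi' : i = 1
        · subst hi'
          simp only [if_true, one_ne_zero, if_false, Function.comp_apply]
          exact (hσ _ _).2
        · simp only [if_neg hi, if_neg hi']
    · rintro ⟨σ, hσ⟩
      refine ⟨σ, fun m n => ⟨?_, ?_⟩⟩
      · have := hσ 0 ![m, n]
        simpa using this
      · have := hσ 1 ![m, n]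
        simpa using this

end Pool.Agent.W889.VC
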