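import Pool.Agent.W889.VC.BF

set_option autoImplicit false

/-! Grids: rows, columns, and finitely many points for every row and every column. -/

namespace Pool.Agent.W889.VC

/-- structures with relations of arities `a 0, a 1, ...` -/
abbrev Str (a : ℕ → ℕ) : Type := (i : ℕ) → (Fin (a i) → ℕ) → Bool

/-- isomorphism -/
def Iso {a : ℕ → ℕ} (x y : Str a) : Prop :=
  ∃ σ : Equiv.Perm ℕ, ∀ (i : ℕ) (v : Fin (a i) → ℕ), y i (⇑σ ∘ v) = x i v

/-- colours of the columns: elements and tuples -/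
abbrev Tup (a : ℕ → ℕ) : Type := ℕ ⊕ (Σ i : ℕ, (Fin (a i) → ℕ))

/-- the multiplicity of a point in a row of colour `m` and a column of colour `t` -/
def lam {a : ℕ → ℕ} (m : ℕ) : Tup a → ℕ
  | Sum.inl n => if m = n then 2 else 1
  | Sum.inr t => 3 + Nat.pair t.1 (Encodable.encode (fun j : Fin (a t.1) => decide (t.2 j = m)))

/-- the action of permutations on colours of columns -/
def tmap {a : ℕ → ℕ} (τ : Equiv.Perm ℕ) : Tup a → Tup a
  | Sum.inl n => Sum.inl (τ n)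
  | Sum.inr t => Sum.inr ⟨t.1, τ ∘ t.2⟩

theorem lam_pos {a : ℕ → ℕ} (m : ℕ) (t : Tup a) : 0 < lam m t := by
  rcases t with n | t
  · simp only [lam]
    split_ifs <;> norm_num
  · simp only [lam]
    omega

theorem lam_tmap {a : ℕ → ℕ} (τ : Equiv.Perm ℕ) (m : ℕ) (t : Tup a) :
    lam (τ m) (tmap τ t) = lam m t := by
  rcases t with n | t
  · simp [lam, tmap]
  · simp [lam, tmap]

theorem tmap_symm {a : ℕ → ℕ} (τ : Equiv.Perm ℕ) (t : Tup a) : tmap τ (tmap τ.symm t) = t := by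
  rcases t with n | ⟨i, v⟩
  · simp [tmap]
  · simp only [tmap, Sum.inr.injEq]
    congr 1
    funext j
    simp

theorem lam_inj {a : ℕ → ℕ} (t t' : Tup a) (h : ∀ m, lam m t = lam m t') : t = t' := by
  rcases t with n | ⟨i, v⟩ <;> rcases t' with n' | ⟨i', v'⟩
  · by_contra hne
    have h1 : ¬ n = n' := fun h => hne (by rw [h])
    have := h n
    simp [lam, h1] at this
  · have := h n
    simp only [lam, if_true] at this
    omega
  · have := h n'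
    simp only [lam, if_true] at this
    omega
  · have h1 : i = i' := by
      have := h 0
      simp only [lam] at this
      have h2 := Nat.add_left_cancel this
      exact (Nat.pair_eq_pair.1 h2).1
    subst h1
    congr 2
    funext j
    have := h (v j)
    simp only [lam] at this
    have h2 := (Nat.pair_eq_pair.1 (Nat.add_left_cancel this)).2
    have h3 := congrFun (Encodable.encode_injective h2) j
    simp at h3
    exact h3.symm

/-- a colour occurs -/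
def occ {a : ℕ → ℕ} (x : Str a) : Tup a → Prop
  | Sum.inl _ => True
  | Sum.inr t => x t.1 t.2 = true

theorem occ_tmap {a : ℕ → ℕ} {x y : Str a} (τ : Equiv.Perm ℕ)
    (h : ∀ (i : ℕ) (v : Fin (a i) → ℕ), y i (⇑τ ∘ v) = x i v) (t : Tup a) :
    occ y (tmap τ t) ↔ occ x t := by
  rcases t with n | ⟨i, v⟩
  · simp [occ, tmap]
  · simp [occ, tmap, h]

/-- a grid -/
structure Grid (U : Type) where
  /-- rows -/
  R : U → Prop
  /-- columns -/
  C : U → Prop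
  /-- the order of the rows and of the columns -/
  lt : U → U → Prop
  /-- the row of a point -/
  iR : U → U → Prop
  /-- the column of a point -/
  iC : U → U → Prop

namespace Grid

variable {U V : Type}

/-- points -/
def P (γ : Grid U) (u : U) : Prop := ¬ γ.R u ∧ ¬ γ.C u

/-- the points in a row and a column -/
def Fib (γ : Grid U) (r c p : U) : Prop := γ.P p ∧ γ.iR p r ∧ γ.iC p c

/-- the number of these points -/
def Mult (γ : Grid U) (r c : U) (k : ℕ) : Prop :=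
  ∃ s : Finset U, s.card = k ∧ ∀ p, p ∈ s ↔ γ.Fib r c p

theorem Mult.uniq {γ : Grid U} {r c : U} {k l : ℕ} (h : γ.Mult r c k) (h' : γ.Mult r c l) :
    k = l := by
  obtain ⟨s, hs, h⟩ := h
  obtain ⟨s', hs', h'⟩ := h'
  have : s = s' := Finset.ext fun p => (h p).trans (h' p).symm
  rw [← hs, ← hs', this]

/-- dense order on a subset -/
structure On (S : U → Prop) (lt : U → U → Prop) : Prop where
  irrefl : ∀ a, S a → ¬ lt a a
  trans : ∀ a b c, S a → S b → S c → lt a b → lt b c → lt a c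
  total : ∀ a b, S a → S b → a ≠ b → lt a b ∨ lt b a
  dense : ∀ a b, S a → S b → lt a b → ∃ c, S c ∧ lt a c ∧ lt c b
  above : ∀ a, S a → ∃ b, S b ∧ lt a b
  below : ∀ a, S a → ∃ b, S b ∧ lt b a

theorem On.dlo {S : U → Prop} {lt : U → U → Prop} (h : On S lt) :
    DLO (fun r r' : {u // S u} => lt r r') where
  irrefl a := h.irrefl a a.2
  trans a b c := h.trans a b c a.2 b.2 c.2
  total a b hab := h.total a b a.2 b.2 (fun h => hab (Subtype.ext h))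
  dense a b hab := by
    obtain ⟨c, h1, h2, h3⟩ := h.dense a b a.2 b.2 hab
    exact ⟨⟨c, h1⟩, h2, h3⟩
  above a := by
    obtain ⟨c, h1, h2⟩ := h.above a a.2
    exact ⟨⟨c, h1⟩, h2⟩
  below a := by
    obtain ⟨c, h1, h2⟩ := h.below a a.2
    exact ⟨⟨c, h1⟩, h2⟩

/-- basic axioms -/
structure Base (γ : Grid U) : Prop where
  disj : ∀ u, γ.R u → ¬ γ.C u
  dR : On γ.R γ.lt
  dC : On γ.C γ.lt
  rR : ∀ p, γ.P p → ∃ r, γ.R r ∧ γ.iR p r ∧ ∀ r', γ.R r' → γ.iR p r' → r' = r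
  rC : ∀ p, γ.P p → ∃ c, γ.C c ∧ γ.iC p c ∧ ∀ c', γ.C c' → γ.iC p c' → c' = c

/-- isomorphism of grids -/
structure GIso (σ : U ≃ V) (γ : Grid U) (δ : Grid V) : Prop where
  R : ∀ u, γ.R u ↔ δ.R (σ u)
  C : ∀ u, γ.C u ↔ δ.C (σ u)
  lR : ∀ u v, γ.R u → γ.R v → (γ.lt u v ↔ δ.lt (σ u) (σ v))
  lC : ∀ u v, γ.C u → γ.C v → (γ.lt u v ↔ δ.lt (σ u) (σ v))
  iR : ∀ p r, γ.P p → γ.R r → (γ.iR p r ↔ δ.iR (σ p) (σ r))
  iC : ∀ p c, γ.P p → γ.C c → (γ.iC p c ↔ δ.iC (σ p) (σ c))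

theorem GIso.P {σ : U ≃ V} {γ : Grid U} {δ : Grid V} (h : GIso σ γ δ) (u : U) :
    γ.P u ↔ δ.P (σ u) := and_congr (not_congr (h.R u)) (not_congr (h.C u))

theorem GIso.symm {σ : U ≃ V} {γ : Grid U} {δ : Grid V} (h : GIso σ γ δ) :
    GIso σ.symm δ γ := by
  have hR : ∀ v, δ.R v ↔ γ.R (σ.symm v) := fun v => by
    have := h.R (σ.symm v)
    rw [σ.apply_symm_apply] at this
    exact this.symm
  have hC : ∀ v, δ.C v ↔ γ.C (σ.symm v) := fun v => by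
    have := h.C (σ.symm v)
    rw [σ.apply_symm_apply] at this
    exact this.symm
  have hP : ∀ v, δ.P v ↔ γ.P (σ.symm v) := fun v => by
    have := h.P (σ.symm v)
    rw [σ.apply_symm_apply] at this
    exact this.symm
  refine ⟨hR, hC, ?_, ?_, ?_, ?_⟩
  · intro u v hu hv
    have := h.lR (σ.symm u) (σ.symm v) ((hR u).1 hu) ((hR v).1 hv)
    rw [σ.apply_symm_apply, σ.apply_symm_apply] at this
    exact this.symm
  · intro u v hu hv
    have := h.lC (σ.symm u) (σ.symm v) ((hC u).1 hu) ((hC v).1 hv)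
    rw [σ.apply_symm_apply, σ.apply_symm_apply] at this
    exact this.symm
  · intro u v hu hv
    have := h.iR (σ.symm u) (σ.symm v) ((hP u).1 hu) ((hR v).1 hv)
    rw [σ.apply_symm_apply, σ.apply_symm_apply] at this
    exact this.symm
  · intro u v hu hv
    have := h.iC (σ.symm u) (σ.symm v) ((hP u).1 hu) ((hC v).1 hv)
    rw [σ.apply_symm_apply, σ.apply_symm_apply] at this
    exact this.symm

theorem GIso.on {σ : U ≃ V} {S : U → Prop} {S' : V → Prop} {l : U → U → Prop}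
    {l' : V → V → Prop} (hS : ∀ u, S u ↔ S' (σ u))
    (hl : ∀ u v, S u → S v → (l u v ↔ l' (σ u) (σ v))) (h : On S l) : On S' l' := by
  have ex : ∀ v, S' v → ∃ u, S u ∧ σ u = v := fun v hv =>
    ⟨σ.symm v, (hS _).2 (by rwa [σ.apply_symm_apply]), σ.apply_symm_apply v⟩
  refine ⟨?_, ?_, ?_, ?_, ?_, ?_⟩
  · intro a ha
    obtain ⟨a, ha', rfl⟩ := ex a ha
    replace ha := ha'
    rw [← hl a a ha ha]
    exact h.irrefl a ha
  · intro a b c ha hb hc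
    obtain ⟨a, ha', rfl⟩ := ex a ha
    replace ha := ha'
    obtain ⟨b, hb', rfl⟩ := ex b hb
    replace hb := hb'
    obtain ⟨c, hc', rfl⟩ := ex c hc
    replace hc := hc'
    rw [← hl a b ha hb, ← hl b c hb hc, ← hl a c ha hc]
    exact h.trans a b c ha hb hc
  · intro a b ha hb hne
    obtain ⟨a, ha', rfl⟩ := ex a ha
    replace ha := ha'
    obtain ⟨b, hb', rfl⟩ := ex b hb
    replace hb := hb'
    rw [← hl a b ha hb, ← hl b a hb ha]
    exact h.total a b ha hb (fun h => hne (by rw [h]))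
  · intro a b ha hb hab
    obtain ⟨a, ha', rfl⟩ := ex a ha
    replace ha := ha'
    obtain ⟨b, hb', rfl⟩ := ex b hb
    replace hb := hb'
    rw [← hl a b ha hb] at hab
    obtain ⟨c, hc, h1, h2⟩ := h.dense a b ha hb hab
    exact ⟨σ c, (hS c).1 hc, (hl a c ha hc).1 h1, (hl c b hc hb).1 h2⟩
  · intro a ha
    obtain ⟨a, ha', rfl⟩ := ex a ha
    replace ha := ha'
    obtain ⟨c, hc, h1⟩ := h.above a ha
    exact ⟨σ c, (hS c).1 hc, (hl a c ha hc).1 h1⟩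
  · intro a ha
    obtain ⟨a, ha', rfl⟩ := ex a ha
    replace ha := ha'
    obtain ⟨c, hc, h1⟩ := h.below a ha
    exact ⟨σ c, (hS c).1 hc, (hl c a hc ha).1 h1⟩

theorem GIso.base {σ : U ≃ V} {γ : Grid U} {δ : Grid V} (h : GIso σ γ δ) (hb : Base γ) :
    Base δ := by
  refine ⟨?_, GIso.on h.R h.lR hb.dR, GIso.on h.C h.lC hb.dC, ?_, ?_⟩
  · intro v h1 h2
    have e := σ.apply_symm_apply v
    rw [← e] at h1 h2
    exact hb.disj _ ((h.R _).2 h1) ((h.C _).2 h2)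
  · intro p hp
    have e := σ.apply_symm_apply p
    rw [← e] at hp ⊢
    have hp' := (h.P _).2 hp
    obtain ⟨r, h1, h2, h3⟩ := hb.rR _ hp'
    refine ⟨σ r, (h.R r).1 h1, (h.iR _ _ hp' h1).1 h2, fun r' h4 h5 => ?_⟩
    have e' := σ.apply_symm_apply r'
    rw [← e'] at h4 h5 ⊢
    have h4' := (h.R _).2 h4
    exact congrArg σ (h3 _ h4' ((h.iR _ _ hp' h4').2 h5))
  · intro p hp
    have e := σ.apply_symm_apply p
    rw [← e] at hp ⊢
    have hp' := (h.P _).2 hp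
    obtain ⟨r, h1, h2, h3⟩ := hb.rC _ hp'
    refine ⟨σ r, (h.C r).1 h1, (h.iC _ _ hp' h1).1 h2, fun r' h4 h5 => ?_⟩
    have e' := σ.apply_symm_apply r'
    rw [← e'] at h4 h5 ⊢
    have h4' := (h.C _).2 h4
    exact congrArg σ (h3 _ h4' ((h.iC _ _ hp' h4').2 h5))

theorem GIso.mult {σ : U ≃ V} {γ : Grid U} {δ : Grid V} (h : GIso σ γ δ) {r c : U}
    (hr : γ.R r) (hc : γ.C c) {k : ℕ} (hk : γ.Mult r c k) : δ.Mult (σ r) (σ c) k := by
  obtain ⟨s, hs, h1⟩ := hk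
  refine ⟨s.map σ.toEmbedding, by rw [Finset.card_map, hs], fun q => ?_⟩
  rw [Finset.mem_map_equiv, h1]
  have e := σ.apply_symm_apply q
  unfold Fib
  constructor
  · rintro ⟨h2, h3, h4⟩
    refine ⟨?_, ?_, ?_⟩
    · have := (h.P _).1 h2
      rwa [e] at this
    · have := (h.iR _ _ h2 hr).1 h3
      rwa [e] at this
    · have := (h.iC _ _ h2 hc).1 h4
      rwa [e] at this
  · rintro ⟨h2, h3, h4⟩
    rw [← e] at h2 h3 h4
    have h2' := (h.P _).2 h2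
    exact ⟨h2', (h.iR _ _ h2' hr).2 h3, (h.iC _ _ h2' hc).2 h4⟩

/-- a grid labelled by colours, describing the structure `x` -/
structure Lab {a : ℕ → ℕ} (γ : Grid U) (x : Str a) (κ : U → ℕ) (κ' : U → Tup a) : Prop where
  mult : ∀ r c, γ.R r → γ.C c → γ.Mult r c (lam (κ r) (κ' c))
  sR : ∀ n, ∃ r, γ.R r ∧ κ r = n
  denR : ∀ r r1 r2, γ.R r → γ.R r1 → γ.R r2 → γ.lt r1 r2 →
    ∃ r', γ.R r' ∧ γ.lt r1 r' ∧ γ.lt r' r2 ∧ κ r' = κ r
  sC : ∀ t, (∃ c, γ.C c ∧ κ' c = t) ↔ occ x t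
  denC : ∀ r r1 r2, γ.C r → γ.C r1 → γ.C r2 → γ.lt r1 r2 →
    ∃ r', γ.C r' ∧ γ.lt r1 r' ∧ γ.lt r' r2 ∧ κ' r' = κ' r

theorem GIso.lab {a : ℕ → ℕ} {σ : U ≃ V} {γ : Grid U} {δ : Grid V} (h : GIso σ γ δ)
    {x : Str a} {κ : U → ℕ} {κ' : U → Tup a} (hl : Lab γ x κ κ') :
    Lab δ x (κ ∘ σ.symm) (κ' ∘ σ.symm) := by
  have exR : ∀ v, δ.R v → ∃ u, γ.R u ∧ σ u = v := fun v hv =>
    ⟨σ.symm v, (h.R _).2 (by rwa [σ.apply_symm_apply]), σ.apply_symm_apply v⟩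
  have exC : ∀ v, δ.C v → ∃ u, γ.C u ∧ σ u = v := fun v hv =>
    ⟨σ.symm v, (h.C _).2 (by rwa [σ.apply_symm_apply]), σ.apply_symm_apply v⟩
  refine ⟨?_, ?_, ?_, ?_, ?_⟩
  · intro r c hr hc
    obtain ⟨r, hr', rfl⟩ := exR r hr
    replace hr := hr'
    obtain ⟨c, hc', rfl⟩ := exC c hc
    replace hc := hc'
    simp only [Function.comp_apply, Equiv.symm_apply_apply]
    exact h.mult hr hc (hl.mult r c hr hc)
  · intro n
    obtain ⟨r, h1, h2⟩ := hl.sR n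
    exact ⟨σ r, (h.R r).1 h1, by simpa using h2⟩
  · intro r r1 r2 h1 h2 h3 h4
    obtain ⟨r, h1', rfl⟩ := exR r h1
    replace h1 := h1'
    obtain ⟨r1, h2', rfl⟩ := exR r1 h2
    replace h2 := h2'
    obtain ⟨r2, h3', rfl⟩ := exR r2 h3
    replace h3 := h3'
    obtain ⟨r', h5, h6, h7, h8⟩ := hl.denR r r1 r2 h1 h2 h3 ((h.lR _ _ h2 h3).2 h4)
    exact ⟨σ r', (h.R _).1 h5, (h.lR _ _ h2 h5).1 h6, (h.lR _ _ h5 h3).1 h7, by simpa using h8⟩
  · intro t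
    rw [← hl.sC t]
    constructor
    · rintro ⟨c, h1, h2⟩
      obtain ⟨c, h1', rfl⟩ := exC c h1
      replace h1 := h1'
      exact ⟨c, h1, by simpa using h2⟩
    · rintro ⟨c, h1, h2⟩
      exact ⟨σ c, (h.C _).1 h1, by simpa using h2⟩
  · intro r r1 r2 h1 h2 h3 h4
    obtain ⟨r, h1', rfl⟩ := exC r h1
    replace h1 := h1'
    obtain ⟨r1, h2', rfl⟩ := exC r1 h2
    replace h2 := h2'
    obtain ⟨r2, h3', rfl⟩ := exC r2 h3
    replace h3 := h3'
    obtain ⟨r', h5, h6, h7, h8⟩ := hl.denC r r1 r2 h1 h2 h3 ((h.lC _ _ h2 h3).2 h4)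
    exact ⟨σ r', (h.C _).1 h5, (h.lC _ _ h2 h5).1 h6, (h.lC _ _ h5 h3).1 h7, by simpa using h8⟩

/-- the fibre over a row and a column, as a finite type -/
theorem fibEquiv {γ : Grid U} {δ : Grid V} {r c : U} {r' c' : V} {k : ℕ}
    (h : γ.Mult r c k) (h' : δ.Mult r' c' k) :
    Nonempty ({p // γ.Fib r c p} ≃ {q // δ.Fib r' c' q}) := by
  obtain ⟨s, hs, h1⟩ := h
  obtain ⟨t, ht, h2⟩ := h'
  have e1 : {p // p ∈ s} ≃ {p // γ.Fib r c p} := Equiv.subtypeEquivRight h1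
  have e2 : {p // p ∈ t} ≃ {p // δ.Fib r' c' p} := Equiv.subtypeEquivRight h2
  exact ⟨e1.symm.trans ((Finset.equivOfCardEq (hs.trans ht.symm)).trans e2)⟩

/-- An isomorphism from order isomorphisms of the rows and of the columns and bijections of the
fibres (preserving a relation `tw`). -/
theorem assemble {γ : Grid U} {δ : Grid V} (hγ : Base γ) (hδ : Base δ)
    (φ : {u // γ.R u} ≃ {u // δ.R u}) (ψ : {u // γ.C u} ≃ {u // δ.C u})
    (hφ : ∀ a a' : {u // γ.R u}, γ.lt a a' ↔ δ.lt (φ a) (φ a'))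
    (hψ : ∀ a a' : {u // γ.C u}, γ.lt a a' ↔ δ.lt (ψ a) (ψ a'))
    (tw : U → U → Prop) (tw' : V → V → Prop)
    (hfib : ∀ (r : {u // γ.R u}) (c : {u // γ.C u}),
      ∃ e : {p // γ.Fib r c p} ≃ {q // δ.Fib (φ r) (ψ c) q},
        ∀ p q : {p // γ.Fib r c p}, tw p q ↔ tw' (e p) (e q)) :
    ∃ σ : U ≃ V, GIso σ γ δ ∧ ∀ r c p q, γ.R r → γ.C c → γ.Fib r c p → γ.Fib r c q →
      (tw p q ↔ tw' (σ p) (σ q)) := by
  classical
  -- the rows and columns of points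
  choose rw hrw1 hrw2 hrw3 using hγ.rR
  choose cl hcl1 hcl2 hcl3 using hγ.rC
  choose rw' hrw1' hrw2' hrw3' using hδ.rR
  choose cl' hcl1' hcl2' hcl3' using hδ.rC
  let f : {p // γ.P p} → {u // γ.R u} × {u // γ.C u} := fun p =>
    (⟨rw p p.2, hrw1 p p.2⟩, ⟨cl p p.2, hcl1 p p.2⟩)
  let g : {p // δ.P p} → {u // δ.R u} × {u // δ.C u} := fun p =>
    (⟨rw' p p.2, hrw1' p p.2⟩, ⟨cl' p p.2, hcl1' p p.2⟩)
  have ef : ∀ rc : {u // γ.R u} × {u // γ.C u},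
      ∃ e : {p // f p = rc} ≃ {p // γ.Fib rc.1 rc.2 p}, ∀ p, (e p).1 = p.1.1 := by
    rintro ⟨⟨r, hr⟩, ⟨c, hc⟩⟩
    refine ⟨⟨fun p => ⟨p.1.1, p.1.2, ?_, ?_⟩, fun p => ⟨⟨p.1, p.2.1⟩, ?_⟩, fun p => ?_,
      fun p => ?_⟩, fun p => rfl⟩
    · have := congrArg (fun z => (z.1 : U)) p.2
      have h2 := hrw2 p.1.1 p.1.2
      simp only [f] at this
      rw [this] at h2
      exact h2
    · have := congrArg (fun z => (z.2 : U)) p.2
      have h2 := hcl2 p.1.1 p.1.2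
      simp only [f] at this
      rw [this] at h2
      exact h2
    · refine Prod.ext (Subtype.ext ?_) (Subtype.ext ?_)
      · exact (hrw3 p.1 p.2.1 r hr p.2.2.1).symm
      · exact (hcl3 p.1 p.2.1 c hc p.2.2.2).symm
    · rfl
    · rfl
  have eg : ∀ rc : {u // δ.R u} × {u // δ.C u},
      ∃ e : {p // g p = rc} ≃ {p // δ.Fib rc.1 rc.2 p}, ∀ p, (e p).1 = p.1.1 := by
    rintro ⟨⟨r, hr⟩, ⟨c, hc⟩⟩
    refine ⟨⟨fun p => ⟨p.1.1, p.1.2, ?_, ?_⟩, fun p => ⟨⟨p.1, p.2.1⟩, ?_⟩, fun p => ?_,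
      fun p => ?_⟩, fun p => rfl⟩
    · have := congrArg (fun z => (z.1 : V)) p.2
      have h2 := hrw2' p.1.1 p.1.2
      simp only [g] at this
      rw [this] at h2
      exact h2
    · have := congrArg (fun z => (z.2 : V)) p.2
      have h2 := hcl2' p.1.1 p.1.2
      simp only [g] at this
      rw [this] at h2
      exact h2
    · refine Prod.ext (Subtype.ext ?_) (Subtype.ext ?_)
      · exact (hrw3' p.1 p.2.1 r hr p.2.2.1).symm
      · exact (hcl3' p.1 p.2.1 c hc p.2.2.2).symm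
    · rfl
    · rfl
  have efg : ∀ rc : {u // γ.R u} × {u // γ.C u},
      ∃ e : {p // f p = rc} ≃ {p // g p = (φ.prodCongr ψ) rc},
        ∀ p q, tw p.1 q.1 ↔ tw' (e p).1 (e q).1 := by
    intro rc
    obtain ⟨e1, h1⟩ := ef rc
    obtain ⟨e2, h2⟩ := eg ((φ.prodCongr ψ) rc)
    obtain ⟨e5, h5⟩ := hfib rc.1 rc.2
    refine ⟨e1.trans (e5.trans e2.symm), fun p q => ?_⟩
    have h3 : ∀ p : {p // f p = rc}, ((e1.trans (e5.trans e2.symm)) p).1.1 = (e5 (e1 p)).1 := by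
      intro p
      have h6 := h2 (e2.symm (e5 (e1 p)))
      exact h6.symm.trans (congrArg Subtype.val (e2.apply_symm_apply (e5 (e1 p))))
    rw [h3, h3, ← h5, h1, h1]
  choose E hE using efg
  let θ : {p // γ.P p} ≃ {p // δ.P p} :=
    (Equiv.sigmaFiberEquiv f).symm.trans
      ((Equiv.sigmaCongr (φ.prodCongr ψ) E).trans (Equiv.sigmaFiberEquiv g))
  have hθE : ∀ p, θ p = ((E (f p)) ⟨p, rfl⟩).1 := fun p => rfl
  have hθ : ∀ p, g (θ p) = (φ.prodCongr ψ) (f p) := by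
    intro p
    rw [hθE]
    exact ((E (f p)) ⟨p, rfl⟩).2
  have hRC : ∀ u, δ.R u → ¬ δ.C u := hδ.disj
  have nC : ∀ u, γ.C u → ¬ γ.R u := fun u h1 h2 => hγ.disj u h2 h1
  have nC' : ∀ u, δ.C u → ¬ δ.R u := fun u h1 h2 => hδ.disj u h2 h1
  let F : U → V := fun u => if h : γ.R u then φ ⟨u, h⟩ else
    if h' : γ.C u then ψ ⟨u, h'⟩ else θ ⟨u, h, h'⟩
  let H : V → U := fun u => if h : δ.R u then φ.symm ⟨u, h⟩ else
    if h' : δ.C u then ψ.symm ⟨u, h'⟩ else θ.symm ⟨u, h, h'⟩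
  have FR : ∀ u (h : γ.R u), F u = φ ⟨u, h⟩ := fun u h => by simp only [F, dif_pos h]
  have FC : ∀ u (h : γ.C u), F u = ψ ⟨u, h⟩ := fun u h => by
    simp only [F, dif_neg (nC u h), dif_pos h]
  have FP : ∀ u (h : γ.P u), F u = θ ⟨u, h⟩ := fun u h => by
    simp only [F, dif_neg h.1, dif_neg h.2]
  have HR : ∀ u (h : δ.R u), H u = φ.symm ⟨u, h⟩ := fun u h => by simp only [H, dif_pos h]
  have HC : ∀ u (h : δ.C u), H u = ψ.symm ⟨u, h⟩ := fun u h => by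
    simp only [H, dif_neg (nC' u h), dif_pos h]
  have HP : ∀ u (h : δ.P u), H u = θ.symm ⟨u, h⟩ := fun u h => by
    simp only [H, dif_neg h.1, dif_neg h.2]
  let σ : U ≃ V :=
    { toFun := F
      invFun := H
      left_inv := by
        intro u
        by_cases h1 : γ.R u
        · rw [FR u h1, HR _ (φ ⟨u, h1⟩).2]
          simp
        · by_cases h2 : γ.C u
          · rw [FC u h2, HC _ (ψ ⟨u, h2⟩).2]
            simp
          · rw [FP u ⟨h1, h2⟩, HP _ (θ ⟨u, h1, h2⟩).2]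
            simp
      right_inv := by
        intro u
        by_cases h1 : δ.R u
        · rw [HR u h1, FR _ (φ.symm ⟨u, h1⟩).2]
          simp
        · by_cases h2 : δ.C u
          · rw [HC u h2, FC _ (ψ.symm ⟨u, h2⟩).2]
            simp
          · rw [HP u ⟨h1, h2⟩, FP _ (θ.symm ⟨u, h1, h2⟩).2]
            simp }
  have σR : ∀ u (h : γ.R u), σ u = φ ⟨u, h⟩ := FR
  have σC : ∀ u (h : γ.C u), σ u = ψ ⟨u, h⟩ := FC
  have σP : ∀ u (h : γ.P u), σ u = θ ⟨u, h⟩ := FP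
  have kR : ∀ u, γ.R u ↔ δ.R (σ u) := by
    intro u
    by_cases h1 : γ.R u
    · rw [σR u h1]
      exact iff_of_true h1 (φ ⟨u, h1⟩).2
    · by_cases h2 : γ.C u
      · rw [σC u h2]
        exact iff_of_false h1 (nC' _ (ψ ⟨u, h2⟩).2)
      · rw [σP u ⟨h1, h2⟩]
        exact iff_of_false h1 (θ ⟨u, h1, h2⟩).2.1
  have kC : ∀ u, γ.C u ↔ δ.C (σ u) := by
    intro u
    by_cases h2 : γ.C u
    · rw [σC u h2]
      exact iff_of_true h2 (ψ ⟨u, h2⟩).2
    · by_cases h1 : γ.R u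
      · rw [σR u h1]
        exact iff_of_false h2 (hδ.disj _ (φ ⟨u, h1⟩).2)
      · rw [σP u ⟨h1, h2⟩]
        exact iff_of_false h2 (θ ⟨u, h1, h2⟩).2.2
  refine ⟨σ, ⟨kR, kC, ?_, ?_, ?_, ?_⟩, ?_⟩
  · intro u v hu hv
    rw [σR u hu, σR v hv]
    exact hφ ⟨u, hu⟩ ⟨v, hv⟩
  · intro u v hu hv
    rw [σC u hu, σC v hv]
    exact hψ ⟨u, hu⟩ ⟨v, hv⟩
  · intro p r hp hr
    rw [σP p hp, σR r hr]
    have e1 := congrArg (fun z => (z.1 : V)) (hθ ⟨p, hp⟩)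
    simp only [f, g, Equiv.prodCongr_apply, Prod.map] at e1
    constructor
    · intro h1
      have h2 : r = rw p hp := hrw3 p hp r hr h1
      subst h2
      rw [← e1]
      exact hrw2' _ _
    · intro h1
      have h2 := hrw3' _ (θ ⟨p, hp⟩).2 _ (φ ⟨r, hr⟩).2 h1
      rw [e1] at h2
      have h3 : (⟨r, hr⟩ : {u // γ.R u}) = ⟨rw p hp, hrw1 p hp⟩ := φ.injective (Subtype.ext h2)
      have h4 : r = rw p hp := congrArg Subtype.val h3
      rw [h4]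
      exact hrw2 p hp
  · intro p r hp hr
    rw [σP p hp, σC r hr]
    have e1 := congrArg (fun z => (z.2 : V)) (hθ ⟨p, hp⟩)
    simp only [f, g, Equiv.prodCongr_apply, Prod.map] at e1
    constructor
    · intro h1
      have h2 : r = cl p hp := hcl3 p hp r hr h1
      subst h2
      rw [← e1]
      exact hcl2' _ _
    · intro h1
      have h2 := hcl3' _ (θ ⟨p, hp⟩).2 _ (ψ ⟨r, hr⟩).2 h1
      rw [e1] at h2
      have h3 : (⟨r, hr⟩ : {u // γ.C u}) = ⟨cl p hp, hcl1 p hp⟩ := ψ.injective (Subtype.ext h2)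
      have h4 : r = cl p hp := congrArg Subtype.val h3
      rw [h4]
      exact hcl2 p hp
  · intro r c p q hr hc hp hq
    rw [σP p hp.1, σP q hq.1, hθE, hθE]
    have fp : f ⟨p, hp.1⟩ = (⟨r, hr⟩, ⟨c, hc⟩) := by
      refine Prod.ext (Subtype.ext ?_) (Subtype.ext ?_)
      · exact (hrw3 p hp.1 r hr hp.2.1).symm
      · exact (hcl3 p hp.1 c hc hp.2.2).symm
    have fq : f ⟨q, hq.1⟩ = (⟨r, hr⟩, ⟨c, hc⟩) := by
      refine Prod.ext (Subtype.ext ?_) (Subtype.ext ?_)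
      · exact (hrw3 q hq.1 r hr hq.2.1).symm
      · exact (hcl3 q hq.1 c hc hq.2.2).symm
    have key : ∀ (x : {p // γ.P p}) (rc) (h : f x = rc), ((E (f x)) ⟨x, rfl⟩).1.1 =
        ((E rc) ⟨x, h⟩).1.1 := by
      intro x rc h
      subst h
      rfl
    rw [key _ _ fp, key _ _ fq]
    exact hE _ ⟨⟨p, hp.1⟩, fp⟩ ⟨⟨q, hq.1⟩, fq⟩

/-- Two labelled grids for isomorphic structures are isomorphic. -/
theorem unique {a : ℕ → ℕ} [Countable U] [Countable V] {γ : Grid U} {δ : Grid V}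
    (hγ : Base γ) (hδ : Base δ) {x y : Str a} (hxy : Iso x y) {κ : U → ℕ} {κ' : U → Tup a}
    {μ : V → ℕ} {μ' : V → Tup a} (h : Lab γ x κ κ') (h' : Lab δ y μ μ') :
    ∃ σ : U ≃ V, GIso σ γ δ := by
  classical
  obtain ⟨τ, hτ⟩ := hxy
  obtain ⟨φ, hφ, hφk⟩ := shuffle_unique _ _ hγ.dR.dlo hδ.dR.dlo
    (fun r : {u // γ.R u} => τ (κ r)) (fun r : {u // δ.R u} => μ r)
    (by
      rintro r r1 r2 h1
      obtain ⟨r', h2, h3, h4, h5⟩ := h.denR r r1 r2 r.2 r1.2 r2.2 h1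
      exact ⟨⟨r', h2⟩, h3, h4, congrArg τ h5⟩)
    (by
      rintro r r1 r2 h1
      obtain ⟨r', h2, h3, h4, h5⟩ := h'.denR r r1 r2 r.2 r1.2 r2.2 h1
      exact ⟨⟨r', h2⟩, h3, h4, h5⟩)
    (by
      intro r
      obtain ⟨r', h1, h2⟩ := h'.sR (τ (κ r))
      exact ⟨⟨r', h1⟩, h2⟩)
    (by
      intro r
      obtain ⟨r', h1, h2⟩ := h.sR (τ.symm (μ r))
      exact ⟨⟨r', h1⟩, by simp [h2]⟩)
  obtain ⟨ψ, hψ, hψk⟩ := shuffle_unique _ _ hγ.dC.dlo hδ.dC.dlo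
    (fun c : {u // γ.C u} => tmap τ (κ' c)) (fun c : {u // δ.C u} => μ' c)
    (by
      rintro r r1 r2 h1
      obtain ⟨r', h2, h3, h4, h5⟩ := h.denC r r1 r2 r.2 r1.2 r2.2 h1
      exact ⟨⟨r', h2⟩, h3, h4, congrArg (tmap τ) h5⟩)
    (by
      rintro r r1 r2 h1
      obtain ⟨r', h2, h3, h4, h5⟩ := h'.denC r r1 r2 r.2 r1.2 r2.2 h1
      exact ⟨⟨r', h2⟩, h3, h4, h5⟩)
    (by
      intro c
      obtain ⟨c', h1, h2⟩ := (h'.sC (tmap τ (κ' c))).2
        ((occ_tmap τ hτ _).2 ((h.sC _).1 ⟨c, c.2, rfl⟩))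
      exact ⟨⟨c', h1⟩, h2⟩)
    (by
      intro c
      have h1 : occ y (μ' c) := (h'.sC _).1 ⟨c, c.2, rfl⟩
      rw [← tmap_symm τ (μ' c), occ_tmap τ hτ] at h1
      obtain ⟨c', h1, h2⟩ := (h.sC _).2 h1
      exact ⟨⟨c', h1⟩, by
        show tmap τ (κ' c') = μ' c
        rw [h2, tmap_symm]⟩)
  obtain ⟨σ, hσ, -⟩ := assemble hγ hδ φ ψ hφ hψ (fun _ _ => True) (fun _ _ => True) (by
    intro r c
    have m1 := h.mult r c r.2 c.2
    have m2 := h'.mult (φ r) (ψ c) (φ r).2 (ψ c).2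
    have e3 : μ (φ r) = τ (κ r) := hφk r
    have e4 : μ' (ψ c) = tmap τ (κ' c) := hψk c
    rw [e3, e4, lam_tmap] at m2
    obtain ⟨e5⟩ := fibEquiv m1 m2
    exact ⟨e5, fun _ _ => Iff.rfl⟩)
  exact ⟨σ, hσ⟩

end Grid

end Pool.Agent.W889.VC
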