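import Pool.Agent.W889.VC.Inc2
import Pool.Agent.W889.VC.Fin

set_option autoImplicit false

/-! Hereditary classes: completeness for Vaught's conjecture. -/

namespace Pool.Agent.W889.VC

open Set

/-- faithful completeness -/
def Faithful {Y : Type} [MeasurableSpace Y] (E : Y → Y → Prop) (K : Y → Prop) : Prop :=
  ∀ (a : ℕ → ℕ) (B : Set (Str a)), MeasurableSet B → (∀ x y, Iso x y → (x ∈ B ↔ y ∈ B)) →
    ∃ (B' : Set Y) (F : Y → Str a), MeasurableSet B' ∧ (∀ y z, E y z → (y ∈ B' ↔ z ∈ B')) ∧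
      (∀ y ∈ B', K y) ∧ Measurable F ∧ (∀ y ∈ B', F y ∈ B) ∧
      (∀ y ∈ B', ∀ z ∈ B', E y z ↔ Iso (F y) (F z)) ∧ ∀ x ∈ B, ∃ y ∈ B', Iso x (F y)

theorem Target.faithful {Y : Type} [TopologicalSpace Y] [MeasurableSpace Y]
    {E : Y → Y → Prop} {K : Y → Prop} {D : Y → Grid ℕ} {W : Y → Prop}
    (T : Target E K D W) : Faithful E K := fun a B hB hinv => T.strong a B hB hinv

theorem Faithful.mono {Y : Type} [MeasurableSpace Y] {E : Y → Y → Prop} {K K' : Y → Prop}
    (h : Faithful E K) (hK : ∀ y, K y → K' y) : Faithful E K' := by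
  intro a B hB hinv
  obtain ⟨B', F, h1, h2, h3, h4⟩ := h a B hB hinv
  exact ⟨B', F, h1, h2, fun y hy => hK y (h3 y hy), h4⟩

theorem Faithful.vaught {Y : Type} [TopologicalSpace Y] [MeasurableSpace Y] [BorelSpace Y]
    {E : Y → Y → Prop} {K : Y → Prop} (h : Faithful E K) (cont : Prop) (hY : VCof cont E K)
    (a : ℕ → ℕ) : VCof cont (Iso (a := a)) (fun _ => True) := by
  intro B hB hinv _
  obtain ⟨B', F, h1, h2, h3, h4, h5, h6, h7⟩ := h a B hB hinv
  rcases hY B' h1 h2 h3 with ⟨f, hf⟩ | ⟨g, k1, k2, k3⟩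
  · left
    classical
    refine ⟨fun n => F (f n), fun x hx => ?_⟩
    obtain ⟨y, hy, hxy⟩ := h7 x hx
    obtain ⟨n, hn⟩ := hf y hy
    have hn' : f n ∈ B' := (h2 _ _ hn).2 hy
    exact ⟨n, ((h6 _ hn' _ hy).1 hn).trans hxy.symm⟩
  · right
    have hinj : ∀ c d, Iso (F (g c)) (F (g d)) → c = d := fun c d hcd =>
      k3 c d ((h6 _ (k2 c) _ (k2 d)).2 hcd)
    by_cases hcont : cont
    · have hm : Measurable (fun c => F (g c)) := h4.comp (k1 hcont).measurable
      obtain ⟨h', h8, h9⟩ := cont_of_meas hm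
      exact ⟨_, fun _ => h9, fun c => h5 _ (k2 (h' c)), fun c d hcd => h8 (hinj _ _ hcd)⟩
    · exact ⟨_, fun h => absurd h hcont, fun c => h5 _ (k2 c), hinj⟩

/-- the complementary graph -/
def comp (y : BinStr) : BinStr := fun u v => if u = v then false else !(y u v)

theorem comp_graph {y : BinStr} (h : IsGraph y) : IsGraph (comp y) := by
  refine ⟨fun u => by simp [comp], fun u v huv => ?_⟩
  have e : y u v = y v u := by
    rw [Bool.eq_iff_iff]
    exact ⟨h.symm u v, h.symm v u⟩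
  unfold comp at huv ⊢
  by_cases he : u = v
  · rw [if_pos he] at huv
    exact absurd huv (by decide)
  · rw [if_neg he] at huv
    rw [if_neg (fun h => he h.symm), ← e]
    exact huv

theorem comp_comp {y : BinStr} (h : IsGraph y) : comp (comp y) = y := by
  funext u v
  unfold comp
  by_cases he : u = v
  · subst he
    simp [h.irrefl]
  · simp [he]

theorem comp_equi {σ : Equiv.Perm ℕ} {y z : BinStr} (h : ∀ m n, z (σ m) (σ n) = y m n) (m n : ℕ) :
    comp z (σ m) (σ n) = comp y m n := by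
  unfold comp
  rw [h m n]
  by_cases he : m = n
  · rw [if_pos he, if_pos (by rw [he])]
  · rw [if_neg he, if_neg (fun h => he (σ.injective h))]

theorem comp_iso {y z : BinStr} (h : BIso y z) : BIso (comp y) (comp z) := by
  obtain ⟨σ, h⟩ := h
  exact ⟨σ, comp_equi h⟩

theorem comp_iso' {y z : BinStr} (hy : IsGraph y) (hz : IsGraph z)
    (h : BIso (comp y) (comp z)) : BIso y z := by
  have := comp_iso h
  rwa [comp_comp hy, comp_comp hz] at this

theorem measurable_comp : Measurable comp := by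
  refine measurable_pi_iff.2 fun u => measurable_pi_iff.2 fun v => ?_
  by_cases he : u = v
  · have : (fun y : BinStr => comp y u v) = fun _ => false := by
      funext y
      simp [comp, he]
    rw [this]
    exact measurable_const
  · have : (fun y : BinStr => comp y u v) = fun y => !(y u v) := by
      funext y
      simp [comp, he]
    rw [this]
    have h1 : Measurable (fun y : BinStr => y u v) :=
      (measurable_pi_apply v).comp (measurable_pi_apply u)
    exact (measurable_of_countable (fun b : Bool => !b)).comp h1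

theorem isGraph_equi {y z : BinStr} (h : BIso y z) (hy : IsGraph y) : IsGraph z := by
  obtain ⟨σ, h⟩ := h
  have ex : ∀ v, ∃ u, σ u = v := fun v => ⟨σ.symm v, σ.apply_symm_apply v⟩
  refine ⟨fun u => ?_, fun u v => ?_⟩
  · obtain ⟨u, rfl⟩ := ex u
    rw [h]
    exact hy.irrefl u
  · obtain ⟨u, rfl⟩ := ex u
    obtain ⟨v, rfl⟩ := ex v
    rw [h, h]
    exact hy.symm u v

theorem bp_isGraph : BP (fun y : BinStr => IsGraph y) := by
  have : BP (fun y : BinStr => (∀ u, ¬ y u u = true) ∧ ∀ u v, y u v = true → y v u = true) :=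
    (BP.all fun u => (bp_atom u u).not).and
    (BP.all fun u => BP.all fun v => (bp_atom u v).imp (bp_atom v u))
  refine this.congr fun y => ⟨fun ⟨h1, h2⟩ => ⟨fun u => ?_, h2⟩, fun ⟨h1, h2⟩ =>
    ⟨fun u => ?_, h2⟩⟩
  · rw [Bool.eq_false_iff]
    exact h1 u
  · rw [h1 u]
    decide

theorem faithful_compl {K : BinStr → Prop} (hK : ∀ y, K y → IsGraph y)
    (h : Faithful BIso K) : Faithful BIso (fun y => IsGraph y ∧ K (comp y)) := by
  intro a B hB hinv
  obtain ⟨B', F, h1, h2, h3, h4, h5, h6, h7⟩ := h a B hB hinv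
  have hstep : ∀ y z, BIso y z → (IsGraph y ∧ comp y ∈ B') → (IsGraph z ∧ comp z ∈ B') :=
    fun y z hyz hy => ⟨isGraph_equi hyz hy.1, (h2 _ _ (comp_iso hyz)).1 hy.2⟩
  refine ⟨{y | IsGraph y ∧ comp y ∈ B'}, fun y => F (comp y),
    MeasurableSet.inter bp_isGraph (measurable_comp h1),
    fun y z hyz => ⟨hstep y z hyz, hstep z y hyz.symm⟩, fun y hy => ⟨hy.1, h3 _ hy.2⟩,
    h4.comp measurable_comp, fun y hy => h5 _ hy.2, fun y hy z hz => ?_, fun x hx => ?_⟩
  · rw [← h6 _ hy.2 _ hz.2]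
    exact ⟨comp_iso, comp_iso' hy.1 hz.1⟩
  · obtain ⟨y, hy, hxy⟩ := h7 x hx
    have hg := hK y (h3 y hy)
    refine ⟨comp y, ⟨comp_graph hg, ?_⟩, ?_⟩
    · rw [comp_comp hg]
      exact hy
    · show Iso x (F (comp (comp y)))
      rw [comp_comp hg]
      exact hxy

/-- graphs without an induced subgraph isomorphic to `H` -/
def HFree {n : ℕ} (H : SimpleGraph (Fin n)) (y : BinStr) : Prop :=
  IsGraph y ∧ ¬ ∃ f : Fin n → ℕ, Function.Injective f ∧
    ∀ i j, y (f i) (f j) = true ↔ H.Adj i j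

/-- a triangle -/
def Tri {n : ℕ} (H : SimpleGraph (Fin n)) : Prop :=
  ∃ i j k, H.Adj i j ∧ H.Adj j k ∧ H.Adj i k

/-- split graphs -/
def Spl {n : ℕ} (H : SimpleGraph (Fin n)) : Prop :=
  ∃ A : Fin n → Prop, (∀ i j, A i → A j → i ≠ j → H.Adj i j) ∧ ∀ i j, ¬ A i → ¬ A j → ¬ H.Adj i j

theorem tri_free {n : ℕ} {H : SimpleGraph (Fin n)} (h : Tri H) (y : BinStr) (hy : Bip y) :
    HFree H y := by
  obtain ⟨hg, A, hA⟩ := hy
  refine ⟨hg, ?_⟩
  rintro ⟨f, -, hf⟩
  obtain ⟨i, j, k, h1, h2, h3⟩ := h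
  have e1 := hA _ _ ((hf i j).2 h1)
  have e2 := hA _ _ ((hf j k).2 h2)
  have e3 := hA _ _ ((hf i k).2 h3)
  tauto

theorem spl_free {n : ℕ} {H : SimpleGraph (Fin n)} (h : ¬ Spl H) (y : BinStr) (hy : Split y) :
    HFree H y := by
  obtain ⟨hg, A, hA, hA'⟩ := hy
  refine ⟨hg, ?_⟩
  rintro ⟨f, hf1, hf⟩
  refine h ⟨fun i => A (f i), fun i j hi hj hne => ?_, fun i j hi hj hij => ?_⟩
  · exact (hf i j).1 (hA _ _ hi hj (fun e => hne (hf1 e)))
  · have := (hf i j).2 hij
    rw [hA' _ _ hi hj] at this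
    exact absurd this (by decide)

theorem compl_free {n : ℕ} {H : SimpleGraph (Fin n)} (y : BinStr) (hg : IsGraph y)
    (hy : HFree Hᶜ (comp y)) : HFree H y := by
  refine ⟨hg, ?_⟩
  rintro ⟨f, hf1, hf⟩
  refine hy.2 ⟨f, hf1, fun i j => ?_⟩
  rw [SimpleGraph.compl_adj]
  unfold comp
  by_cases he : i = j
  · subst he
    simp
  · rw [if_neg (fun e => he (hf1 e))]
    have := hf i j
    constructor
    · intro h
      refine ⟨he, fun h' => ?_⟩
      rw [this.2 h'] at h
      exact absurd h (by decide)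
    · rintro ⟨-, h⟩
      by_contra h'
      apply h
      rw [← this]
      cases hb : y (f i) (f j)
      · rw [hb] at h'
        exact absurd rfl h'
      · rfl

end Pool.Agent.W889.VC
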