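import Pool.Agent.W889.VC.Rep

set_option autoImplicit false

/-! Interval orders. -/

namespace Pool.Agent.W889.VC

open Grid

/-- binary relations on `ℕ` -/
abbrev BinStr : Type := ℕ → ℕ → Bool

/-- isomorphism of binary relations -/
def BIso (y z : BinStr) : Prop := ∃ σ : Equiv.Perm ℕ, ∀ m n, z (σ m) (σ n) = y m n

theorem BIso.symm {y z : BinStr} (h : BIso y z) : BIso z y := by
  obtain ⟨σ, h⟩ := h
  refine ⟨σ⁻¹, fun m n => ?_⟩
  have := h (σ⁻¹ m) (σ⁻¹ n)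
  rw [← this]
  simp

/-- interval orders (irreflexive relations without `2 + 2`) -/
structure IntervalOrder (y : BinStr) : Prop where
  irrefl : ∀ m, y m m = false
  two : ∀ a b c d, y a b = true → y c d = true → y a d = true ∨ y c b = true

/-- a point -/
def PPd (y : ℕ → ℕ → Prop) (u : ℕ) : Prop :=
  ∃ b b', y b b' ∧ ¬ y u b ∧ ¬ y b u ∧ ¬ y u b' ∧ ¬ y b' u

/-- a row -/
def Rd (y : ℕ → ℕ → Prop) (u : ℕ) : Prop := ¬ PPd y u ∧ ∃ p, PPd y p ∧ y u p

/-- a column -/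
def Cd (y : ℕ → ℕ → Prop) (u : ℕ) : Prop := ¬ PPd y u ∧ ∃ p, PPd y p ∧ y p u

/-- decoding -/
def DI (y : BinStr) : Grid ℕ :=
  mk (Rd fun u v => y u v = true) (Cd fun u v => y u v = true) (fun u v => y u v = true)

/-- the relation is represented by its grid -/
def WI (y : BinStr) : Prop :=
  Rep (DI y) (fun u v => y u v = true) ∧ PP0 (DI y) (fun u v => y u v = true)

theorem io_dec {γ : Grid ℕ} (hb : Base γ) (hr0 : ∃ r, γ.R r) (hc0 : ∃ c, γ.C c)
    (hf : ∀ r c, γ.R r → γ.C c → ∃ p, γ.Fib r c p) {y : ℕ → ℕ → Prop} (hy : Rep γ y)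
    (hp : PP0 γ y) : (∀ u, γ.R u ↔ Rd y u) ∧ ∀ u, γ.C u ↔ Cd y u := by
  have h1 : ∀ u, γ.P u → PPd y u := by
    intro u hu
    obtain ⟨r, h1, h2, h3⟩ := hb.rR u hu
    obtain ⟨r1, h4, h5⟩ := hb.dR.above r h1
    obtain ⟨r2, h6, h7⟩ := hb.dR.above r1 h4
    have h8 : γ.lt r r2 := hb.dR.trans _ _ _ h1 h4 h6 h5 h7
    refine ⟨r1, r2, (hy.rr _ _ h4 h6).2 h7, hy.pr u r1 hu h4, ?_, hy.pr u r2 hu h6, ?_⟩
    · rw [hy.rp r1 u r h4 hu h1 h2]
      intro h9
      exact hb.dR.irrefl _ h1 (hb.dR.trans _ _ _ h1 h4 h1 h5 h9)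
    · rw [hy.rp r2 u r h6 hu h1 h2]
      intro h9
      exact hb.dR.irrefl _ h1 (hb.dR.trans _ _ _ h1 h6 h1 h8 h9)
  have h2 : ∀ u, γ.R u → ¬ PPd y u := by
    rintro u hu ⟨b, b', k1, k2, k3, k4, k5⟩
    have hbu : b ≠ u := fun h => k4 (h ▸ k1)
    have hbu' : b' ≠ u := fun h => k3 (h ▸ k1)
    have pb : γ.P b := by
      rcases cases3 γ b with h | h | h
      · rcases hb.dR.total b u h hu hbu with h' | h'
        · exact absurd ((hy.rr _ _ h hu).2 h') k3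
        · exact absurd ((hy.rr _ _ hu h).2 h') k2
      · exact absurd (hy.rc u b hu h) k2
      · exact h
    have pb' : γ.P b' := by
      rcases cases3 γ b' with h | h | h
      · rcases hb.dR.total b' u h hu hbu' with h' | h'
        · exact absurd ((hy.rr _ _ h hu).2 h') k5
        · exact absurd ((hy.rr _ _ hu h).2 h') k4
      · exact absurd (hy.rc u b' hu h) k4
      · exact h
    exact hp b b' pb pb' k1
  have h3 : ∀ u, γ.C u → ¬ PPd y u := by
    rintro u hu ⟨b, b', k1, k2, k3, k4, k5⟩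
    have hbu : b ≠ u := fun h => k4 (h ▸ k1)
    have hbu' : b' ≠ u := fun h => k3 (h ▸ k1)
    have pb : γ.P b := by
      rcases cases3 γ b with h | h | h
      · exact absurd (hy.rc b u h hu) k3
      · rcases hb.dC.total b u h hu hbu with h' | h'
        · exact absurd ((hy.cc _ _ h hu).2 h') k3
        · exact absurd ((hy.cc _ _ hu h).2 h') k2
      · exact h
    have pb' : γ.P b' := by
      rcases cases3 γ b' with h | h | h
      · exact absurd (hy.rc b' u h hu) k5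
      · rcases hb.dC.total b' u h hu hbu' with h' | h'
        · exact absurd ((hy.cc _ _ h hu).2 h') k5
        · exact absurd ((hy.cc _ _ hu h).2 h') k4
      · exact h
    exact hp b b' pb pb' k1
  obtain ⟨r0, hr0⟩ := hr0
  obtain ⟨c0, hc0⟩ := hc0
  refine ⟨fun u => ⟨fun hu => ⟨h2 u hu, ?_⟩, ?_⟩, fun u => ⟨fun hu => ⟨h3 u hu, ?_⟩, ?_⟩⟩
  · obtain ⟨r1, h4, h5⟩ := hb.dR.above u hu
    obtain ⟨p, h6, h7, -⟩ := hf r1 c0 h4 hc0
    exact ⟨p, h1 p h6, (hy.rp u p r1 hu h6 h4 h7).2 h5⟩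
  · rintro ⟨h4, p, h5, h6⟩
    have hpp : γ.P p := by
      rcases cases3 γ p with h | h | h
      · exact absurd h5 (h2 p h)
      · exact absurd h5 (h3 p h)
      · exact h
    rcases cases3 γ u with h | h | h
    · exact h
    · exact absurd h6 (hy.cp u p h hpp)
    · exact absurd (h1 u h) h4
  · obtain ⟨c1, h4, h5⟩ := hb.dC.below u hu
    obtain ⟨p, h6, -, h7⟩ := hf r0 c1 hr0 h4
    exact ⟨p, h1 p h6, (hy.pc p u c1 h6 hu h4 h7).2 h5⟩
  · rintro ⟨h4, p, h5, h6⟩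
    have hpp : γ.P p := by
      rcases cases3 γ p with h | h | h
      · exact absurd h5 (h2 p h)
      · exact absurd h5 (h3 p h)
      · exact h
    rcases cases3 γ u with h | h | h
    · exact absurd h6 (hy.pr p u hpp h)
    · exact h
    · exact absurd (h1 u h) h4

theorem PPd_equi {σ : Equiv.Perm ℕ} {y z : ℕ → ℕ → Prop} (hyz : ∀ u v, y u v ↔ z (σ u) (σ v))
    (u : ℕ) : PPd y u ↔ PPd z (σ u) := by
  constructor
  · rintro ⟨b, b', h⟩
    rw [hyz, hyz, hyz, hyz, hyz] at h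
    exact ⟨σ b, σ b', h⟩
  · rintro ⟨b, b', h⟩
    have e := σ.apply_symm_apply b
    have e' := σ.apply_symm_apply b'
    rw [← e, ← e'] at h
    refine ⟨σ.symm b, σ.symm b', ?_⟩
    rw [hyz, hyz, hyz, hyz, hyz]
    exact h

theorem Rd_equi {σ : Equiv.Perm ℕ} {y z : ℕ → ℕ → Prop} (hyz : ∀ u v, y u v ↔ z (σ u) (σ v))
    (u : ℕ) : Rd y u ↔ Rd z (σ u) := by
  unfold Rd
  rw [PPd_equi hyz]
  refine and_congr Iff.rfl ?_
  constructor
  · rintro ⟨p, h1, h2⟩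
    exact ⟨σ p, (PPd_equi hyz p).1 h1, (hyz _ _).1 h2⟩
  · rintro ⟨p, h1, h2⟩
    have e := σ.apply_symm_apply p
    rw [← e] at h1 h2
    exact ⟨σ.symm p, (PPd_equi hyz _).2 h1, (hyz _ _).2 h2⟩

theorem Cd_equi {σ : Equiv.Perm ℕ} {y z : ℕ → ℕ → Prop} (hyz : ∀ u v, y u v ↔ z (σ u) (σ v))
    (u : ℕ) : Cd y u ↔ Cd z (σ u) := by
  unfold Cd
  rw [PPd_equi hyz]
  refine and_congr Iff.rfl ?_
  constructor
  · rintro ⟨p, h1, h2⟩
    exact ⟨σ p, (PPd_equi hyz p).1 h1, (hyz _ _).1 h2⟩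
  · rintro ⟨p, h1, h2⟩
    have e := σ.apply_symm_apply p
    rw [← e] at h1 h2
    exact ⟨σ.symm p, (PPd_equi hyz _).2 h1, (hyz _ _).2 h2⟩

theorem DI_equi {σ : Equiv.Perm ℕ} {y z : BinStr} (h : ∀ m n, z (σ m) (σ n) = y m n) :
    GIso σ (DI y) (DI z) := by
  have hyz : ∀ u v, (y u v = true) ↔ (z (σ u) (σ v) = true) := fun u v => by rw [h]
  exact mk_equi hyz (Rd_equi hyz) (Cd_equi hyz)

/-! ### measurability -/

section meas

variable {Y : Type} [MeasurableSpace Y] {r : ℕ → ℕ → Y → Prop}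

theorem bp_PPd (h : ∀ u v, BP (r u v)) (u : ℕ) : BP (fun y => PPd (fun u v => r u v y) u) :=
  BP.ex fun b => BP.ex fun b' => (h b b').and <| (h u b).not.and <| (h b u).not.and <|
    (h u b').not.and (h b' u).not

theorem bp_Rd (h : ∀ u v, BP (r u v)) (u : ℕ) : BP (fun y => Rd (fun u v => r u v y) u) :=
  (bp_PPd h u).not.and (BP.ex fun p => (bp_PPd h p).and (h u p))

theorem bp_Cd (h : ∀ u v, BP (r u v)) (u : ℕ) : BP (fun y => Cd (fun u v => r u v y) u) :=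
  (bp_PPd h u).not.and (BP.ex fun p => (bp_PPd h p).and (h p u))

theorem mg_mk {R C : ℕ → Y → Prop} (h : ∀ u v, BP (r u v)) (hR : ∀ u, BP (R u))
    (hC : ∀ u, BP (C u)) : MG (fun y => mk (fun u => R u y) (fun u => C u y)
      (fun u v => r u v y)) where
  R := hR
  C := hC
  lt := h
  iR p c := (h c p).not.and (BP.all fun r' => (hR r').imp ((h r' c).imp (h r' p)))
  iC p c := (h p c).not.and (BP.all fun r' => (hC r').imp ((h c r').imp (h p r')))

theorem bp_rep {D : Y → Grid ℕ} (hD : MG D) (h : ∀ u v, BP (r u v)) :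
    BP (fun y => Rep (D y) (fun u v => r u v y)) := by
  have : BP (fun y =>
      (∀ u v, (D y).R u → (D y).R v → (r u v y ↔ (D y).lt u v)) ∧
      (∀ u v, (D y).C u → (D y).C v → (r u v y ↔ (D y).lt u v)) ∧
      (∀ u v, (D y).R u → (D y).C v → r u v y) ∧
      (∀ u v, (D y).C u → (D y).R v → ¬ r u v y) ∧
      (∀ u v w, (D y).R u → (D y).P v → (D y).R w → (D y).iR v w → (r u v y ↔ (D y).lt u w)) ∧
      (∀ u v, (D y).P u → (D y).R v → ¬ r u v y) ∧
      (∀ u v w, (D y).P u → (D y).C v → (D y).C w → (D y).iC u w → (r u v y ↔ (D y).lt w v)) ∧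
      (∀ u v, (D y).C u → (D y).P v → ¬ r u v y)) :=
    (BP.all fun u => BP.all fun v => (hD.R u).imp <| (hD.R v).imp <| (h u v).iff (hD.lt u v)).and <|
    (BP.all fun u => BP.all fun v => (hD.C u).imp <| (hD.C v).imp <| (h u v).iff (hD.lt u v)).and <|
    (BP.all fun u => BP.all fun v => (hD.R u).imp <| (hD.C v).imp (h u v)).and <|
    (BP.all fun u => BP.all fun v => (hD.C u).imp <| (hD.R v).imp (h u v).not).and <|
    (BP.all fun u => BP.all fun v => BP.all fun w => (hD.R u).imp <| (hD.P v).imp <|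
      (hD.R w).imp <| (hD.iR v w).imp <| (h u v).iff (hD.lt u w)).and <|
    (BP.all fun u => BP.all fun v => (hD.P u).imp <| (hD.R v).imp (h u v).not).and <|
    (BP.all fun u => BP.all fun v => BP.all fun w => (hD.P u).imp <| (hD.C v).imp <|
      (hD.C w).imp <| (hD.iC u w).imp <| (h u v).iff (hD.lt w v)).and
    (BP.all fun u => BP.all fun v => (hD.C u).imp <| (hD.P v).imp (h u v).not)
  exact this.congr fun y => ⟨fun ⟨h1, h2, h3, h4, h5, h6, h7, h8⟩ =>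
    ⟨h1, h2, h3, h4, h5, h6, h7, h8⟩, fun ⟨h1, h2, h3, h4, h5, h6, h7, h8⟩ =>
    ⟨h1, h2, h3, h4, h5, h6, h7, h8⟩⟩

theorem bp_pp0 {D : Y → Grid ℕ} (hD : MG D) (h : ∀ u v, BP (r u v)) :
    BP (fun y => PP0 (D y) (fun u v => r u v y)) :=
  BP.all fun u => BP.all fun v => (hD.P u).imp <| (hD.P v).imp (h u v).not

end meas

theorem bp_atom (u v : ℕ) : BP (fun y : BinStr => y u v = true) := by
  have hm : Measurable (fun y : BinStr => y u v) :=
    (measurable_pi_apply v).comp (measurable_pi_apply u)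
  exact hm (measurableSet_singleton true)

theorem mg_DI : MG DI := mg_mk bp_atom (bp_Rd bp_atom) (bp_Cd bp_atom)

/-! ### the class -/

/-- the order of rows and columns -/
def before (γ : Grid ℕ) (u v : ℕ) : Prop :=
  (γ.R u ∧ γ.R v ∧ γ.lt u v) ∨ (γ.C u ∧ γ.C v ∧ γ.lt u v) ∨ (γ.R u ∧ γ.C v)

theorem before_trans {γ : Grid ℕ} (hb : Base γ) {u v w : ℕ} (h : before γ u v)
    (h' : before γ v w) : before γ u w := by
  rcases h with ⟨h1, h2, h3⟩ | ⟨h1, h2, h3⟩ | ⟨h1, h2⟩ <;>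
    rcases h' with ⟨k1, k2, k3⟩ | ⟨k1, k2, k3⟩ | ⟨k1, k2⟩
  · exact Or.inl ⟨h1, k2, hb.dR.trans _ _ _ h1 h2 k2 h3 k3⟩
  · exact absurd k1 (hb.disj _ h2)
  · exact Or.inr (Or.inr ⟨h1, k2⟩)
  · exact absurd h2 (hb.disj _ k1)
  · exact Or.inr (Or.inl ⟨h1, k2, hb.dC.trans _ _ _ h1 h2 k2 h3 k3⟩)
  · exact absurd h2 (hb.disj _ k1)
  · exact absurd h2 (hb.disj _ k1)
  · exact Or.inr (Or.inr ⟨h1, k2⟩)
  · exact Or.inr (Or.inr ⟨h1, k2⟩)

theorem before_irrefl {γ : Grid ℕ} (hb : Base γ) (u : ℕ) : ¬ before γ u u := by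
  rintro (⟨h1, -, h3⟩ | ⟨h1, -, h3⟩ | ⟨h1, h2⟩)
  · exact hb.dR.irrefl _ h1 h3
  · exact hb.dC.irrefl _ h1 h3
  · exact hb.disj _ h1 h2

theorem before_total {γ : Grid ℕ} (hb : Base γ) {u v : ℕ} (hu : γ.R u ∨ γ.C u)
    (hv : γ.R v ∨ γ.C v) (hne : u ≠ v) : before γ u v ∨ before γ v u := by
  rcases hu with hu | hu <;> rcases hv with hv | hv
  · rcases hb.dR.total u v hu hv hne with h | h
    · exact Or.inl (Or.inl ⟨hu, hv, h⟩)
    · exact Or.inr (Or.inl ⟨hv, hu, h⟩)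
  · exact Or.inl (Or.inr (Or.inr ⟨hu, hv⟩))
  · exact Or.inr (Or.inr (Or.inr ⟨hv, hu⟩))
  · rcases hb.dC.total u v hu hv hne with h | h
    · exact Or.inl (Or.inr (Or.inl ⟨hu, hv, h⟩))
    · exact Or.inr (Or.inr (Or.inl ⟨hv, hu, h⟩))

/-- the row and the column of a point; a row and a column are their own -/
theorem exists_ends {γ : Grid ℕ} (hb : Base γ) : ∃ l r : ℕ → ℕ,
    (∀ u, γ.R u → l u = u ∧ r u = u) ∧ (∀ u, γ.C u → l u = u ∧ r u = u) ∧
    (∀ u, γ.P u → (γ.R (l u) ∧ γ.iR u (l u)) ∧ (γ.C (r u) ∧ γ.iC u (r u))) := by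
  classical
  have h : ∀ u, ∃ lr : ℕ × ℕ, (γ.R u → lr.1 = u ∧ lr.2 = u) ∧ (γ.C u → lr.1 = u ∧ lr.2 = u) ∧
      (γ.P u → (γ.R lr.1 ∧ γ.iR u lr.1) ∧ (γ.C lr.2 ∧ γ.iC u lr.2)) := by
    intro u
    rcases cases3 γ u with hu | hu | hu
    · exact ⟨(u, u), fun _ => ⟨rfl, rfl⟩, fun _ => ⟨rfl, rfl⟩, fun h => absurd hu h.1⟩
    · exact ⟨(u, u), fun _ => ⟨rfl, rfl⟩, fun _ => ⟨rfl, rfl⟩, fun h => absurd hu h.2⟩
    · obtain ⟨r, h1, h2, -⟩ := hb.rR u hu
      obtain ⟨c, h3, h4, -⟩ := hb.rC u hu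
      exact ⟨(r, c), fun h => absurd h hu.1, fun h => absurd h hu.2,
        fun _ => ⟨⟨h1, h2⟩, ⟨h3, h4⟩⟩⟩
  choose lr h1 h2 h3 using h
  exact ⟨fun u => (lr u).1, fun u => (lr u).2, h1, h2, h3⟩

theorem io_cls {γ : Grid ℕ} (hb : Base γ) {y : BinStr} (hy : Rep γ (fun u v => y u v = true))
    (hp : PP0 γ (fun u v => y u v = true)) : IntervalOrder y := by
  obtain ⟨l, r, h1, h2, h3⟩ := exists_ends hb
  have key : ∀ u v, y u v = true ↔ before γ (r u) (l v) := by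
    intro u v
    rcases cases3 γ u with hu | hu | hu <;> rcases cases3 γ v with hv | hv | hv
    · rw [(h1 u hu).2, (h1 v hv).1, hy.rr u v hu hv]
      have := hb.disj u hu
      have := hb.disj v hv
      simp [before, *]
    · rw [(h1 u hu).2, (h2 v hv).1]
      exact iff_of_true (hy.rc u v hu hv) (Or.inr (Or.inr ⟨hu, hv⟩))
    · obtain ⟨⟨k1, k2⟩, -⟩ := h3 v hv
      rw [(h1 u hu).2, hy.rp u v _ hu hv k1 k2]
      have := hb.disj u hu
      have := hb.disj _ k1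
      simp [before, *]
    · rw [(h2 u hu).2, (h1 v hv).1]
      refine iff_of_false (hy.cr u v hu hv) ?_
      rintro (⟨k, -, -⟩ | ⟨-, k, -⟩ | ⟨k, -⟩)
      · exact hb.disj _ k hu
      · exact hb.disj _ hv k
      · exact hb.disj _ k hu
    · rw [(h2 u hu).2, (h2 v hv).1, hy.cc u v hu hv]
      have e1 : ¬ γ.R u := fun h => hb.disj u h hu
      have e2 : ¬ γ.R v := fun h => hb.disj v h hv
      simp [before, *]
    · obtain ⟨⟨k1, k2⟩, -⟩ := h3 v hv
      rw [(h2 u hu).2]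
      refine iff_of_false (hy.cp u v hu hv) ?_
      rintro (⟨k, -, -⟩ | ⟨-, k, -⟩ | ⟨k, -⟩)
      · exact hb.disj _ k hu
      · exact hb.disj _ k1 k
      · exact hb.disj _ k hu
    · obtain ⟨-, ⟨k1, k2⟩⟩ := h3 u hu
      rw [(h1 v hv).1]
      refine iff_of_false (hy.pr u v hu hv) ?_
      rintro (⟨k, -, -⟩ | ⟨-, k, -⟩ | ⟨k, -⟩)
      · exact hb.disj _ k k1
      · exact hb.disj _ hv k
      · exact hb.disj _ k k1
    · obtain ⟨-, ⟨k1, k2⟩⟩ := h3 u hu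
      rw [(h2 v hv).1, hy.pc u v _ hu hv k1 k2]
      have e1 : ¬ γ.R v := fun h => hb.disj v h hv
      have e2 : ¬ γ.R (r u) := fun h => hb.disj _ h k1
      simp [before, *]
    · obtain ⟨-, ⟨k1, k2⟩⟩ := h3 u hu
      obtain ⟨⟨k3, k4⟩, -⟩ := h3 v hv
      refine iff_of_false (hp u v hu hv) ?_
      rintro (⟨k, -, -⟩ | ⟨-, k, -⟩ | ⟨k, -⟩)
      · exact hb.disj _ k k1
      · exact hb.disj _ k3 k
      · exact hb.disj _ k k1
  have xr : ∀ u, γ.R (r u) ∨ γ.C (r u) := by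
    intro u
    rcases cases3 γ u with hu | hu | hu
    · rw [(h1 u hu).2]; exact Or.inl hu
    · rw [(h2 u hu).2]; exact Or.inr hu
    · exact Or.inr (h3 u hu).2.1
  have xl : ∀ u, γ.R (l u) ∨ γ.C (l u) := by
    intro u
    rcases cases3 γ u with hu | hu | hu
    · rw [(h1 u hu).1]; exact Or.inl hu
    · rw [(h2 u hu).1]; exact Or.inr hu
    · exact Or.inl (h3 u hu).1.1
  refine ⟨?_, ?_⟩
  · intro m
    rw [Bool.eq_false_iff, ne_eq, key]
    rcases cases3 γ m with hu | hu | hu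
    · rw [(h1 m hu).1, (h1 m hu).2]
      exact before_irrefl hb m
    · rw [(h2 m hu).1, (h2 m hu).2]
      exact before_irrefl hb m
    · obtain ⟨⟨k1, -⟩, ⟨k2, -⟩⟩ := h3 m hu
      rintro (⟨k, -, -⟩ | ⟨-, k, -⟩ | ⟨k, -⟩)
      · exact hb.disj _ k k2
      · exact hb.disj _ k1 k
      · exact hb.disj _ k k2
  · intro a b c d hab hcd
    rw [key] at hab hcd ⊢
    rw [key]
    by_cases he : r a = l d
    · right
      rw [← he] at hcd
      exact before_trans hb hcd hab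
    · rcases before_total hb (xr a) (xl d) he with h | h
      · exact Or.inl h
      · exact Or.inr (before_trans hb hcd (before_trans hb h hab))

/-- grids can be described in interval orders -/
theorem target_IO : Target BIso IntervalOrder DI WI where
  symm _ _ h := h.symm
  mg := mg_DI
  mW := (bp_rep mg_DI bp_atom).and (bp_pp0 mg_DI bp_atom)
  inv := by
    rintro y z ⟨σ, h⟩ ⟨h1, h2⟩
    have hyz : ∀ u v, (y u v = true) ↔ (z (σ u) (σ v) = true) := fun u v => by rw [h]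
    exact ⟨h1.map (DI_equi h) hyz, h2.map (DI_equi h) hyz⟩
  iso := by
    rintro y z ⟨σ, h⟩
    exact ⟨σ, DI_equi h⟩
  iso' := by
    rintro y z ⟨h1, h2⟩ ⟨h3, h4⟩ hb hb' ⟨σ, h⟩
    refine ⟨σ, fun m n => ?_⟩
    rw [Bool.eq_iff_iff]
    exact (Rep.iso hb h h1 h3 (fun u v hu hv => iff_of_false (h2 u v hu hv)
      (h4 _ _ ((h.P u).1 hu) ((h.P v).1 hv))) m n).symm
  ex := by
    classical
    intro γ hb hr0 hc0 hf _
    let y : BinStr := fun u v => decide (tr γ (fun _ _ => False) u v)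
    have hy : (fun u v => y u v = true) = tr γ (fun _ _ => False) := by
      funext u v
      simp [y]
    have h1 : Rep γ (fun u v => y u v = true) := by rw [hy]; exact tr_rep hb _
    have h2 : PP0 γ (fun u v => y u v = true) := by
      rw [hy]
      intro u v hu hv h
      exact (tr_pp _ hu hv).1 h
    obtain ⟨h3, h4⟩ := io_dec hb hr0 hc0 hf h1 h2
    have h5 : GIso (Equiv.refl ℕ) γ (DI y) := mk_iso hb h1 h3 h4
    exact ⟨y, ⟨h1.map h5 (fun _ _ => Iff.rfl), h2.map h5 (fun _ _ => Iff.rfl)⟩, h5⟩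
  cls y hW hb := io_cls hb hW.1 hW.2

end Pool.Agent.W889.VC
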