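import Pool.Agent.W889.VC.PL

set_option autoImplicit false

/-! Graphs given by the incidences between markers (rows and columns) and points. -/

namespace Pool.Agent.W889.VC

open Grid

/-- The graph `z` represents the grid: markers are pairwise nonadjacent, points are pairwise
adjacent if `s` and pairwise nonadjacent otherwise. -/
structure JRep (s : Prop) (γ : Grid ℕ) (z : ℕ → ℕ → Prop) : Prop where
  symm : ∀ u v, z u v → z v u
  rp : ∀ u p r, γ.R u → γ.P p → γ.R r → γ.iR p r → (z u p ↔ (r = u ∨ γ.lt r u))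
  cp : ∀ u p c, γ.C u → γ.P p → γ.C c → γ.iC p c → (z u p ↔ γ.lt u c)
  mm : ∀ u v, ¬ γ.P u → ¬ γ.P v → ¬ z u v
  pp : ∀ u v, γ.P u → γ.P v → (z u v ↔ (s ∧ u ≠ v))

/-- two vertices with incomparable neighbourhoods -/
def NN (z : ℕ → ℕ → Prop) (p q : ℕ) : Prop := (∃ w, z p w ∧ ¬ z q w) ∧ ∃ w, z q w ∧ ¬ z p w

/-- two vertices with a common neighbour -/
def Sd (z : ℕ → ℕ → Prop) (p q : ℕ) : Prop := ∃ w, z p w ∧ z q w

/-- a point -/
def PJ (s : Prop) (z : ℕ → ℕ → Prop) (u : ℕ) : Prop :=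
  (s ∧ ∃ v w, z u v ∧ z u w ∧ v ≠ w ∧ ¬ z v w) ∨
  (¬ s ∧ ∃ a b c, Sd z u a ∧ Sd z u b ∧ Sd z u c ∧ NN z a b ∧ NN z b c ∧ NN z a c)

/-- a column -/
def CJ (s : Prop) (z : ℕ → ℕ → Prop) (u : ℕ) : Prop :=
  ∀ p, PJ s z p → z u p → ∃ u', ¬ PJ s z u' ∧ z u' p ∧ (∀ q, PJ s z q → z u' q → z u q) ∧
    ∃ q, PJ s z q ∧ z u q ∧ ¬ z u' q

/-- the order of the rows and of the columns -/
def lJ (s : Prop) (z : ℕ → ℕ → Prop) (u v : ℕ) : Prop :=
  (¬ CJ s z u ∧ ∃ q, PJ s z q ∧ z v q ∧ ¬ z u q) ∨ (CJ s z u ∧ ∃ q, PJ s z q ∧ z u q ∧ ¬ z v q)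

/-- decoding -/
def mkJ (s : Prop) (z : ℕ → ℕ → Prop) : Grid ℕ where
  R := fun u => ¬ PJ s z u ∧ ¬ CJ s z u
  C := fun u => ¬ PJ s z u ∧ CJ s z u
  lt := lJ s z
  iR := fun p r => z r p ∧ ∀ r', (¬ PJ s z r' ∧ ¬ CJ s z r') → lJ s z r' r → ¬ z r' p
  iC := fun p c => ¬ z c p ∧ ∀ c', (¬ PJ s z c' ∧ CJ s z c') → lJ s z c' c → z c' p

theorem cases3' (γ : Grid ℕ) (u : ℕ) (h : ¬ γ.P u) : γ.R u ∨ γ.C u := by
  rcases cases3 γ u with h' | h' | h'
  · exact Or.inl h'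
  · exact Or.inr h'
  · exact absurd h' h

section dec

variable {s : Prop} {γ : Grid ℕ} {z : ℕ → ℕ → Prop}

theorem jrep_P (hb : Base γ) (hr0 : ∃ r, γ.R r) (hc0 : ∃ c, γ.C c)
    (hf : ∀ r c, γ.R r → γ.C c → ∃ p, γ.Fib r c p) (hz : JRep s γ z) (u : ℕ) :
    γ.P u ↔ PJ s z u := by
  have nR : ∀ {u}, γ.R u → ¬ γ.P u := fun h h' => h'.1 h
  have nC : ∀ {u}, γ.C u → ¬ γ.P u := fun h h' => h'.2 h
  -- neighbourhoods of the rows are nested
  have nest : ∀ u v, γ.R u → γ.R v → γ.lt u v → ∀ w, z u w → z v w := by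
    intro u v hu hv huv w hw
    by_cases hp : γ.P w
    · obtain ⟨r, h1, h2, -⟩ := hb.rR w hp
      rw [hz.rp v w r hv hp h1 h2]
      rw [hz.rp u w r hu hp h1 h2] at hw
      right
      rcases hw with rfl | hw
      · exact huv
      · exact hb.dR.trans _ _ _ h1 hu hv hw huv
    · exact absurd hw (hz.mm u w (nR hu) hp)
  have nest' : ∀ u v, γ.C u → γ.C v → γ.lt u v → ∀ w, z v w → z u w := by
    intro u v hu hv huv w hw
    by_cases hp : γ.P w
    · obtain ⟨c, h1, h2, -⟩ := hb.rC w hp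
      rw [hz.cp u w c hu hp h1 h2]
      rw [hz.cp v w c hv hp h1 h2] at hw
      exact hb.dC.trans _ _ _ hu hv h1 huv hw
    · exact absurd hw (hz.mm v w (nC hv) hp)
  have nnR : ∀ u v, γ.R u → γ.R v → ¬ NN z u v := by
    rintro u v hu hv ⟨⟨w, h1, h2⟩, ⟨w', h3, h4⟩⟩
    by_cases hne : u = v
    · subst hne
      exact h2 h1
    · rcases hb.dR.total u v hu hv hne with h | h
      · exact h2 (nest u v hu hv h w h1)
      · exact h4 (nest v u hv hu h w' h3)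
  have nnC : ∀ u v, γ.C u → γ.C v → ¬ NN z u v := by
    rintro u v hu hv ⟨⟨w, h1, h2⟩, ⟨w', h3, h4⟩⟩
    by_cases hne : u = v
    · subst hne
      exact h2 h1
    · rcases hb.dC.total u v hu hv hne with h | h
      · exact h4 (nest' u v hu hv h w' h3)
      · exact h2 (nest' v u hv hu h w h1)
  -- `z r p` for `r` at least the row of `p`
  have adj : ∀ p r, γ.P p → γ.R r → γ.iR p r → z p r := fun p r hp hr hi =>
    hz.symm _ _ ((hz.rp r p r hr hp hr hi).2 (Or.inl rfl))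
  have adj' : ∀ p r r', γ.P p → γ.R r → γ.iR p r → γ.R r' → γ.lt r r' → z p r' :=
    fun p r r' hp hr hi hr' hlt => hz.symm _ _ ((hz.rp r' p r hr' hp hr hi).2 (Or.inr hlt))
  constructor
  · intro hu
    obtain ⟨r, h1, h2, -⟩ := hb.rR u hu
    obtain ⟨r', h3, h4⟩ := hb.dR.above r h1
    have hne : r ≠ r' := fun h => hb.dR.irrefl r h1 (by rw [← h] at h4; exact h4)
    by_cases hs : s
    · left
      exact ⟨hs, r, r', adj u r hu h1 h2, adj' u r r' hu h1 h2 h3 h4, hne,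
        hz.mm r r' (nR h1) (nR h3)⟩
    · right
      refine ⟨hs, ?_⟩
      obtain ⟨r1, k1⟩ := hr0
      obtain ⟨c1, l1⟩ := hc0
      obtain ⟨r2, k2, k12⟩ := hb.dR.above r1 k1
      obtain ⟨r3, k3, k23⟩ := hb.dR.above r2 k2
      obtain ⟨c2, l2, l12⟩ := hb.dC.above c1 l1
      obtain ⟨c3, l3, l23⟩ := hb.dC.above c2 l2
      have k13 := hb.dR.trans _ _ _ k1 k2 k3 k12 k23
      have l13 := hb.dC.trans _ _ _ l1 l2 l3 l12 l23
      obtain ⟨p1, a1, b1, d1⟩ := hf r1 c1 k1 l1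
      obtain ⟨p2, a2, b2, d2⟩ := hf r2 c2 k2 l2
      obtain ⟨p3, a3, b3, d3⟩ := hf r3 c3 k3 l3
      have sd : ∀ p r', γ.P p → γ.R r' → γ.iR p r' → Sd z u p := by
        intro p r' hp hr' hi
        -- a row above both
        obtain ⟨w, e1, e2, e3⟩ : ∃ w, γ.R w ∧ γ.lt r w ∧ γ.lt r' w := by
          by_cases he : r = r'
          · subst he
            obtain ⟨w, e1, e2⟩ := hb.dR.above r h1
            exact ⟨w, e1, e2, e2⟩
          · rcases hb.dR.total r r' h1 hr' he with h | h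
            · obtain ⟨w, e1, e2⟩ := hb.dR.above r' hr'
              exact ⟨w, e1, hb.dR.trans _ _ _ h1 hr' e1 h e2, e2⟩
            · obtain ⟨w, e1, e2⟩ := hb.dR.above r h1
              exact ⟨w, e1, e2, hb.dR.trans _ _ _ hr' h1 e1 h e2⟩
        exact ⟨w, adj' u r w hu h1 h2 e1 e2, adj' p r' w hp hr' hi e1 e3⟩
      have nn : ∀ p q r c r' c', γ.P p → γ.P q → γ.R r → γ.C c → γ.R r' → γ.C c' → γ.iR p r →
          γ.iC p c → γ.iR q r' → γ.iC q c' → γ.lt r r' → γ.lt c c' → NN z p q := by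
        intro p q r c r' c' hp hq hr hc hr' hc' i1 i2 i3 i4 hlt hlt'
        refine ⟨⟨r, adj p r hp hr i1, fun h => ?_⟩, ⟨c, ?_, fun h => ?_⟩⟩
        · have := (hz.rp r q r' hr hq hr' i3).1 (hz.symm _ _ h)
          rcases this with rfl | h'
          · exact hb.dR.irrefl _ hr hlt
          · exact hb.dR.irrefl _ hr (hb.dR.trans _ _ _ hr hr' hr hlt h')
        · exact hz.symm _ _ ((hz.cp c q c' hc hq hc' i4).2 hlt')
        · exact hb.dC.irrefl _ hc ((hz.cp c p c hc hp hc i2).1 (hz.symm _ _ h))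
      exact ⟨p1, p2, p3, sd p1 r1 a1 k1 b1, sd p2 r2 a2 k2 b2, sd p3 r3 a3 k3 b3,
        nn p1 p2 r1 c1 r2 c2 a1 a2 k1 l1 k2 l2 b1 d1 b2 d2 k12 l12,
        nn p2 p3 r2 c2 r3 c3 a2 a3 k2 l2 k3 l3 b2 d2 b3 d3 k23 l23,
        nn p1 p3 r1 c1 r3 c3 a1 a3 k1 l1 k3 l3 b1 d1 b3 d3 k13 l13⟩
  · rintro (⟨hs, v, w, h1, h2, h3, h4⟩ | ⟨hs, a, b, c, h1, h2, h3, h4, h5, h6⟩)
    · by_contra hu
      have hv : γ.P v := by
        by_contra hv
        exact hz.mm u v hu hv h1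
      have hw : γ.P w := by
        by_contra hw
        exact hz.mm u w hu hw h2
      exact h4 ((hz.pp v w hv hw).2 ⟨hs, h3⟩)
    · by_contra hu
      have mk : ∀ a, Sd z u a → γ.R a ∨ γ.C a := by
        rintro a ⟨w, k1, k2⟩
        have hw : γ.P w := by
          by_contra hw
          exact hz.mm u w hu hw k1
        refine cases3' γ a (fun ha => ?_)
        exact hs ((hz.pp a w ha hw).1 k2).1
      rcases mk a h1 with ha | ha <;> rcases mk b h2 with hb' | hb' <;>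
        rcases mk c h3 with hc | hc
      · exact nnR a b ha hb' h4
      · exact nnR a b ha hb' h4
      · exact nnR a c ha hc h6
      · exact nnC b c hb' hc h5
      · exact nnR b c hb' hc h5
      · exact nnC a c ha hc h6
      · exact nnC a b ha hb' h4
      · exact nnC a b ha hb' h4

theorem jrep_C (hb : Base γ) (hr0 : ∃ r, γ.R r) (hc0 : ∃ c, γ.C c)
    (hf : ∀ r c, γ.R r → γ.C c → ∃ p, γ.Fib r c p) (hz : JRep s γ z) :
    (∀ u, γ.C u → CJ s z u) ∧ ∀ u, γ.R u → ¬ CJ s z u := by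
  have hP := jrep_P hb hr0 hc0 hf hz
  obtain ⟨r0, hr0⟩ := hr0
  obtain ⟨c0, hc0⟩ := hc0
  have nR : ∀ {u}, γ.R u → ¬ γ.P u := fun h h' => h'.1 h
  have nC : ∀ {u}, γ.C u → ¬ γ.P u := fun h h' => h'.2 h
  constructor
  · intro u hu p hp hup
    have hp' := (hP p).2 hp
    obtain ⟨c, h1, h2, -⟩ := hb.rC p hp'
    have h3 := (hz.cp u p c hu hp' h1 h2).1 hup
    obtain ⟨c', h4, h5, h6⟩ := hb.dC.dense u c hu h1 h3
    obtain ⟨q, k1, k2, k3⟩ := hf r0 c' hr0 h4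
    refine ⟨c', fun h => nC h4 ((hP c').2 h), (hz.cp c' p c h4 hp' h1 h2).2 h6, ?_,
      q, (hP q).1 k1, (hz.cp u q c' hu k1 h4 k3).2 h5, fun h => ?_⟩
    · intro q hq h7
      have hq' := (hP q).2 hq
      obtain ⟨d, k1, k2, -⟩ := hb.rC q hq'
      rw [hz.cp u q d hu hq' k1 k2]
      rw [hz.cp c' q d h4 hq' k1 k2] at h7
      exact hb.dC.trans _ _ _ hu h4 k1 h5 h7
    · exact hb.dC.irrefl _ h4 ((hz.cp c' q c' h4 k1 h4 k3).1 h)
  · intro u hu h
    obtain ⟨p, h1, h2, h3⟩ := hf u c0 hu hc0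
    obtain ⟨u', k1, k2, k3, q, k4, k5, k6⟩ :=
      h p ((hP p).1 h1) ((hz.rp u p u hu h1 hu h2).2 (Or.inl rfl))
    rcases cases3' γ u' (fun h => k1 ((hP u').1 h)) with h' | h'
    · rcases (hz.rp u' p u h' h1 hu h2).1 k2 with h4 | h4
      · subst h4
        exact k6 k5
      · obtain ⟨q', l1, l2, l3⟩ := hf u' c0 h' hc0
        have l4 := k3 q' ((hP q').1 l1) ((hz.rp u' q' u' h' l1 h' l2).2 (Or.inl rfl))
        rcases (hz.rp u q' u' hu l1 h' l2).1 l4 with l5 | l5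
        · subst l5
          exact hb.dR.irrefl _ hu h4
        · exact hb.dR.irrefl _ hu (hb.dR.trans _ _ _ hu h' hu h4 l5)
    · obtain ⟨r1, m1, m2⟩ := hb.dR.above u hu
      obtain ⟨c1, m3, m4⟩ := hb.dC.above u' h'
      obtain ⟨q', l1, l2, l3⟩ := hf r1 c1 m1 m3
      have l4 := k3 q' ((hP q').1 l1) ((hz.cp u' q' c1 h' l1 m3 l3).2 m4)
      rcases (hz.rp u q' r1 hu l1 m1 l2).1 l4 with l5 | l5
      · subst l5
        exact hb.dR.irrefl _ hu m2
      · exact hb.dR.irrefl _ hu (hb.dR.trans _ _ _ hu m1 hu m2 l5)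

theorem mkJ_iso (hb : Base γ) (hr0 : ∃ r, γ.R r) (hc0 : ∃ c, γ.C c)
    (hf : ∀ r c, γ.R r → γ.C c → ∃ p, γ.Fib r c p) (hz : JRep s γ z) :
    GIso (Equiv.refl ℕ) γ (mkJ s z) := by
  have hP := jrep_P hb hr0 hc0 hf hz
  obtain ⟨hC, hR⟩ := jrep_C hb hr0 hc0 hf hz
  obtain ⟨r0, hr0⟩ := hr0
  obtain ⟨c0, hc0⟩ := hc0
  have nR : ∀ {u}, γ.R u → ¬ γ.P u := fun h h' => h'.1 h
  have nC : ∀ {u}, γ.C u → ¬ γ.P u := fun h h' => h'.2 h
  have eR : ∀ u, γ.R u ↔ (¬ PJ s z u ∧ ¬ CJ s z u) := by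
    intro u
    refine ⟨fun h => ⟨fun h' => nR h ((hP u).2 h'), hR u h⟩, fun ⟨h1, h2⟩ => ?_⟩
    rcases cases3' γ u (fun h => h1 ((hP u).1 h)) with h | h
    · exact h
    · exact absurd (hC u h) h2
  have eC : ∀ u, γ.C u ↔ (¬ PJ s z u ∧ CJ s z u) := by
    intro u
    refine ⟨fun h => ⟨fun h' => nC h ((hP u).2 h'), hC u h⟩, fun ⟨h1, h2⟩ => ?_⟩
    rcases cases3' γ u (fun h => h1 ((hP u).1 h)) with h | h
    · exact absurd h2 (hR u h)
    · exact h
  have lR : ∀ u v, γ.R u → γ.R v → (γ.lt u v ↔ lJ s z u v) := by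
    intro u v hu hv
    constructor
    · intro h
      obtain ⟨q, k1, k2, k3⟩ := hf v c0 hv hc0
      refine Or.inl ⟨hR u hu, q, (hP q).1 k1, (hz.rp v q v hv k1 hv k2).2 (Or.inl rfl),
        fun h' => ?_⟩
      rcases (hz.rp u q v hu k1 hv k2).1 h' with h'' | h''
      · subst h''
        exact hb.dR.irrefl _ hu h
      · exact hb.dR.irrefl _ hu (hb.dR.trans _ _ _ hu hv hu h h'')
    · rintro (⟨-, q, k1, k2, k3⟩ | ⟨k0, -⟩)
      · have k1' := (hP q).2 k1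
        obtain ⟨r, h1, h2, -⟩ := hb.rR q k1'
        rw [hz.rp v q r hv k1' h1 h2] at k2
        rw [hz.rp u q r hu k1' h1 h2] at k3
        by_cases hne : u = v
        · subst hne
          exact absurd k2 k3
        · rcases hb.dR.total u v hu hv hne with h | h
          · exact h
          · exfalso
            apply k3
            right
            rcases k2 with rfl | k2
            · exact h
            · exact hb.dR.trans _ _ _ h1 hv hu k2 h
      · exact absurd k0 (hR u hu)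
  have lC : ∀ u v, γ.C u → γ.C v → (γ.lt u v ↔ lJ s z u v) := by
    intro u v hu hv
    constructor
    · intro h
      obtain ⟨q, k1, k2, k3⟩ := hf r0 v hr0 hv
      refine Or.inr ⟨hC u hu, q, (hP q).1 k1, (hz.cp u q v hu k1 hv k3).2 h, fun h' => ?_⟩
      exact hb.dC.irrefl _ hv ((hz.cp v q v hv k1 hv k3).1 h')
    · rintro (⟨k0, -⟩ | ⟨-, q, k1, k2, k3⟩)
      · exact absurd (hC u hu) k0
      · have k1' := (hP q).2 k1
        obtain ⟨r, h1, h2, -⟩ := hb.rC q k1'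
        rw [hz.cp u q r hu k1' h1 h2] at k2
        rw [hz.cp v q r hv k1' h1 h2] at k3
        by_cases hne : u = v
        · subst hne
          exact absurd k2 k3
        · rcases hb.dC.total u v hu hv hne with h | h
          · exact h
          · exact absurd (hb.dC.trans _ _ _ hv hu h1 h k2) k3
  refine ⟨eR, eC, lR, lC, ?_, ?_⟩
  · intro p r hp hr
    obtain ⟨r1, h1, h2, h3⟩ := hb.rR p hp
    show γ.iR p r ↔ (z r p ∧ ∀ r', (¬ PJ s z r' ∧ ¬ CJ s z r') → lJ s z r' r → ¬ z r' p)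
    constructor
    · intro h4
      have h5 := h3 r hr h4
      subst h5
      refine ⟨(hz.rp r p r hr hp hr h4).2 (Or.inl rfl), fun r' h6 h7 h8 => ?_⟩
      have h6' := (eR r').2 h6
      have h7' := (lR r' r h6' hr).2 h7
      rcases (hz.rp r' p r h6' hp hr h4).1 h8 with h9 | h9
      · subst h9
        exact hb.dR.irrefl _ hr h7'
      · exact hb.dR.irrefl _ hr (hb.dR.trans _ _ _ hr h6' hr h9 h7')
    · rintro ⟨h4, h5⟩
      rcases (hz.rp r p r1 hr hp h1 h2).1 h4 with h6 | h6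
      · subst h6
        exact h2
      · exact absurd ((hz.rp r1 p r1 h1 hp h1 h2).2 (Or.inl rfl))
          (h5 r1 ((eR r1).1 h1) ((lR r1 r h1 hr).1 h6))
  · intro p c hp hc
    obtain ⟨c1, h1, h2, h3⟩ := hb.rC p hp
    show γ.iC p c ↔ (¬ z c p ∧ ∀ c', (¬ PJ s z c' ∧ CJ s z c') → lJ s z c' c → z c' p)
    constructor
    · intro h4
      have h5 := h3 c hc h4
      subst h5
      refine ⟨fun h => hb.dC.irrefl _ hc ((hz.cp c p c hc hp hc h4).1 h), fun c' h6 h7 => ?_⟩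
      have h6' := (eC c').2 h6
      exact (hz.cp c' p c h6' hp hc h4).2 ((lC c' c h6' hc).2 h7)
    · rintro ⟨h4, h5⟩
      rw [hz.cp c p c1 hc hp h1 h2] at h4
      by_cases hne : c = c1
      · subst hne
        exact h2
      · rcases hb.dC.total c c1 hc h1 hne with h6 | h6
        · exact absurd h6 h4
        · have h7 := h5 c1 ((eC c1).1 h1) ((lC c1 c h1 hc).1 h6)
          exact absurd ((hz.cp c1 p c1 h1 hp h1 h2).1 h7) (hb.dC.irrefl _ h1)

end dec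

end Pool.Agent.W889.VC
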