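import Pool.Agent.W889.VC.Inc

set_option autoImplicit false

/-! Targets among graphs: split interval graphs and bipartite graphs. -/

namespace Pool.Agent.W889.VC

open Grid

section equi

variable {σ : Equiv.Perm ℕ} {y z : ℕ → ℕ → Prop} {s : Prop}

theorem NN_equi (h : ∀ u v, y u v ↔ z (σ u) (σ v)) (p q : ℕ) : NN y p q ↔ NN z (σ p) (σ q) :=
  and_congr (σ.exists_congr fun w => and_congr (h _ _) (not_congr (h _ _)))
    (σ.exists_congr fun w => and_congr (h _ _) (not_congr (h _ _)))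

theorem Sd_equi (h : ∀ u v, y u v ↔ z (σ u) (σ v)) (p q : ℕ) : Sd y p q ↔ Sd z (σ p) (σ q) :=
  σ.exists_congr fun w => and_congr (h _ _) (h _ _)

theorem PJ_equi (h : ∀ u v, y u v ↔ z (σ u) (σ v)) (u : ℕ) : PJ s y u ↔ PJ s z (σ u) :=
  or_congr
    (and_congr Iff.rfl (σ.exists_congr fun v => σ.exists_congr fun w =>
      and_congr (h _ _) (and_congr (h _ _) (and_congr (not_congr σ.injective.eq_iff.symm)
        (not_congr (h _ _))))))
    (and_congr Iff.rfl (σ.exists_congr fun a => σ.exists_congr fun b => σ.exists_congr fun c =>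
      and_congr (Sd_equi h _ _) (and_congr (Sd_equi h _ _) (and_congr (Sd_equi h _ _)
        (and_congr (NN_equi h _ _) (and_congr (NN_equi h _ _) (NN_equi h _ _)))))))

theorem CJ_equi (h : ∀ u v, y u v ↔ z (σ u) (σ v)) (u : ℕ) : CJ s y u ↔ CJ s z (σ u) :=
  σ.forall_congr fun p => imp_congr (PJ_equi h _) (imp_congr (h _ _) (σ.exists_congr fun u' =>
    and_congr (not_congr (PJ_equi h _)) (and_congr (h _ _) (and_congr
      (σ.forall_congr fun q => imp_congr (PJ_equi h _) (imp_congr (h _ _) (h _ _)))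
      (σ.exists_congr fun q => and_congr (PJ_equi h _) (and_congr (h _ _)
        (not_congr (h _ _))))))))

theorem lJ_equi (h : ∀ u v, y u v ↔ z (σ u) (σ v)) (u v : ℕ) :
    lJ s y u v ↔ lJ s z (σ u) (σ v) :=
  or_congr
    (and_congr (not_congr (CJ_equi h _)) (σ.exists_congr fun q =>
      and_congr (PJ_equi h _) (and_congr (h _ _) (not_congr (h _ _)))))
    (and_congr (CJ_equi h _) (σ.exists_congr fun q =>
      and_congr (PJ_equi h _) (and_congr (h _ _) (not_congr (h _ _)))))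

theorem mkJ_equi (h : ∀ u v, y u v ↔ z (σ u) (σ v)) : GIso σ (mkJ s y) (mkJ s z) where
  R u := and_congr (not_congr (PJ_equi h u)) (not_congr (CJ_equi h u))
  C u := and_congr (not_congr (PJ_equi h u)) (CJ_equi h u)
  lR u v _ _ := lJ_equi h u v
  lC u v _ _ := lJ_equi h u v
  iR p r _ _ := and_congr (h _ _) (σ.forall_congr fun r' => imp_congr
    (and_congr (not_congr (PJ_equi h _)) (not_congr (CJ_equi h _)))
    (imp_congr (lJ_equi h _ _) (not_congr (h _ _))))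
  iC p c _ _ := and_congr (not_congr (h _ _)) (σ.forall_congr fun r' => imp_congr
    (and_congr (not_congr (PJ_equi h _)) (CJ_equi h _))
    (imp_congr (lJ_equi h _ _) (h _ _)))

end equi

section meas

variable {Y : Type} [MeasurableSpace Y] {r : ℕ → ℕ → Y → Prop} {s : Prop}

theorem bp_NN (h : ∀ u v, BP (r u v)) (p q : ℕ) : BP (fun y => NN (fun u v => r u v y) p q) :=
  (BP.ex fun w => (h p w).and (h q w).not).and (BP.ex fun w => (h q w).and (h p w).not)

theorem bp_Sd (h : ∀ u v, BP (r u v)) (p q : ℕ) : BP (fun y => Sd (fun u v => r u v y) p q) :=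
  BP.ex fun w => (h p w).and (h q w)

theorem bp_PJ (h : ∀ u v, BP (r u v)) (u : ℕ) : BP (fun y => PJ s (fun u v => r u v y) u) :=
  ((BP.const s).and (BP.ex fun v => BP.ex fun w => (h u v).and <| (h u w).and <|
    (BP.const (v ≠ w)).and (h v w).not)).or
  ((BP.const s).not.and (BP.ex fun a => BP.ex fun b => BP.ex fun c => (bp_Sd h u a).and <|
    (bp_Sd h u b).and <| (bp_Sd h u c).and <| (bp_NN h a b).and <| (bp_NN h b c).and
    (bp_NN h a c)))

theorem bp_CJ (h : ∀ u v, BP (r u v)) (u : ℕ) : BP (fun y => CJ s (fun u v => r u v y) u) :=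
  BP.all fun p => (bp_PJ h p).imp <| (h u p).imp <| BP.ex fun u' => (bp_PJ h u').not.and <|
    (h u' p).and <| (BP.all fun q => (bp_PJ h q).imp ((h u' q).imp (h u q))).and <|
    BP.ex fun q => (bp_PJ h q).and ((h u q).and (h u' q).not)

theorem bp_lJ (h : ∀ u v, BP (r u v)) (u v : ℕ) :
    BP (fun y => lJ s (fun u v => r u v y) u v) :=
  ((bp_CJ h u).not.and (BP.ex fun q => (bp_PJ h q).and ((h v q).and (h u q).not))).or
  ((bp_CJ h u).and (BP.ex fun q => (bp_PJ h q).and ((h u q).and (h v q).not)))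

theorem mg_mkJ (h : ∀ u v, BP (r u v)) : MG (fun y => mkJ s (fun u v => r u v y)) where
  R u := (bp_PJ h u).not.and (bp_CJ h u).not
  C u := (bp_PJ h u).not.and (bp_CJ h u)
  lt u v := bp_lJ h u v
  iR p c := (h c p).and (BP.all fun r' => ((bp_PJ h r').not.and (bp_CJ h r').not).imp
    ((bp_lJ h r' c).imp (h r' p).not))
  iC p c := (h c p).not.and (BP.all fun r' => ((bp_PJ h r').not.and (bp_CJ h r')).imp
    ((bp_lJ h r' c).imp (h r' p)))

theorem bp_jrep {D : Y → Grid ℕ} (hD : MG D) (h : ∀ u v, BP (r u v)) :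
    BP (fun y => JRep s (D y) (fun u v => r u v y)) := by
  have : BP (fun y =>
      (∀ u v, r u v y → r v u y) ∧
      (∀ u p w, (D y).R u → (D y).P p → (D y).R w → (D y).iR p w →
        (r u p y ↔ (w = u ∨ (D y).lt w u))) ∧
      (∀ u p w, (D y).C u → (D y).P p → (D y).C w → (D y).iC p w →
        (r u p y ↔ (D y).lt u w)) ∧
      (∀ u v, ¬ (D y).P u → ¬ (D y).P v → ¬ r u v y) ∧
      (∀ u v, (D y).P u → (D y).P v → (r u v y ↔ (s ∧ u ≠ v)))) :=
    (BP.all fun u => BP.all fun v => (h u v).imp (h v u)).and <|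
    (BP.all fun u => BP.all fun p => BP.all fun w => (hD.R u).imp <| (hD.P p).imp <|
      (hD.R w).imp <| (hD.iR p w).imp <| (h u p).iff ((BP.const (w = u)).or (hD.lt w u))).and <|
    (BP.all fun u => BP.all fun p => BP.all fun w => (hD.C u).imp <| (hD.P p).imp <|
      (hD.C w).imp <| (hD.iC p w).imp <| (h u p).iff (hD.lt u w)).and <|
    (BP.all fun u => BP.all fun v => (hD.P u).not.imp <| (hD.P v).not.imp (h u v).not).and <|
    BP.all fun u => BP.all fun v => (hD.P u).imp <| (hD.P v).imp <| (h u v).iff (BP.const _)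
  exact this.congr fun y => ⟨fun ⟨h1, h2, h3, h4, h5⟩ => ⟨h1, h2, h3, h4, h5⟩,
    fun ⟨h1, h2, h3, h4, h5⟩ => ⟨h1, h2, h3, h4, h5⟩⟩

end meas

section transport

variable {γ δ : Grid ℕ} {σ : Equiv.Perm ℕ} {y z : ℕ → ℕ → Prop} {s : Prop}

theorem JRep.map (h : GIso σ γ δ) (hyz : ∀ u v, y u v ↔ z (σ u) (σ v)) (hy : JRep s γ y) :
    JRep s δ z := by
  have ex : ∀ v, ∃ u, σ u = v := fun v => ⟨σ.symm v, σ.apply_symm_apply v⟩
  refine ⟨?_, ?_, ?_, ?_, ?_⟩
  · intro u v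
    obtain ⟨u, rfl⟩ := ex u
    obtain ⟨v, rfl⟩ := ex v
    rw [← hyz, ← hyz]
    exact hy.symm u v
  · intro u p r hu hp hr hi
    obtain ⟨u, rfl⟩ := ex u
    obtain ⟨p, rfl⟩ := ex p
    obtain ⟨r, rfl⟩ := ex r
    have hu' := (h.R u).2 hu
    have hp' := (h.P p).2 hp
    have hr' := (h.R r).2 hr
    rw [← hyz, hy.rp u p r hu' hp' hr' ((h.iR p r hp' hr').2 hi), h.lR r u hr' hu',
      σ.injective.eq_iff]
  · intro u p r hu hp hr hi
    obtain ⟨u, rfl⟩ := ex u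
    obtain ⟨p, rfl⟩ := ex p
    obtain ⟨r, rfl⟩ := ex r
    have hu' := (h.C u).2 hu
    have hp' := (h.P p).2 hp
    have hr' := (h.C r).2 hr
    rw [← hyz, hy.cp u p r hu' hp' hr' ((h.iC p r hp' hr').2 hi), h.lC u r hu' hr']
  · intro u v hu hv
    obtain ⟨u, rfl⟩ := ex u
    obtain ⟨v, rfl⟩ := ex v
    rw [← hyz]
    exact hy.mm u v (fun h' => hu ((h.P u).1 h')) (fun h' => hv ((h.P v).1 h'))
  · intro u v hu hv
    obtain ⟨u, rfl⟩ := ex u
    obtain ⟨v, rfl⟩ := ex v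
    rw [← hyz, hy.pp u v ((h.P u).2 hu) ((h.P v).2 hv), ne_eq, ne_eq, σ.injective.eq_iff]

theorem JRep.iso (hb : Base γ) (h : GIso σ γ δ) (hy : JRep s γ y) (hz : JRep s δ z) (u v : ℕ) :
    y u v ↔ z (σ u) (σ v) := by
  have key : ∀ u v, ¬ γ.P u → γ.P v → (y u v ↔ z (σ u) (σ v)) := by
    intro u v hu hv
    rcases cases3' γ u hu with hu | hu
    · obtain ⟨r, h1, h2, -⟩ := hb.rR v hv
      rw [hy.rp u v r hu hv h1 h2, hz.rp _ _ (σ r) ((h.R u).1 hu) ((h.P v).1 hv) ((h.R r).1 h1)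
        ((h.iR v r hv h1).1 h2), h.lR r u h1 hu, σ.injective.eq_iff]
    · obtain ⟨r, h1, h2, -⟩ := hb.rC v hv
      rw [hy.cp u v r hu hv h1 h2, hz.cp _ _ (σ r) ((h.C u).1 hu) ((h.P v).1 hv) ((h.C r).1 h1)
        ((h.iC v r hv h1).1 h2), h.lC u r hu h1]
  have sy : ∀ u v, y u v ↔ y v u := fun u v => ⟨hy.symm u v, hy.symm v u⟩
  have sz : ∀ u v, z u v ↔ z v u := fun u v => ⟨hz.symm u v, hz.symm v u⟩
  by_cases hu : γ.P u <;> by_cases hv : γ.P v
  · rw [hy.pp u v hu hv, hz.pp _ _ ((h.P u).1 hu) ((h.P v).1 hv), ne_eq, ne_eq,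
      σ.injective.eq_iff]
  · rw [sy, sz]
    exact key v u hv hu
  · exact key u v hu hv
  · exact iff_of_false (hy.mm u v hu hv) (hz.mm _ _ (fun h' => hu ((h.P u).2 h'))
      (fun h' => hv ((h.P v).2 h')))

/-- the graph of a grid -/
def jr (s : Prop) (γ : Grid ℕ) (u v : ℕ) : Prop :=
  (γ.P u ∧ γ.P v ∧ s ∧ u ≠ v) ∨
  (γ.P v ∧ γ.R u ∧ ∃ r, γ.R r ∧ γ.iR v r ∧ (r = u ∨ γ.lt r u)) ∨
  (γ.P v ∧ γ.C u ∧ ∃ c, γ.C c ∧ γ.iC v c ∧ γ.lt u c) ∨
  (γ.P u ∧ γ.R v ∧ ∃ r, γ.R r ∧ γ.iR u r ∧ (r = v ∨ γ.lt r v)) ∨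
  (γ.P u ∧ γ.C v ∧ ∃ c, γ.C c ∧ γ.iC u c ∧ γ.lt v c)

theorem jr_rep (hb : Base γ) : JRep s γ (jr s γ) := by
  have nR : ∀ {u}, γ.R u → ¬ γ.P u := fun h h' => h'.1 h
  have nC : ∀ {u}, γ.C u → ¬ γ.P u := fun h h' => h'.2 h
  have nRC : ∀ {u}, γ.R u → ¬ γ.C u := fun h => hb.disj _ h
  have nCR : ∀ {u}, γ.C u → ¬ γ.R u := fun h h' => hb.disj _ h' h
  refine ⟨?_, ?_, ?_, ?_, ?_⟩
  · intro u v h
    rcases h with ⟨h1, h2, h3, h4⟩ | h | h | h | h
    · exact Or.inl ⟨h2, h1, h3, h4.symm⟩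
    · exact Or.inr (Or.inr (Or.inr (Or.inl h)))
    · exact Or.inr (Or.inr (Or.inr (Or.inr h)))
    · exact Or.inr (Or.inl h)
    · exact Or.inr (Or.inr (Or.inl h))
  · intro u p r hu hp hr hi
    obtain ⟨r0, -, -, h0⟩ := hb.rR p hp
    constructor
    · rintro (⟨h1, -⟩ | ⟨-, -, r', h1, h2, h3⟩ | ⟨-, h1, -⟩ | ⟨h1, -⟩ | ⟨h1, -⟩)
      · exact absurd h1 (nR hu)
      · rw [h0 r hr hi, ← h0 r' h1 h2]
        exact h3
      · exact absurd h1 (nRC hu)
      · exact absurd h1 (nR hu)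
      · exact absurd h1 (nR hu)
    · intro h
      exact Or.inr (Or.inl ⟨hp, hu, r, hr, hi, h⟩)
  · intro u p r hu hp hr hi
    obtain ⟨r0, -, -, h0⟩ := hb.rC p hp
    constructor
    · rintro (⟨h1, -⟩ | ⟨-, h1, -⟩ | ⟨-, -, r', h1, h2, h3⟩ | ⟨h1, -⟩ | ⟨h1, -⟩)
      · exact absurd h1 (nC hu)
      · exact absurd h1 (nCR hu)
      · rw [h0 r hr hi, ← h0 r' h1 h2]
        exact h3
      · exact absurd h1 (nC hu)
      · exact absurd h1 (nC hu)
    · intro h
      exact Or.inr (Or.inr (Or.inl ⟨hp, hu, r, hr, hi, h⟩))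
  · rintro u v hu hv (⟨h1, -⟩ | ⟨h1, -⟩ | ⟨h1, -⟩ | ⟨h1, -⟩ | ⟨h1, -⟩)
    · exact hu h1
    · exact hv h1
    · exact hv h1
    · exact hu h1
    · exact hu h1
  · intro u v hu hv
    constructor
    · rintro (⟨-, -, h⟩ | ⟨-, h, -⟩ | ⟨-, h, -⟩ | ⟨-, h, -⟩ | ⟨-, h, -⟩)
      · exact h
      · exact absurd hu (nR h)
      · exact absurd hu (nC h)
      · exact absurd hv (nR h)
      · exact absurd hv (nC h)
    · intro h
      exact Or.inl ⟨hu, hv, h⟩

end transport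

/-- decoding of graphs -/
def DJ (s : Prop) (y : BinStr) : Grid ℕ := mkJ s (fun u v => y u v = true)

/-- the graph is represented by its grid -/
def WJ (s : Prop) (y : BinStr) : Prop := JRep s (DJ s y) (fun u v => y u v = true)

theorem DJ_equi {s : Prop} {σ : Equiv.Perm ℕ} {y z : BinStr}
    (h : ∀ m n, z (σ m) (σ n) = y m n) : GIso σ (DJ s y) (DJ s z) :=
  mkJ_equi (fun u v => by rw [h])

/-- grids can be described in graphs -/
theorem target_J (s : Prop) (K : BinStr → Prop)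
    (hK : ∀ γ : Grid ℕ, Base γ → ∀ y : BinStr, JRep s γ (fun u v => y u v = true) → K y) :
    Target BIso K (DJ s) (WJ s) where
  symm _ _ h := h.symm
  mg := mg_mkJ bp_atom
  mW := bp_jrep (mg_mkJ bp_atom) bp_atom
  inv := by
    rintro y z ⟨σ, h⟩ h1
    exact h1.map (DJ_equi h) (fun u v => by rw [h])
  iso := by
    rintro y z ⟨σ, h⟩
    exact ⟨σ, DJ_equi h⟩
  iso' := by
    rintro y z h1 h3 hb hb' ⟨σ, h⟩
    refine ⟨σ, fun m n => ?_⟩
    rw [Bool.eq_iff_iff]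
    exact (JRep.iso hb h h1 h3 m n).symm
  ex := by
    classical
    intro γ hb hr0 hc0 hf _
    let y : BinStr := fun u v => decide (jr s γ u v)
    have hy : (fun u v => y u v = true) = jr s γ := by
      funext u v
      simp [y]
    have h1 : JRep s γ (fun u v => y u v = true) := by rw [hy]; exact jr_rep hb
    have h5 : GIso (Equiv.refl ℕ) γ (DJ s y) := mkJ_iso hb hr0 hc0 hf h1
    exact ⟨y, h1.map h5 (fun _ _ => Iff.rfl), h5⟩
  cls y hW hb := hK _ hb y hW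

/-! ### the classes -/

/-- simple graphs -/
structure IsGraph (y : BinStr) : Prop where
  irrefl : ∀ u, y u u = false
  symm : ∀ u v, y u v = true → y v u = true

theorem JRep.graph {s : Prop} {γ : Grid ℕ} {y : BinStr}
    (h : JRep s γ (fun u v => y u v = true)) : IsGraph y := by
  refine ⟨fun u => ?_, h.symm⟩
  rw [Bool.eq_false_iff]
  intro hu
  by_cases hp : γ.P u
  · exact ((h.pp u u hp hp).1 hu).2 rfl
  · exact h.mm u u hp hp hu

/-- bipartite graphs -/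
def Bip (y : BinStr) : Prop := IsGraph y ∧ ∃ A : ℕ → Prop, ∀ u v, y u v = true → (A u ↔ ¬ A v)

/-- split graphs -/
def Split (y : BinStr) : Prop := IsGraph y ∧ ∃ A : ℕ → Prop,
  (∀ u v, A u → A v → u ≠ v → y u v = true) ∧ ∀ u v, ¬ A u → ¬ A v → y u v = false

/-- interval graphs -/
def IntGraph (y : BinStr) : Prop := ∃ l r : ℕ → ℚ, (∀ u, l u ≤ r u) ∧
  ∀ u v, y u v = true ↔ (u ≠ v ∧ l u ≤ r v ∧ l v ≤ r u)

theorem bip_of_jrep {γ : Grid ℕ} {y : BinStr} (h : JRep False γ (fun u v => y u v = true)) :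
    Bip y := by
  refine ⟨h.graph, γ.P, fun u v huv => ?_⟩
  constructor
  · intro hu hv
    exact ((h.pp u v hu hv).1 huv).1
  · intro hv
    by_contra hu
    exact h.mm u v hu hv huv

theorem split_of_jrep {γ : Grid ℕ} {y : BinStr} (h : JRep True γ (fun u v => y u v = true)) :
    Split y := by
  refine ⟨h.graph, γ.P, fun u v hu hv hne => (h.pp u v hu hv).2 ⟨trivial, hne⟩,
    fun u v hu hv => ?_⟩
  rw [Bool.eq_false_iff]
  exact h.mm u v hu hv

theorem target_Bip : Target BIso Bip (DJ False) (WJ False) :=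
  target_J False Bip (fun _ _ _ h => bip_of_jrep h)

theorem target_Split : Target BIso Split (DJ True) (WJ True) :=
  target_J True Split (fun _ _ _ h => split_of_jrep h)

end Pool.Agent.W889.VC
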