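import Pool.Agent.W889.VC.TD

set_option autoImplicit false

/-! Two-dimensional partial orders and pairs of linear orders. -/

namespace Pool.Agent.W889.VC

open Grid

theorem GIso.refl (γ : Grid ℕ) : GIso (Equiv.refl ℕ) γ γ :=
  ⟨fun _ => Iff.rfl, fun _ => Iff.rfl, fun _ _ _ _ => Iff.rfl, fun _ _ _ _ => Iff.rfl,
    fun _ _ _ _ => Iff.rfl, fun _ _ _ _ => Iff.rfl⟩

/-- the row and the column of a point determine the relation -/
theorem pp_iff {γ δ : Grid ℕ} {σ : Equiv.Perm ℕ} {y z : ℕ → ℕ → Prop} (hb : Base γ)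
    (h : GIso σ γ δ) (hy : PP2 γ y) (hz : PP2 δ z) (ty : TW0 γ y) (tz : TW0 δ z)
    (u v : ℕ) (hu : γ.P u) (hv : γ.P v) : y u v ↔ z (σ u) (σ v) := by
  obtain ⟨r, h1, h2, -⟩ := hb.rR u hu
  obtain ⟨r', h3, h4, -⟩ := hb.rR v hv
  obtain ⟨c, h5, h6, -⟩ := hb.rC u hu
  obtain ⟨c', h7, h8, -⟩ := hb.rC v hv
  by_cases hne : r = r' ∧ c = c'
  · obtain ⟨rfl, rfl⟩ := hne
    refine iff_of_false (ty u v r c h1 h5 ⟨hu, h2, h6⟩ ⟨hv, h4, h8⟩) ?_
    exact tz _ _ (σ r) (σ c) ((h.R r).1 h1) ((h.C c).1 h5)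
      ((fib_map h h1 h5).1 ⟨hu, h2, h6⟩) ((fib_map h h1 h5).1 ⟨hv, h4, h8⟩)
  · have hne' : ¬ (σ r = σ r' ∧ σ c = σ c') := fun ⟨e1, e2⟩ =>
      hne ⟨σ.injective e1, σ.injective e2⟩
    rw [hy u v r c r' c' hu hv h1 h2 h5 h6 h3 h4 h7 h8 hne,
      hz (σ u) (σ v) (σ r) (σ c) (σ r') (σ c') ((h.P u).1 hu) ((h.P v).1 hv) ((h.R r).1 h1)
      ((h.iR u r hu h1).1 h2) ((h.C c).1 h5) ((h.iC u c hu h5).1 h6) ((h.R r').1 h3)
      ((h.iR v r' hv h3).1 h4) ((h.C c').1 h7) ((h.iC v c' hv h7).1 h8) hne',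
      h.lR r r' h1 h3, h.lC c c' h5 h7, σ.injective.eq_iff, σ.injective.eq_iff]

theorem DT_equi {σ : Equiv.Perm ℕ} {y z : BinStr} (h : ∀ m n, z (σ m) (σ n) = y m n) :
    GIso σ (DT y) (DT z) := by
  have hyz : ∀ u v, (y u v = true) ↔ (z (σ u) (σ v) = true) := fun u v => by rw [h]
  exact mk_equi hyz (Rt_equi hyz) (Ct_equi hyz)

theorem mg_DT : MG DT := mg_mk bp_atom (bp_Rt bp_atom) (bp_Ct bp_atom)

/-- grids can be described in partial orders of dimension two -/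
theorem target_TD : Target BIso TwoDim DT WT where
  symm _ _ h := h.symm
  mg := mg_DT
  mW := (bp_rep mg_DT bp_atom).and ((bp_pp2 mg_DT bp_atom).and (bp_tw0 mg_DT bp_atom))
  inv := by
    rintro y z ⟨σ, h⟩ ⟨h1, h2, h3⟩
    have hyz : ∀ u v, (y u v = true) ↔ (z (σ u) (σ v) = true) := fun u v => by rw [h]
    exact ⟨h1.map (DT_equi h) hyz, h2.map (DT_equi h) hyz, h3.map (DT_equi h) hyz⟩
  iso := by
    rintro y z ⟨σ, h⟩
    exact ⟨σ, DT_equi h⟩
  iso' := by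
    rintro y z ⟨h1, h2, h2'⟩ ⟨h3, h4, h4'⟩ hb hb' ⟨σ, h⟩
    refine ⟨σ, fun m n => ?_⟩
    rw [Bool.eq_iff_iff]
    exact (Rep.iso hb h h1 h3 (pp_iff hb h h2 h4 h2' h4') m n).symm
  ex := by
    classical
    intro γ hb hr0 hc0 hf _
    obtain ⟨L1, L2, -, -, h1, h2, h2', -⟩ := exists_real hb
    let y : BinStr := fun u v => decide (L1 u v ∧ L2 u v)
    have hy : (fun u v => y u v = true) = (fun u v => L1 u v ∧ L2 u v) := by
      funext u v
      simp [y]
    rw [← hy] at h1 h2 h2'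
    obtain ⟨h3, h4⟩ := td_dec hb hr0 hc0 hf h1 h2
    have h5 : GIso (Equiv.refl ℕ) γ (DT y) := mk_iso hb h1 h3 h4
    exact ⟨y, ⟨h1.map h5 (fun _ _ => Iff.rfl), h2.map h5 (fun _ _ => Iff.rfl),
      h2'.map h5 (fun _ _ => Iff.rfl)⟩, h5⟩
  cls := by
    rintro y ⟨h1, h2, h3⟩ hb
    obtain ⟨L1, L2, s1, s2, k1, k2, k3, -⟩ := exists_real hb
    exact ⟨L1, L2, s1, s2, Rep.iso hb (GIso.refl _) h1 k1 (pp_iff hb (GIso.refl _) h2 k2 h3 k3)⟩

/-! ### pairs of linear orders -/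

/-- pairs of binary relations -/
abbrev PairStr : Type := BinStr × BinStr

/-- isomorphism of pairs of binary relations -/
def PIso (y z : PairStr) : Prop :=
  ∃ σ : Equiv.Perm ℕ, ∀ m n, z.1 (σ m) (σ n) = y.1 m n ∧ z.2 (σ m) (σ n) = y.2 m n

theorem PIso.symm {y z : PairStr} (h : PIso y z) : PIso z y := by
  obtain ⟨σ, h⟩ := h
  refine ⟨σ⁻¹, fun m n => ?_⟩
  have := h (σ⁻¹ m) (σ⁻¹ n)
  rw [← this.1, ← this.2]
  simp

/-- pairs of strict linear orders -/
def TwoLin (y : PairStr) : Prop :=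
  SLO (fun m n => y.1 m n = true) ∧ SLO (fun m n => y.2 m n = true)

/-- the intersection of the two relations -/
def cap (y : PairStr) (u v : ℕ) : Prop := y.1 u v = true ∧ y.2 u v = true

/-- decoding -/
def DL (y : PairStr) : Grid ℕ := mk (Rt (cap y)) (Ct (cap y)) (cap y)

/-- the relations are represented by their grid -/
def WL (y : PairStr) : Prop :=
  Rep (DL y) (cap y) ∧ PP2 (DL y) (cap y) ∧ TW0 (DL y) (cap y) ∧
  Or1 (DL y) (cap y) (fun u v => y.1 u v = true) ∧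
  (∀ r c, (DL y).R r → (DL y).C c → ∃ k, (DL y).Mult r c k) ∧ TwoLin y

theorem bp_fst (u v : ℕ) : BP (fun y : PairStr => y.1 u v = true) :=
  measurable_fst (bp_atom u v)

theorem bp_snd (u v : ℕ) : BP (fun y : PairStr => y.2 u v = true) :=
  measurable_snd (bp_atom u v)

theorem bp_cap (u v : ℕ) : BP (fun y : PairStr => cap y u v) := (bp_fst u v).and (bp_snd u v)

theorem mg_DL : MG DL := mg_mk bp_cap (bp_Rt bp_cap) (bp_Ct bp_cap)

theorem bp_slo {Y : Type} [MeasurableSpace Y] {r : ℕ → ℕ → Y → Prop} (h : ∀ u v, BP (r u v)) :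
    BP (fun y => SLO (fun u v => r u v y)) := by
  have : BP (fun y => (∀ m, ¬ r m m y) ∧ (∀ a b c, r a b y → r b c y → r a c y) ∧
      (∀ a b, a ≠ b → r a b y ∨ r b a y)) :=
    (BP.all fun m => (h m m).not).and <|
    (BP.all fun a => BP.all fun b => BP.all fun c => (h a b).imp <| (h b c).imp (h a c)).and <|
    BP.all fun a => BP.all fun b => (BP.const _).imp ((h a b).or (h b a))
  exact this.congr fun y => ⟨fun ⟨h1, h2, h3⟩ => ⟨h1, h2, h3⟩, fun ⟨h1, h2, h3⟩ => ⟨h1, h2, h3⟩⟩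

theorem bp_or1 {Y : Type} [MeasurableSpace Y] {D : Y → Grid ℕ} (hD : MG D)
    {r r1 : ℕ → ℕ → Y → Prop} (h : ∀ u v, BP (r u v)) (h1 : ∀ u v, BP (r1 u v)) :
    BP (fun y => Or1 (D y) (fun u v => r u v y) (fun u v => r1 u v y)) := by
  have : BP (fun y =>
      (∀ u v, (D y).P u → (D y).R v → ¬ r v u y → r1 u v y) ∧
      (∀ u v, (D y).P u → (D y).C v → r1 u v y) ∧
      (∀ u v s s', (D y).P u → (D y).P v → (D y).R s → (D y).iR u s → (D y).R s' →
        (D y).iR v s' → (D y).lt s s' → r1 u v y)) :=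
    (BP.all fun u => BP.all fun v => (hD.P u).imp <| (hD.R v).imp <| (h v u).not.imp
      (h1 u v)).and <|
    (BP.all fun u => BP.all fun v => (hD.P u).imp <| (hD.C v).imp (h1 u v)).and <|
    BP.all fun u => BP.all fun v => BP.all fun s => BP.all fun s' => (hD.P u).imp <|
      (hD.P v).imp <| (hD.R s).imp <| (hD.iR u s).imp <| (hD.R s').imp <| (hD.iR v s').imp <|
      (hD.lt s s').imp (h1 u v)
  exact this.congr fun y => ⟨fun ⟨h1, h2, h3⟩ => ⟨h1, h2, h3⟩, fun ⟨h1, h2, h3⟩ => ⟨h1, h2, h3⟩⟩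

theorem bp_WL : BP WL :=
  (bp_rep mg_DL bp_cap).and <| (bp_pp2 mg_DL bp_cap).and <| (bp_tw0 mg_DL bp_cap).and <|
  (bp_or1 mg_DL bp_cap bp_fst).and <|
  (BP.all fun r => BP.all fun c => (mg_DL.R r).imp <| (mg_DL.C c).imp <| BP.ex fun k =>
    mg_DL.Mult r c k).and <| (bp_slo bp_fst).and (bp_slo bp_snd)

theorem SLO.map {σ : Equiv.Perm ℕ} {y z : ℕ → ℕ → Prop} (hyz : ∀ u v, y u v ↔ z (σ u) (σ v))
    (h : SLO y) : SLO z := by
  have ex : ∀ v, ∃ u, σ u = v := fun v => ⟨σ.symm v, σ.apply_symm_apply v⟩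
  refine ⟨?_, ?_, ?_⟩
  · intro m
    obtain ⟨m, rfl⟩ := ex m
    rw [← hyz]
    exact h.irrefl m
  · intro a b c
    obtain ⟨a, rfl⟩ := ex a
    obtain ⟨b, rfl⟩ := ex b
    obtain ⟨c, rfl⟩ := ex c
    rw [← hyz, ← hyz, ← hyz]
    exact h.trans a b c
  · intro a b hne
    obtain ⟨a, rfl⟩ := ex a
    obtain ⟨b, rfl⟩ := ex b
    rw [← hyz, ← hyz]
    exact h.total a b (fun h => hne (by rw [h]))

theorem Or1.map {γ δ : Grid ℕ} {σ : Equiv.Perm ℕ} {y z y1 z1 : ℕ → ℕ → Prop}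
    (h : GIso σ γ δ) (hyz : ∀ u v, y u v ↔ z (σ u) (σ v))
    (hyz1 : ∀ u v, y1 u v ↔ z1 (σ u) (σ v)) (hy : Or1 γ y y1) : Or1 δ z z1 := by
  have exR : ∀ v, δ.R v → ∃ u, γ.R u ∧ σ u = v := fun v hv =>
    ⟨σ.symm v, (h.R _).2 (by rwa [σ.apply_symm_apply]), σ.apply_symm_apply v⟩
  have exC : ∀ v, δ.C v → ∃ u, γ.C u ∧ σ u = v := fun v hv =>
    ⟨σ.symm v, (h.C _).2 (by rwa [σ.apply_symm_apply]), σ.apply_symm_apply v⟩
  have exP : ∀ v, δ.P v → ∃ u, γ.P u ∧ σ u = v := fun v hv =>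
    ⟨σ.symm v, (h.P _).2 (by rwa [σ.apply_symm_apply]), σ.apply_symm_apply v⟩
  refine ⟨?_, ?_, ?_⟩
  · intro u v hu hv
    obtain ⟨u, hu', rfl⟩ := exP u hu
    obtain ⟨v, hv', rfl⟩ := exR v hv
    rw [← hyz, ← hyz1]
    exact hy.pr u v hu' hv'
  · intro u v hu hv
    obtain ⟨u, hu', rfl⟩ := exP u hu
    obtain ⟨v, hv', rfl⟩ := exC v hv
    rw [← hyz1]
    exact hy.pc u v hu' hv'
  · intro u v r r' hu hv hr i hr' i' hlt
    obtain ⟨u, hu', rfl⟩ := exP u hu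
    obtain ⟨v, hv', rfl⟩ := exP v hv
    obtain ⟨r, kr, rfl⟩ := exR r hr
    obtain ⟨r', kr', rfl⟩ := exR r' hr'
    rw [← hyz1]
    exact hy.pp u v r r' hu' hv' kr ((h.iR _ _ hu' kr).2 i) kr' ((h.iR _ _ hv' kr').2 i')
      ((h.lR _ _ kr kr').2 hlt)

theorem DL_equi {σ : Equiv.Perm ℕ} {y z : PairStr}
    (h : ∀ m n, z.1 (σ m) (σ n) = y.1 m n ∧ z.2 (σ m) (σ n) = y.2 m n) :
    GIso σ (DL y) (DL z) := by
  have hyz : ∀ u v, cap y u v ↔ cap z (σ u) (σ v) := fun u v => by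
    unfold cap
    rw [(h u v).1, (h u v).2]
  exact mk_equi hyz (Rt_equi hyz) (Ct_equi hyz)

theorem WL_map {σ : Equiv.Perm ℕ} {y z : PairStr}
    (h : ∀ m n, z.1 (σ m) (σ n) = y.1 m n ∧ z.2 (σ m) (σ n) = y.2 m n) (hy : WL y) : WL z := by
  obtain ⟨h1, h2, h3, h4, h5, h6, h7⟩ := hy
  have hyz : ∀ u v, cap y u v ↔ cap z (σ u) (σ v) := fun u v => by
    unfold cap
    rw [(h u v).1, (h u v).2]
  have hyz1 : ∀ u v, (y.1 u v = true) ↔ (z.1 (σ u) (σ v) = true) := fun u v => by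
    rw [(h u v).1]
  have hyz2 : ∀ u v, (y.2 u v = true) ↔ (z.2 (σ u) (σ v) = true) := fun u v => by
    rw [(h u v).2]
  have hg := DL_equi h
  refine ⟨h1.map hg hyz, h2.map hg hyz, h3.map hg hyz, h4.map hg hyz hyz1, ?_,
    h6.map hyz1, h7.map hyz2⟩
  intro r c hr hc
  have e1 := σ.apply_symm_apply r
  have e2 := σ.apply_symm_apply c
  rw [← e1] at hr ⊢
  rw [← e2] at hc ⊢
  obtain ⟨k, hk⟩ := h5 _ _ ((hg.R _).2 hr) ((hg.C _).2 hc)
  exact ⟨k, hg.mult ((hg.R _).2 hr) ((hg.C _).2 hc) hk⟩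

theorem fin_iso {S T : Type} [Finite S] [Finite T] (h : Nat.card S = Nat.card T)
    (r : S → S → Prop) (h1 : ∀ a, ¬ r a a) (h2 : ∀ a b c, r a b → r b c → r a c)
    (h3 : ∀ a b, a ≠ b → r a b ∨ r b a)
    (t : T → T → Prop) (k1 : ∀ a, ¬ t a a) (k2 : ∀ a b c, t a b → t b c → t a c)
    (k3 : ∀ a b, a ≠ b → t a b ∨ t b a) :
    ∃ e : S ≃ T, ∀ a b, r a b ↔ t (e a) (e b) := by
  classical
  have hS : IsStrictTotalOrder S r :=
    { irrefl := h1
      trans := h2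
      trichotomous := by
        intro a b h4 h5
        by_contra hne
        rcases h3 a b hne with h | h
        · exact h4 h
        · exact h5 h }
  have hT : IsStrictTotalOrder T t :=
    { irrefl := k1
      trans := k2
      trichotomous := by
        intro a b h4 h5
        by_contra hne
        rcases k3 a b hne with h | h
        · exact h4 h
        · exact h5 h }
  let o : LinearOrder S := linearOrderOfSTO r
  let o' : LinearOrder T := linearOrderOfSTO t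
  have f1 : Fintype S := Fintype.ofFinite S
  have f2 : Fintype T := Fintype.ofFinite T
  let e1 := Fintype.orderIsoFinOfCardEq S (rfl : Fintype.card S = Fintype.card S)
  have hc : Fintype.card T = Fintype.card S := by
    rw [← Nat.card_eq_fintype_card, ← Nat.card_eq_fintype_card, h]
  let e2 := Fintype.orderIsoFinOfCardEq T hc
  let e := e1.symm.trans e2
  exact ⟨e.toEquiv, fun a b => (e.lt_iff_lt (x := a) (y := b)).symm⟩

/-- the first relation is determined by the grid, except in the fibres -/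
theorem fst_imp {γ δ : Grid ℕ} {σ : Equiv.Perm ℕ} {y z y1 z1 : ℕ → ℕ → Prop} (hb : Base γ)
    (h : GIso σ γ δ) (hq : ∀ u v, y u v ↔ z (σ u) (σ v)) (ry : Rep γ y) (py : PP2 γ y)
    (oy : Or1 γ y y1) (oz : Or1 δ z z1) (sy : SLO y1) (iy : ∀ u v, y u v → y1 u v)
    (iz : ∀ u v, z u v → z1 u v)
    (tw : ∀ r c p q, γ.R r → γ.C c → γ.Fib r c p → γ.Fib r c q → (y1 p q ↔ z1 (σ p) (σ q)))
    (u v : ℕ) (huv : y1 u v) : z1 (σ u) (σ v) := by
  have asym : ¬ y1 v u := fun h' => sy.irrefl u (sy.trans _ _ _ huv h')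
  have hne : u ≠ v := fun e => sy.irrefl u (by rw [← e] at huv; exact huv)
  by_cases h1 : y u v
  · exact iz _ _ ((hq u v).1 h1)
  have h2 : ¬ y v u := fun h' => asym (iy _ _ h')
  rcases cases3 γ u with hu | hu | hu <;> rcases cases3 γ v with hv | hv | hv
  · rcases hb.dR.total u v hu hv hne with h' | h'
    · exact absurd ((ry.rr u v hu hv).2 h') h1
    · exact absurd ((ry.rr v u hv hu).2 h') h2
  · exact absurd (ry.rc u v hu hv) h1
  · exact absurd (oy.pr v u hv hu h1) asym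
  · exact absurd (ry.rc v u hv hu) h2
  · rcases hb.dC.total u v hu hv hne with h' | h'
    · exact absurd ((ry.cc u v hu hv).2 h') h1
    · exact absurd ((ry.cc v u hv hu).2 h') h2
  · exact absurd (oy.pc v u hv hu) asym
  · exact oz.pr _ _ ((h.P u).1 hu) ((h.R v).1 hv) (fun h' => h2 ((hq v u).2 h'))
  · exact oz.pc _ _ ((h.P u).1 hu) ((h.C v).1 hv)
  · obtain ⟨r, k1, k2, -⟩ := hb.rR u hu
    obtain ⟨r', k3, k4, -⟩ := hb.rR v hv
    obtain ⟨c, k5, k6, -⟩ := hb.rC u hu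
    obtain ⟨c', k7, k8, -⟩ := hb.rC v hv
    by_cases er : r = r'
    · subst er
      by_cases ec : c = c'
      · subst ec
        exact (tw r c u v k1 k5 ⟨hu, k2, k6⟩ ⟨hv, k4, k8⟩).1 huv
      · exfalso
        rcases hb.dC.total c c' k5 k7 ec with h' | h'
        · exact h1 ((py u v r c r c' hu hv k1 k2 k5 k6 k1 k4 k7 k8 (fun h => ec h.2)).2
            ⟨Or.inl rfl, Or.inr h'⟩)
        · exact h2 ((py v u r c' r c hv hu k1 k4 k7 k8 k1 k2 k5 k6 (fun h => ec h.2.symm)).2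
            ⟨Or.inl rfl, Or.inr h'⟩)
    · rcases hb.dR.total r r' k1 k3 er with h' | h'
      · exact oz.pp _ _ (σ r) (σ r') ((h.P u).1 hu) ((h.P v).1 hv) ((h.R r).1 k1)
          ((h.iR u r hu k1).1 k2) ((h.R r').1 k3) ((h.iR v r' hv k3).1 k4)
          ((h.lR r r' k1 k3).1 h')
      · exact absurd (oy.pp v u r' r hv hu k3 k4 k1 k2 h') asym

theorem snd_iff {y1 y2 : ℕ → ℕ → Prop} (h1 : SLO y1) (h2 : SLO y2) (u v : ℕ) :
    y2 u v ↔ ((y1 u v ∧ y2 u v) ∨ (y1 v u ∧ ¬ (y1 v u ∧ y2 v u))) := by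
  constructor
  · intro h
    have hne : u ≠ v := fun e => h2.irrefl u (by rw [← e] at h; exact h)
    rcases h1.total u v hne with h' | h'
    · exact Or.inl ⟨h', h⟩
    · exact Or.inr ⟨h', fun k => h2.irrefl u (h2.trans _ _ _ h k.2)⟩
  · rintro (h | ⟨h, h'⟩)
    · exact h.2
    · have hne : u ≠ v := fun e => h1.irrefl u (by rw [← e] at h; exact h)
      rcases h2.total u v hne with k | k
      · exact k
      · exact absurd ⟨h, k⟩ h'

/-- grids can be described in pairs of linear orders -/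
theorem target_PL : Target PIso TwoLin DL WL where
  symm _ _ h := h.symm
  mg := mg_DL
  mW := bp_WL
  inv := by
    rintro y z ⟨σ, h⟩ hy
    exact WL_map h hy
  iso := by
    rintro y z ⟨σ, h⟩
    exact ⟨σ, DL_equi h⟩
  iso' := by
    rintro y z ⟨h1, h2, h3, h4, h5, h6, h7⟩ ⟨k1, k2, k3, k4, k5, k6, k7⟩ hb hb' ⟨ρ, h⟩
    -- improve the isomorphism in the fibres
    let φ : {u // (DL y).R u} ≃ {u // (DL z).R u} := ρ.subtypeEquiv h.R
    let ψ : {u // (DL y).C u} ≃ {u // (DL z).C u} := ρ.subtypeEquiv h.C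
    obtain ⟨σ, hσ, tw⟩ := assemble hb hb' φ ψ (fun a a' => h.lR a a' a.2 a'.2)
      (fun a a' => h.lC a a' a.2 a'.2) (fun u v => y.1 u v = true) (fun u v => z.1 u v = true)
      (by
        intro r c
        obtain ⟨k, hk⟩ := h5 r c r.2 c.2
        have hk' : (DL z).Mult (φ r) (ψ c) k := h.mult r.2 c.2 hk
        obtain ⟨s, hs, hs'⟩ := hk
        obtain ⟨t, ht, ht'⟩ := hk'
        have es : {p // (DL y).Fib r c p} ≃ {p // p ∈ s} :=
          Equiv.subtypeEquivRight (fun p => (hs' p).symm)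
        have et : {p // (DL z).Fib (φ r) (ψ c) p} ≃ {p // p ∈ t} :=
          Equiv.subtypeEquivRight (fun p => (ht' p).symm)
        have fs : Finite {p // (DL y).Fib r c p} := Finite.of_equiv _ es.symm
        have ft : Finite {p // (DL z).Fib (φ r) (ψ c) p} := Finite.of_equiv _ et.symm
        refine fin_iso (S := {p // (DL y).Fib r c p}) (T := {p // (DL z).Fib (φ r) (ψ c) p}) ?_
          (fun p q => y.1 p q = true) (fun a => h6.irrefl a.1)
          (fun a b c => h6.trans a.1 b.1 c.1) (fun a b hne => h6.total a.1 b.1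
            (fun e => hne (Subtype.ext e))) (fun p q => z.1 p q = true) (fun a => k6.irrefl a.1)
          (fun a b c => k6.trans a.1 b.1 c.1) (fun a b hne => k6.total a.1 b.1
            (fun e => hne (Subtype.ext e)))
        rw [Nat.card_congr es, Nat.card_congr et, Nat.card_eq_fintype_card,
          Nat.card_eq_fintype_card, Fintype.card_coe, Fintype.card_coe, hs, ht])
    have hq : ∀ u v, cap y u v ↔ cap z (σ u) (σ v) :=
      Rep.iso hb hσ h1 k1 (pp_iff hb hσ h2 k2 h3 k3)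
    have hf : ∀ u v, y.1 u v = true → z.1 (σ u) (σ v) = true :=
      fst_imp hb hσ hq h1 h2 h4 k4 h6 (fun u v h => h.1) (fun u v h => h.1) tw
    have hf' : ∀ u v, y.1 u v = true ↔ z.1 (σ u) (σ v) = true := by
      intro u v
      refine ⟨hf u v, fun h' => ?_⟩
      have hne : u ≠ v := fun e => k6.irrefl (σ u) (by rw [← e] at h'; exact h')
      rcases h6.total u v hne with h'' | h''
      · exact h''
      · exact absurd (k6.trans _ _ _ h' (hf v u h'')) (k6.irrefl _)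
    refine ⟨σ, fun m n => ⟨?_, ?_⟩⟩
    · rw [Bool.eq_iff_iff]
      exact (hf' m n).symm
    · rw [Bool.eq_iff_iff, snd_iff k6 k7, snd_iff h6 h7]
      have a1 := hq m n
      have a2 := hq n m
      have a3 := hf' n m
      unfold cap at a1 a2
      rw [← a1, ← a2, ← a3]
  ex := by
    classical
    intro γ hb hr0 hc0 hf hm
    obtain ⟨L1, L2, s1, s2, h1, h2, h3, h4⟩ := exists_real hb
    let y : PairStr := (fun u v => decide (L1 u v), fun u v => decide (L2 u v))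
    have hy1 : (fun u v => y.1 u v = true) = L1 := by
      funext u v
      simp [y]
    have hy2 : (fun u v => y.2 u v = true) = L2 := by
      funext u v
      simp [y]
    have hy : cap y = (fun u v => L1 u v ∧ L2 u v) := by
      funext u v
      simp [y, cap]
    rw [← hy] at h1 h2 h3 h4
    rw [← hy1] at h4 s1
    rw [← hy2] at s2
    obtain ⟨k3, k4⟩ := td_dec hb hr0 hc0 hf h1 h2
    have h5 : GIso (Equiv.refl ℕ) γ (DL y) := mk_iso hb h1 k3 k4
    refine ⟨y, ⟨h1.map h5 (fun _ _ => Iff.rfl), h2.map h5 (fun _ _ => Iff.rfl),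
      h3.map h5 (fun _ _ => Iff.rfl), h4.map h5 (fun _ _ => Iff.rfl) (fun _ _ => Iff.rfl), ?_,
      s1, s2⟩, h5⟩
    intro r c hr hc
    obtain ⟨k, hk⟩ := hm r c ((h5.R r).2 hr) ((h5.C c).2 hc)
    exact ⟨k, h5.mult ((h5.R r).2 hr) ((h5.C c).2 hc) hk⟩
  cls := by
    rintro y ⟨-, -, -, -, -, h⟩ -
    exact h

end Pool.Agent.W889.VC
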