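import Pool.Agent.W889.VC.Transfer

set_option autoImplicit false

/-! Binary relations representing grids. -/

namespace Pool.Agent.W889.VC

open Grid

/-- The relation `y` represents the grid, up to the pairs of points. -/
structure Rep (γ : Grid ℕ) (y : ℕ → ℕ → Prop) : Prop where
  rr : ∀ u v, γ.R u → γ.R v → (y u v ↔ γ.lt u v)
  cc : ∀ u v, γ.C u → γ.C v → (y u v ↔ γ.lt u v)
  rc : ∀ u v, γ.R u → γ.C v → y u v
  cr : ∀ u v, γ.C u → γ.R v → ¬ y u v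
  rp : ∀ u v r, γ.R u → γ.P v → γ.R r → γ.iR v r → (y u v ↔ γ.lt u r)
  pr : ∀ u v, γ.P u → γ.R v → ¬ y u v
  pc : ∀ u v c, γ.P u → γ.C v → γ.C c → γ.iC u c → (y u v ↔ γ.lt c v)
  cp : ∀ u v, γ.C u → γ.P v → ¬ y u v

/-- no pair of points is in the relation -/
def PP0 (γ : Grid ℕ) (y : ℕ → ℕ → Prop) : Prop := ∀ u v, γ.P u → γ.P v → ¬ y u v

/-- pairs of points in different rows or different columns are compared coordinatewise -/
def PP2 (γ : Grid ℕ) (y : ℕ → ℕ → Prop) : Prop :=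
  ∀ u v r c r' c', γ.P u → γ.P v → γ.R r → γ.iR u r → γ.C c → γ.iC u c →
    γ.R r' → γ.iR v r' → γ.C c' → γ.iC v c' → ¬ (r = r' ∧ c = c') →
    (y u v ↔ (r = r' ∨ γ.lt r r') ∧ (c = c' ∨ γ.lt c c'))

/-- points in the same row and column are not in the relation -/
def TW0 (γ : Grid ℕ) (y : ℕ → ℕ → Prop) : Prop :=
  ∀ u v r c, γ.R r → γ.C c → γ.Fib r c u → γ.Fib r c v → ¬ y u v

theorem cases3 (γ : Grid ℕ) (u : ℕ) : γ.R u ∨ γ.C u ∨ γ.P u := by
  by_cases h1 : γ.R u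
  · exact Or.inl h1
  · by_cases h2 : γ.C u
    · exact Or.inr (Or.inl h2)
    · exact Or.inr (Or.inr ⟨h1, h2⟩)

section transport

variable {γ δ : Grid ℕ} {σ : Equiv.Perm ℕ} {y z : ℕ → ℕ → Prop}

theorem Rep.map (h : GIso σ γ δ) (hyz : ∀ u v, y u v ↔ z (σ u) (σ v)) (hy : Rep γ y) :
    Rep δ z := by
  have exR : ∀ v, δ.R v → ∃ u, γ.R u ∧ σ u = v := fun v hv =>
    ⟨σ.symm v, (h.R _).2 (by rwa [σ.apply_symm_apply]), σ.apply_symm_apply v⟩
  have exC : ∀ v, δ.C v → ∃ u, γ.C u ∧ σ u = v := fun v hv =>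
    ⟨σ.symm v, (h.C _).2 (by rwa [σ.apply_symm_apply]), σ.apply_symm_apply v⟩
  have exP : ∀ v, δ.P v → ∃ u, γ.P u ∧ σ u = v := fun v hv =>
    ⟨σ.symm v, (h.P _).2 (by rwa [σ.apply_symm_apply]), σ.apply_symm_apply v⟩
  refine ⟨?_, ?_, ?_, ?_, ?_, ?_, ?_, ?_⟩
  · intro u v hu hv
    obtain ⟨u, hu', rfl⟩ := exR u hu
    obtain ⟨v, hv', rfl⟩ := exR v hv
    rw [← hyz, hy.rr u v hu' hv', h.lR u v hu' hv']
  · intro u v hu hv
    obtain ⟨u, hu', rfl⟩ := exC u hu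
    obtain ⟨v, hv', rfl⟩ := exC v hv
    rw [← hyz, hy.cc u v hu' hv', h.lC u v hu' hv']
  · intro u v hu hv
    obtain ⟨u, hu', rfl⟩ := exR u hu
    obtain ⟨v, hv', rfl⟩ := exC v hv
    rw [← hyz]
    exact hy.rc u v hu' hv'
  · intro u v hu hv
    obtain ⟨u, hu', rfl⟩ := exC u hu
    obtain ⟨v, hv', rfl⟩ := exR v hv
    rw [← hyz]
    exact hy.cr u v hu' hv'
  · intro u v r hu hv hr hi
    obtain ⟨u, hu', rfl⟩ := exR u hu
    obtain ⟨v, hv', rfl⟩ := exP v hv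
    obtain ⟨r, hr', rfl⟩ := exR r hr
    rw [← hyz, hy.rp u v r hu' hv' hr' ((h.iR v r hv' hr').2 hi), h.lR u r hu' hr']
  · intro u v hu hv
    obtain ⟨u, hu', rfl⟩ := exP u hu
    obtain ⟨v, hv', rfl⟩ := exR v hv
    rw [← hyz]
    exact hy.pr u v hu' hv'
  · intro u v c hu hv hc hi
    obtain ⟨u, hu', rfl⟩ := exP u hu
    obtain ⟨v, hv', rfl⟩ := exC v hv
    obtain ⟨c, hc', rfl⟩ := exC c hc
    rw [← hyz, hy.pc u v c hu' hv' hc' ((h.iC u c hu' hc').2 hi), h.lC c v hc' hv']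
  · intro u v hu hv
    obtain ⟨u, hu', rfl⟩ := exC u hu
    obtain ⟨v, hv', rfl⟩ := exP v hv
    rw [← hyz]
    exact hy.cp u v hu' hv'

theorem PP0.map (h : GIso σ γ δ) (hyz : ∀ u v, y u v ↔ z (σ u) (σ v)) (hy : PP0 γ y) :
    PP0 δ z := by
  intro u v hu hv
  have e := hyz (σ.symm u) (σ.symm v)
  rw [σ.apply_symm_apply, σ.apply_symm_apply] at e
  rw [← e]
  exact hy _ _ ((h.P _).2 (by rwa [σ.apply_symm_apply])) ((h.P _).2 (by rwa [σ.apply_symm_apply]))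

theorem PP2.map (h : GIso σ γ δ) (hyz : ∀ u v, y u v ↔ z (σ u) (σ v)) (hy : PP2 γ y) :
    PP2 δ z := by
  have exR : ∀ v, δ.R v → ∃ u, γ.R u ∧ σ u = v := fun v hv =>
    ⟨σ.symm v, (h.R _).2 (by rwa [σ.apply_symm_apply]), σ.apply_symm_apply v⟩
  have exC : ∀ v, δ.C v → ∃ u, γ.C u ∧ σ u = v := fun v hv =>
    ⟨σ.symm v, (h.C _).2 (by rwa [σ.apply_symm_apply]), σ.apply_symm_apply v⟩
  have exP : ∀ v, δ.P v → ∃ u, γ.P u ∧ σ u = v := fun v hv =>
    ⟨σ.symm v, (h.P _).2 (by rwa [σ.apply_symm_apply]), σ.apply_symm_apply v⟩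
  intro u v r c r' c' hu hv hr h1 hc h2 hr' h3 hc' h4 hne
  obtain ⟨u, ku, rfl⟩ := exP u hu
  obtain ⟨v, kv, rfl⟩ := exP v hv
  obtain ⟨r, kr, rfl⟩ := exR r hr
  obtain ⟨c, kc, rfl⟩ := exC c hc
  obtain ⟨r', kr', rfl⟩ := exR r' hr'
  obtain ⟨c', kc', rfl⟩ := exC c' hc'
  have := hy u v r c r' c' ku kv kr ((h.iR u r ku kr).2 h1) kc ((h.iC u c ku kc).2 h2) kr'
    ((h.iR v r' kv kr').2 h3) kc' ((h.iC v c' kv kc').2 h4) (by
      rintro ⟨rfl, rfl⟩
      exact hne ⟨rfl, rfl⟩)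
  rw [← hyz, this, h.lR r r' kr kr', h.lC c c' kc kc', σ.injective.eq_iff, σ.injective.eq_iff]

theorem fib_map (h : GIso σ γ δ) {r c p : ℕ} (hr : γ.R r) (hc : γ.C c) :
    γ.Fib r c p ↔ δ.Fib (σ r) (σ c) (σ p) := by
  constructor
  · rintro ⟨h1, h2, h3⟩
    exact ⟨(h.P p).1 h1, (h.iR p r h1 hr).1 h2, (h.iC p c h1 hc).1 h3⟩
  · rintro ⟨h1, h2, h3⟩
    have h1' := (h.P p).2 h1
    exact ⟨h1', (h.iR p r h1' hr).2 h2, (h.iC p c h1' hc).2 h3⟩

theorem TW0.map (h : GIso σ γ δ) (hyz : ∀ u v, y u v ↔ z (σ u) (σ v)) (hy : TW0 γ y) :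
    TW0 δ z := by
  have exR : ∀ v, δ.R v → ∃ u, γ.R u ∧ σ u = v := fun v hv =>
    ⟨σ.symm v, (h.R _).2 (by rwa [σ.apply_symm_apply]), σ.apply_symm_apply v⟩
  have exC : ∀ v, δ.C v → ∃ u, γ.C u ∧ σ u = v := fun v hv =>
    ⟨σ.symm v, (h.C _).2 (by rwa [σ.apply_symm_apply]), σ.apply_symm_apply v⟩
  intro u v r c hr hc hu hv
  obtain ⟨r, kr, rfl⟩ := exR r hr
  obtain ⟨c, kc, rfl⟩ := exC c hc
  have e := hyz (σ.symm u) (σ.symm v)
  rw [σ.apply_symm_apply, σ.apply_symm_apply] at e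
  rw [← e]
  refine hy _ _ r c kr kc ((fib_map h kr kc).2 ?_) ((fib_map h kr kc).2 ?_)
  · rwa [σ.apply_symm_apply]
  · rwa [σ.apply_symm_apply]

end transport

/-- The grid decoded from a relation, with given rows and columns. -/
def mk (R C : ℕ → Prop) (y : ℕ → ℕ → Prop) : Grid ℕ where
  R := R
  C := C
  lt := y
  iR := fun p r => ¬ y r p ∧ ∀ r', R r' → y r' r → y r' p
  iC := fun p c => ¬ y p c ∧ ∀ c', C c' → y c c' → y p c'

theorem mk_iso {γ : Grid ℕ} (hb : Base γ) {y : ℕ → ℕ → Prop} (hy : Rep γ y) {R C : ℕ → Prop}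
    (hR : ∀ u, γ.R u ↔ R u) (hC : ∀ u, γ.C u ↔ C u) : GIso (Equiv.refl ℕ) γ (mk R C y) := by
  refine ⟨hR, hC, ?_, ?_, ?_, ?_⟩
  · intro u v hu hv
    exact (hy.rr u v hu hv).symm
  · intro u v hu hv
    exact (hy.cc u v hu hv).symm
  · intro p r hp hr
    obtain ⟨r0, h1, h2, h3⟩ := hb.rR p hp
    show γ.iR p r ↔ (¬ y r p ∧ ∀ r', R r' → y r' r → y r' p)
    rw [hy.rp r p r0 hr hp h1 h2]
    constructor
    · intro h4
      have h5 := h3 r hr h4
      subst h5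
      refine ⟨hb.dR.irrefl r hr, fun r' h6 h7 => ?_⟩
      have h6' := (hR r').2 h6
      rw [hy.rp r' p r h6' hp hr h2]
      exact (hy.rr r' r h6' hr).1 h7
    · rintro ⟨h4, h5⟩
      by_contra h6
      have hne : r ≠ r0 := fun h => h6 (h ▸ h2)
      rcases hb.dR.total r r0 hr h1 hne with h7 | h7
      · exact h4 h7
      · have h8 := h5 r0 ((hR r0).1 h1) ((hy.rr r0 r h1 hr).2 h7)
        rw [hy.rp r0 p r0 h1 hp h1 h2] at h8
        exact hb.dR.irrefl r0 h1 h8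
  · intro p c hp hc
    obtain ⟨c0, h1, h2, h3⟩ := hb.rC p hp
    show γ.iC p c ↔ (¬ y p c ∧ ∀ c', C c' → y c c' → y p c')
    rw [hy.pc p c c0 hp hc h1 h2]
    constructor
    · intro h4
      have h5 := h3 c hc h4
      subst h5
      refine ⟨hb.dC.irrefl c hc, fun c' h6 h7 => ?_⟩
      have h6' := (hC c').2 h6
      rw [hy.pc p c' c hp h6' hc h2]
      exact (hy.cc c c' hc h6').1 h7
    · rintro ⟨h4, h5⟩
      by_contra h6
      have hne : c ≠ c0 := fun h => h6 (h ▸ h2)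
      rcases hb.dC.total c c0 hc h1 hne with h7 | h7
      · have h8 := h5 c0 ((hC c0).1 h1) ((hy.cc c c0 hc h1).2 h7)
        rw [hy.pc p c0 c0 hp h1 h1 h2] at h8
        exact hb.dC.irrefl c0 h1 h8
      · exact h4 h7

/-- equivariance of the decoding -/
theorem mk_equi {σ : Equiv.Perm ℕ} {R C R' C' : ℕ → Prop} {y z : ℕ → ℕ → Prop}
    (hyz : ∀ u v, y u v ↔ z (σ u) (σ v)) (hR : ∀ u, R u ↔ R' (σ u)) (hC : ∀ u, C u ↔ C' (σ u)) :
    GIso σ (mk R C y) (mk R' C' z) := by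
  refine ⟨hR, hC, fun u v _ _ => hyz u v, fun u v _ _ => hyz u v, ?_, ?_⟩
  · intro p r _ _
    show (¬ y r p ∧ ∀ r', R r' → y r' r → y r' p) ↔
      (¬ z (σ r) (σ p) ∧ ∀ r', R' r' → z r' (σ r) → z r' (σ p))
    rw [← hyz]
    refine and_congr Iff.rfl ?_
    constructor
    · intro h r' h1 h2
      have e := σ.apply_symm_apply r'
      rw [← e] at h1 h2 ⊢
      rw [← hyz] at h2 ⊢
      exact h _ ((hR _).2 h1) h2
    · intro h r' h1 h2
      rw [hyz] at h2 ⊢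
      exact h _ ((hR _).1 h1) h2
  · intro p c _ _
    show (¬ y p c ∧ ∀ c', C c' → y c c' → y p c') ↔
      (¬ z (σ p) (σ c) ∧ ∀ c', C' c' → z (σ c) c' → z (σ p) c')
    rw [← hyz]
    refine and_congr Iff.rfl ?_
    constructor
    · intro h r' h1 h2
      have e := σ.apply_symm_apply r'
      rw [← e] at h1 h2 ⊢
      rw [← hyz] at h2 ⊢
      exact h _ ((hC _).2 h1) h2
    · intro h r' h1 h2
      rw [hyz] at h2 ⊢
      exact h _ ((hC _).1 h1) h2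

/-- An isomorphism of the grids is an isomorphism of the relations representing them, if it is
one on the pairs of points. -/
theorem Rep.iso {γ δ : Grid ℕ} {σ : Equiv.Perm ℕ} {y z : ℕ → ℕ → Prop} (hb : Base γ)
    (h : GIso σ γ δ) (hy : Rep γ y) (hz : Rep δ z)
    (hp : ∀ u v, γ.P u → γ.P v → (y u v ↔ z (σ u) (σ v))) (u v : ℕ) :
    y u v ↔ z (σ u) (σ v) := by
  rcases cases3 γ u with hu | hu | hu <;> rcases cases3 γ v with hv | hv | hv
  · rw [hy.rr u v hu hv, h.lR u v hu hv, hz.rr _ _ ((h.R u).1 hu) ((h.R v).1 hv)]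
  · exact iff_of_true (hy.rc u v hu hv) (hz.rc _ _ ((h.R u).1 hu) ((h.C v).1 hv))
  · obtain ⟨r, h1, h2, -⟩ := hb.rR v hv
    rw [hy.rp u v r hu hv h1 h2, h.lR u r hu h1, hz.rp _ _ (σ r) ((h.R u).1 hu) ((h.P v).1 hv)
      ((h.R r).1 h1) ((h.iR v r hv h1).1 h2)]
  · exact iff_of_false (hy.cr u v hu hv) (hz.cr _ _ ((h.C u).1 hu) ((h.R v).1 hv))
  · rw [hy.cc u v hu hv, h.lC u v hu hv, hz.cc _ _ ((h.C u).1 hu) ((h.C v).1 hv)]
  · exact iff_of_false (hy.cp u v hu hv) (hz.cp _ _ ((h.C u).1 hu) ((h.P v).1 hv))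
  · exact iff_of_false (hy.pr u v hu hv) (hz.pr _ _ ((h.P u).1 hu) ((h.R v).1 hv))
  · obtain ⟨c, h1, h2, -⟩ := hb.rC u hu
    rw [hy.pc u v c hu hv h1 h2, h.lC c v h1 hv, hz.pc _ _ (σ c) ((h.P u).1 hu) ((h.C v).1 hv)
      ((h.C c).1 h1) ((h.iC u c hu h1).1 h2)]
  · exact hp u v hu hv

/-- the relation given by a grid and a relation between the points -/
def tr (γ : Grid ℕ) (q : ℕ → ℕ → Prop) (u v : ℕ) : Prop :=
  (γ.R u ∧ γ.R v ∧ γ.lt u v) ∨ (γ.C u ∧ γ.C v ∧ γ.lt u v) ∨ (γ.R u ∧ γ.C v) ∨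
  (γ.R u ∧ γ.P v ∧ ∃ r, γ.R r ∧ γ.iR v r ∧ γ.lt u r) ∨
  (γ.P u ∧ γ.C v ∧ ∃ c, γ.C c ∧ γ.iC u c ∧ γ.lt c v) ∨
  (γ.P u ∧ γ.P v ∧ q u v)

theorem tr_rep {γ : Grid ℕ} (hb : Base γ) (q : ℕ → ℕ → Prop) : Rep γ (tr γ q) := by
  have d1 : ∀ u, γ.R u → ¬ γ.C u := hb.disj
  have d2 : ∀ u, γ.C u → ¬ γ.R u := fun u h1 h2 => hb.disj u h2 h1
  refine ⟨?_, ?_, ?_, ?_, ?_, ?_, ?_, ?_⟩
  · intro u v hu hv
    simp only [tr, P, hu, hv, d1 u hu, d1 v hv, true_and, false_and, and_false, or_false,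
      not_true_eq_false, not_false_eq_true]
  · intro u v hu hv
    simp only [tr, P, hu, hv, d2 u hu, d2 v hv, true_and, false_and, and_false, or_false, false_or,
      not_true_eq_false, not_false_eq_true]
  · intro u v hu hv
    simp only [tr, P, hu, hv, d1 u hu, d2 v hv, true_and, false_and, and_false, or_false, false_or,
      not_true_eq_false, not_false_eq_true]
  · intro u v hu hv
    simp only [tr, P, hu, hv, d2 u hu, d1 v hv, true_and, false_and, and_false, or_false, false_or,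
      not_true_eq_false, not_false_eq_true]
  · intro u v r hu hv hr hi
    simp only [tr, P, hu, hv.1, hv.2, d1 u hu, true_and, false_and, and_false, or_false, false_or,
      not_true_eq_false, not_false_eq_true]
    constructor
    · rintro ⟨r', h1, h2, h3⟩
      obtain ⟨r0, -, -, h4⟩ := hb.rR v hv
      rw [h4 r hr hi, ← h4 r' h1 h2]
      exact h3
    · intro h
      exact ⟨r, hr, hi, h⟩
  · intro u v hu hv
    simp only [tr, P, hu.1, hu.2, hv, d1 v hv, true_and, false_and, and_false, or_false, false_or,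
      not_true_eq_false, not_false_eq_true]
  · intro u v c hu hv hc hi
    simp only [tr, P, hu.1, hu.2, hv, d2 v hv, true_and, false_and, and_false, or_false, false_or,
      not_true_eq_false, not_false_eq_true]
    constructor
    · rintro ⟨r', h1, h2, h3⟩
      obtain ⟨r0, -, -, h4⟩ := hb.rC u hu
      rw [h4 c hc hi, ← h4 r' h1 h2]
      exact h3
    · intro h
      exact ⟨c, hc, hi, h⟩
  · intro u v hu hv
    simp only [tr, P, hu, hv.1, hv.2, d2 u hu, true_and, false_and, and_false, or_false, false_or,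
      not_true_eq_false, not_false_eq_true]

theorem tr_pp {γ : Grid ℕ} (q : ℕ → ℕ → Prop) {u v : ℕ} (hu : γ.P u) (hv : γ.P v) :
    tr γ q u v ↔ q u v := by
  simp only [tr, P, hu.1, hu.2, hv.1, hv.2, true_and, false_and, and_false, or_false, false_or,
      not_true_eq_false, not_false_eq_true]

end Pool.Agent.W889.VC
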