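import Pool.Agent.W889.VC.IO

set_option autoImplicit false

/-! Partial orders of dimension two. -/

namespace Pool.Agent.W889.VC

open Grid

/-- strict linear orders -/
structure SLO (l : ℕ → ℕ → Prop) : Prop where
  irrefl : ∀ m, ¬ l m m
  trans : ∀ a b c, l a b → l b c → l a c
  total : ∀ a b, a ≠ b → l a b ∨ l b a

/-- intersections of two linear orders -/
def TwoDim (y : BinStr) : Prop :=
  ∃ l1 l2 : ℕ → ℕ → Prop, SLO l1 ∧ SLO l2 ∧ ∀ m n, y m n = true ↔ (l1 m n ∧ l2 m n)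

/-- a row -/
def Rt (y : ℕ → ℕ → Prop) (u : ℕ) : Prop := ∀ b b', y b u → y b' u → b = b' ∨ y b b' ∨ y b' b

/-- a column -/
def Ct (y : ℕ → ℕ → Prop) (u : ℕ) : Prop := ∀ b b', y u b → y u b' → b = b' ∨ y b b' ∨ y b' b

/-- decoding -/
def DT (y : BinStr) : Grid ℕ :=
  mk (Rt fun u v => y u v = true) (Ct fun u v => y u v = true) (fun u v => y u v = true)

/-- the relation is represented by its grid -/
def WT (y : BinStr) : Prop :=
  Rep (DT y) (fun u v => y u v = true) ∧ PP2 (DT y) (fun u v => y u v = true) ∧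
    TW0 (DT y) (fun u v => y u v = true)

theorem td_dec {γ : Grid ℕ} (hb : Base γ) (hr0 : ∃ r, γ.R r) (hc0 : ∃ c, γ.C c)
    (hf : ∀ r c, γ.R r → γ.C c → ∃ p, γ.Fib r c p) {y : ℕ → ℕ → Prop} (hy : Rep γ y)
    (hp : PP2 γ y) : (∀ u, γ.R u ↔ Rt y u) ∧ ∀ u, γ.C u ↔ Ct y u := by
  -- two incomparable points
  have inc : ∀ r1 r2 c1 c2, γ.R r1 → γ.R r2 → γ.C c1 → γ.C c2 → γ.lt r1 r2 → γ.lt c1 c2 →
      ∃ p q, γ.Fib r1 c2 p ∧ γ.Fib r2 c1 q ∧ ¬ (p = q ∨ y p q ∨ y q p) := by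
    intro r1 r2 c1 c2 h1 h2 h3 h4 h5 h6
    obtain ⟨p, k1, k2, k3⟩ := hf r1 c2 h1 h4
    obtain ⟨q, k4, k5, k6⟩ := hf r2 c1 h2 h3
    have n1 : r1 ≠ r2 := fun h => hb.dR.irrefl r1 h1 (by rw [← h] at h5; exact h5)
    have n2 : c1 ≠ c2 := fun h => hb.dC.irrefl c1 h3 (by rw [← h] at h6; exact h6)
    have n3 : ¬ γ.lt r2 r1 := fun h => hb.dR.irrefl _ h1 (hb.dR.trans _ _ _ h1 h2 h1 h5 h)
    have n4 : ¬ γ.lt c2 c1 := fun h => hb.dC.irrefl _ h3 (hb.dC.trans _ _ _ h3 h4 h3 h6 h)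
    refine ⟨p, q, ⟨k1, k2, k3⟩, ⟨k4, k5, k6⟩, ?_⟩
    rintro (h | h | h)
    · subst h
      obtain ⟨r0, -, -, h7⟩ := hb.rR p k1
      exact n1 ((h7 _ h1 k2).trans (h7 _ h2 k5).symm)
    · rw [hp p q r1 c2 r2 c1 k1 k4 h1 k2 h4 k3 h2 k5 h3 k6 (fun h => n1 h.1)] at h
      rcases h.2 with h | h
      · exact n2 h.symm
      · exact n4 h
    · rw [hp q p r2 c1 r1 c2 k4 k1 h2 k5 h3 k6 h1 k2 h4 k3 (fun h => n1 h.1.symm)] at h
      rcases h.1 with h | h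
      · exact n1 h.symm
      · exact n3 h
  have hR : ∀ u, γ.R u → Rt y u := by
    intro u hu b b' h1 h2
    have rb : ∀ b, y b u → γ.R b := by
      intro b h
      rcases cases3 γ b with h' | h' | h'
      · exact h'
      · exact absurd h (hy.cr b u h' hu)
      · exact absurd h (hy.pr b u h' hu)
    by_cases hne : b = b'
    · exact Or.inl hne
    · right
      rw [hy.rr b b' (rb b h1) (rb b' h2), hy.rr b' b (rb b' h2) (rb b h1)]
      exact hb.dR.total _ _ (rb b h1) (rb b' h2) hne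
  have hC : ∀ u, γ.C u → Ct y u := by
    intro u hu b b' h1 h2
    have rb : ∀ b, y u b → γ.C b := by
      intro b h
      rcases cases3 γ b with h' | h' | h'
      · exact absurd h (hy.cr u b hu h')
      · exact h'
      · exact absurd h (hy.cp u b hu h')
    by_cases hne : b = b'
    · exact Or.inl hne
    · right
      rw [hy.cc b b' (rb b h1) (rb b' h2), hy.cc b' b (rb b' h2) (rb b h1)]
      exact hb.dC.total _ _ (rb b h1) (rb b' h2) hne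
  refine ⟨fun u => ⟨hR u, fun h => ?_⟩, fun u => ⟨hC u, fun h => ?_⟩⟩
  · rcases cases3 γ u with hu | hu | hu
    · exact hu
    · -- column: two incomparable points below
      exfalso
      obtain ⟨c2, h1, h2⟩ := hb.dC.below u hu
      obtain ⟨c1, h3, h4⟩ := hb.dC.below c2 h1
      have h5 : γ.lt c1 u := hb.dC.trans _ _ _ h3 h1 hu h4 h2
      obtain ⟨r2, h6⟩ := hr0
      obtain ⟨r1, h7, h8⟩ := hb.dR.below r2 h6
      obtain ⟨p, q, k1, k2, k3⟩ := inc r1 r2 c1 c2 h7 h6 h3 h1 h8 h4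
      exact k3 (h p q ((hy.pc p u c2 k1.1 hu h1 k1.2.2).2 h2)
        ((hy.pc q u c1 k2.1 hu h3 k2.2.2).2 h5))
    · exfalso
      obtain ⟨r2, h1, h2, -⟩ := hb.rR u hu
      obtain ⟨c2, h3, h4, -⟩ := hb.rC u hu
      obtain ⟨r1, h5, h6⟩ := hb.dR.below r2 h1
      obtain ⟨c1, h7, h8⟩ := hb.dC.below c2 h3
      obtain ⟨p, q, k1, k2, k3⟩ := inc r1 r2 c1 c2 h5 h1 h7 h3 h6 h8
      have n1 : r1 ≠ r2 := fun h => hb.dR.irrefl r1 h5 (by rw [← h] at h6; exact h6)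
      have n2 : c1 ≠ c2 := fun h => hb.dC.irrefl c1 h7 (by rw [← h] at h8; exact h8)
      refine k3 (h p q ?_ ?_)
      · rw [hp p u r1 c2 r2 c2 k1.1 hu h5 k1.2.1 h3 k1.2.2 h1 h2 h3 h4 (fun h => n1 h.1)]
        exact ⟨Or.inr h6, Or.inl rfl⟩
      · rw [hp q u r2 c1 r2 c2 k2.1 hu h1 k2.2.1 h7 k2.2.2 h1 h2 h3 h4 (fun h => n2 h.2)]
        exact ⟨Or.inl rfl, Or.inr h8⟩
  · rcases cases3 γ u with hu | hu | hu
    · -- row: two incomparable points above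
      exfalso
      obtain ⟨r1, h1, h2⟩ := hb.dR.above u hu
      obtain ⟨r2, h3, h4⟩ := hb.dR.above r1 h1
      have h5 : γ.lt u r2 := hb.dR.trans _ _ _ hu h1 h3 h2 h4
      obtain ⟨c1, h6⟩ := hc0
      obtain ⟨c2, h7, h8⟩ := hb.dC.above c1 h6
      obtain ⟨p, q, k1, k2, k3⟩ := inc r1 r2 c1 c2 h1 h3 h6 h7 h4 h8
      exact k3 (h p q ((hy.rp u p r1 hu k1.1 h1 k1.2.1).2 h2)
        ((hy.rp u q r2 hu k2.1 h3 k2.2.1).2 h5))
    · exact hu
    · exfalso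
      obtain ⟨r1, h1, h2, -⟩ := hb.rR u hu
      obtain ⟨c1, h3, h4, -⟩ := hb.rC u hu
      obtain ⟨r2, h5, h6⟩ := hb.dR.above r1 h1
      obtain ⟨c2, h7, h8⟩ := hb.dC.above c1 h3
      obtain ⟨p, q, k1, k2, k3⟩ := inc r1 r2 c1 c2 h1 h5 h3 h7 h6 h8
      have n1 : r1 ≠ r2 := fun h => hb.dR.irrefl r1 h1 (by rw [← h] at h6; exact h6)
      have n2 : c1 ≠ c2 := fun h => hb.dC.irrefl c1 h3 (by rw [← h] at h8; exact h8)
      refine k3 (h p q ?_ ?_)
      · rw [hp u p r1 c1 r1 c2 hu k1.1 h1 h2 h3 h4 h1 k1.2.1 h7 k1.2.2 (fun h => n2 h.2)]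
        exact ⟨Or.inl rfl, Or.inr h8⟩
      · rw [hp u q r1 c1 r2 c1 hu k2.1 h1 h2 h3 h4 h5 k2.2.1 h3 k2.2.2 (fun h => n1 h.1)]
        exact ⟨Or.inr h6, Or.inl rfl⟩

theorem Rt_equi {σ : Equiv.Perm ℕ} {y z : ℕ → ℕ → Prop} (hyz : ∀ u v, y u v ↔ z (σ u) (σ v))
    (u : ℕ) : Rt y u ↔ Rt z (σ u) := by
  constructor
  · intro h b b' h1 h2
    have e := σ.apply_symm_apply b
    have e' := σ.apply_symm_apply b'
    rw [← e] at h1 ⊢
    rw [← e'] at h2 ⊢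
    rw [← hyz] at h1 h2
    rcases h _ _ h1 h2 with h | h | h
    · exact Or.inl (congrArg σ h)
    · exact Or.inr (Or.inl ((hyz _ _).1 h))
    · exact Or.inr (Or.inr ((hyz _ _).1 h))
  · intro h b b' h1 h2
    rcases h _ _ ((hyz _ _).1 h1) ((hyz _ _).1 h2) with h | h | h
    · exact Or.inl (σ.injective h)
    · exact Or.inr (Or.inl ((hyz _ _).2 h))
    · exact Or.inr (Or.inr ((hyz _ _).2 h))

theorem Ct_equi {σ : Equiv.Perm ℕ} {y z : ℕ → ℕ → Prop} (hyz : ∀ u v, y u v ↔ z (σ u) (σ v))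
    (u : ℕ) : Ct y u ↔ Ct z (σ u) := by
  constructor
  · intro h b b' h1 h2
    have e := σ.apply_symm_apply b
    have e' := σ.apply_symm_apply b'
    rw [← e] at h1 ⊢
    rw [← e'] at h2 ⊢
    rw [← hyz] at h1 h2
    rcases h _ _ h1 h2 with h | h | h
    · exact Or.inl (congrArg σ h)
    · exact Or.inr (Or.inl ((hyz _ _).1 h))
    · exact Or.inr (Or.inr ((hyz _ _).1 h))
  · intro h b b' h1 h2
    rcases h _ _ ((hyz _ _).1 h1) ((hyz _ _).1 h2) with h | h | h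
    · exact Or.inl (σ.injective h)
    · exact Or.inr (Or.inl ((hyz _ _).2 h))
    · exact Or.inr (Or.inr ((hyz _ _).2 h))

section meas

variable {Y : Type} [MeasurableSpace Y] {r : ℕ → ℕ → Y → Prop}

theorem bp_Rt (h : ∀ u v, BP (r u v)) (u : ℕ) : BP (fun y => Rt (fun u v => r u v y) u) :=
  BP.all fun b => BP.all fun b' => (h b u).imp <| (h b' u).imp <|
    (BP.const (b = b')).or ((h b b').or (h b' b))

theorem bp_Ct (h : ∀ u v, BP (r u v)) (u : ℕ) : BP (fun y => Ct (fun u v => r u v y) u) :=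
  BP.all fun b => BP.all fun b' => (h u b).imp <| (h u b').imp <|
    (BP.const (b = b')).or ((h b b').or (h b' b))

theorem bp_pp2 {D : Y → Grid ℕ} (hD : MG D) (h : ∀ u v, BP (r u v)) :
    BP (fun y => PP2 (D y) (fun u v => r u v y)) :=
  BP.all fun u => BP.all fun v => BP.all fun r1 => BP.all fun c1 => BP.all fun r2 =>
    BP.all fun c2 => (hD.P u).imp <| (hD.P v).imp <| (hD.R r1).imp <| (hD.iR u r1).imp <|
    (hD.C c1).imp <| (hD.iC u c1).imp <| (hD.R r2).imp <| (hD.iR v r2).imp <|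
    (hD.C c2).imp <| (hD.iC v c2).imp <| (BP.const _).imp <|
    (h u v).iff (((BP.const (r1 = r2)).or (hD.lt r1 r2)).and
      ((BP.const (c1 = c2)).or (hD.lt c1 c2)))

theorem bp_tw0 {D : Y → Grid ℕ} (hD : MG D) (h : ∀ u v, BP (r u v)) :
    BP (fun y => TW0 (D y) (fun u v => r u v y)) :=
  BP.all fun u => BP.all fun v => BP.all fun r1 => BP.all fun c1 =>
    (hD.R r1).imp <| (hD.C c1).imp <| (hD.Fib r1 c1 u).imp <| (hD.Fib r1 c1 v).imp (h u v).not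

end meas

/-! ### two linear orders -/

theorem ord_emb {S : Type} [Countable S] (r : S → S → Prop) (h1 : ∀ a, ¬ r a a)
    (h2 : ∀ a b c, r a b → r b c → r a c) (h3 : ∀ a b, a ≠ b → r a b ∨ r b a) :
    ∃ f : S → ℚ, ∀ a b, r a b ↔ f a < f b := by
  classical
  have hS : IsStrictTotalOrder S r :=
    { irrefl := h1
      trans := h2
      trichotomous := by
        intro a b h4 h5
        by_contra hne
        rcases h3 a b hne with h | h
        · exact h4 h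
        · exact h5 h }
  let o : LinearOrder S := linearOrderOfSTO r
  obtain ⟨e⟩ := Order.embedding_from_countable_to_dense S ℚ
  exact ⟨e, fun a b => (e.lt_iff_lt (a := a) (b := b)).symm⟩

/-- positions of the rows and of the columns -/
theorem exists_pos {γ : Grid ℕ} (hb : Base γ) : ∃ pos : ℕ → ℚ,
    ∀ u v, (γ.R u ∨ γ.C u) → (γ.R v ∨ γ.C v) → (before γ u v ↔ pos u < pos v) := by
  classical
  obtain ⟨e, he⟩ := ord_emb (S := {u : ℕ // γ.R u ∨ γ.C u}) (fun a b => before γ a.1 b.1)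
    (fun a => before_irrefl hb a.1) (fun a b c => before_trans hb)
    (fun a b h => before_total hb a.2 b.2 (fun h' => h (Subtype.ext h')))
  refine ⟨fun u => if h : γ.R u ∨ γ.C u then e ⟨u, h⟩ else 0, fun u v hu hv => ?_⟩
  simp only [dif_pos hu, dif_pos hv]
  exact he ⟨u, hu⟩ ⟨v, hv⟩

theorem slo_of_key {K : Type} [LinearOrder K] (k : ℕ → K) (hk : ∀ u v, k u = k v → u = v) :
    SLO (fun u v => k u < k v) :=
  ⟨fun _ => lt_irrefl _, fun _ _ _ h h' => lt_trans h h', fun a b h =>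
    lt_or_gt_of_ne fun h' => h (hk a b h')⟩

/-- the orientation of the incomparable pairs -/
structure Or1 (γ : Grid ℕ) (y y1 : ℕ → ℕ → Prop) : Prop where
  pr : ∀ u v, γ.P u → γ.R v → ¬ y v u → y1 u v
  pc : ∀ u v, γ.P u → γ.C v → y1 u v
  pp : ∀ u v r r', γ.P u → γ.P v → γ.R r → γ.iR u r → γ.R r' → γ.iR v r' → γ.lt r r' → y1 u v

/-- two linear orders representing a grid -/
theorem exists_real {γ : Grid ℕ} (hb : Base γ) : ∃ L1 L2 : ℕ → ℕ → Prop, SLO L1 ∧ SLO L2 ∧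
    Rep γ (fun u v => L1 u v ∧ L2 u v) ∧ PP2 γ (fun u v => L1 u v ∧ L2 u v) ∧
    TW0 γ (fun u v => L1 u v ∧ L2 u v) ∧ Or1 γ (fun u v => L1 u v ∧ L2 u v) L1 := by
  classical
  obtain ⟨l, r, h1, h2, h3⟩ := exists_ends hb
  obtain ⟨pos, hpos⟩ := exists_pos hb
  have mR : ∀ {u v}, γ.R u → γ.R v → (γ.lt u v ↔ pos u < pos v) := by
    intro u v hu hv
    rw [← hpos u v (Or.inl hu) (Or.inl hv)]
    have := hb.disj u hu
    have := hb.disj v hv
    simp [before, *]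
  have mC : ∀ {u v}, γ.C u → γ.C v → (γ.lt u v ↔ pos u < pos v) := by
    intro u v hu hv
    rw [← hpos u v (Or.inr hu) (Or.inr hv)]
    have e1 : ¬ γ.R u := fun h => hb.disj u h hu
    have e2 : ¬ γ.R v := fun h => hb.disj v h hv
    simp [before, *]
  have mRC : ∀ {u v}, γ.R u → γ.C v → pos u < pos v := fun {u v} hu hv =>
    (hpos u v (Or.inl hu) (Or.inr hv)).1 (Or.inr (Or.inr ⟨hu, hv⟩))
  have inj : ∀ {u v}, (γ.R u ∨ γ.C u) → (γ.R v ∨ γ.C v) → (pos u = pos v ↔ u = v) := by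
    intro u v hu hv
    refine ⟨fun h => ?_, fun h => by rw [h]⟩
    by_contra hne
    rcases before_total hb hu hv hne with h' | h'
    · exact absurd ((hpos u v hu hv).1 h') (by rw [h]; exact lt_irrefl _)
    · exact absurd ((hpos v u hv hu).1 h') (by rw [h]; exact lt_irrefl _)
  let tag1 : ℕ → ℚ := fun u => if γ.P u then 0 else 1
  let tag2 : ℕ → ℚ := fun u => if γ.P u then 1 else 0
  have t1P : ∀ {u}, γ.P u → tag1 u = 0 := fun h => if_pos h
  have t2P : ∀ {u}, γ.P u → tag2 u = 1 := fun h => if_pos h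
  have t1R : ∀ {u}, γ.R u → tag1 u = 1 := fun h => if_neg (fun h' => h'.1 h)
  have t2R : ∀ {u}, γ.R u → tag2 u = 0 := fun h => if_neg (fun h' => h'.1 h)
  have t1C : ∀ {u}, γ.C u → tag1 u = 1 := fun h => if_neg (fun h' => h'.2 h)
  have t2C : ∀ {u}, γ.C u → tag2 u = 0 := fun h => if_neg (fun h' => h'.2 h)
  let q1 : ℕ → ℚ ×ₗ ℚ ×ₗ ℚ ×ₗ ℚ := fun u =>
    toLex (pos (l u), toLex (tag1 u, toLex (pos (r u), (u : ℚ))))
  let q2 : ℕ → ℚ ×ₗ ℚ ×ₗ ℚ ×ₗ ℚ := fun u =>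
    toLex (pos (r u), toLex (tag2 u, toLex (pos (l u), (-(u : ℚ)))))
  have e1 : ∀ u v, q1 u < q1 v ↔ pos (l u) < pos (l v) ∨ (pos (l u) = pos (l v) ∧
      (tag1 u < tag1 v ∨ (tag1 u = tag1 v ∧ (pos (r u) < pos (r v) ∨
      (pos (r u) = pos (r v) ∧ u < v))))) := by
    intro u v
    simp only [q1, Prod.Lex.toLex_lt_toLex, Nat.cast_lt]
  have e2 : ∀ u v, q2 u < q2 v ↔ pos (r u) < pos (r v) ∨ (pos (r u) = pos (r v) ∧
      (tag2 u < tag2 v ∨ (tag2 u = tag2 v ∧ (pos (l u) < pos (l v) ∨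
      (pos (l u) = pos (l v) ∧ v < u))))) := by
    intro u v
    simp only [q2, Prod.Lex.toLex_lt_toLex, neg_lt_neg_iff, Nat.cast_lt]
  refine ⟨fun u v => q1 u < q1 v, fun u v => q2 u < q2 v, slo_of_key q1 ?_, slo_of_key q2 ?_,
    ?_, ?_, ?_, ?_⟩
  · intro u v h
    simp only [q1, EmbeddingLike.apply_eq_iff_eq, Prod.mk.injEq, Nat.cast_inj] at h
    exact h.2.2.2
  · intro u v h
    simp only [q2, EmbeddingLike.apply_eq_iff_eq, Prod.mk.injEq, neg_inj, Nat.cast_inj] at h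
    exact h.2.2.2
  · refine ⟨?_, ?_, ?_, ?_, ?_, ?_, ?_, ?_⟩
    · intro u v hu hv
      simp only [e1, e2, (h1 u hu).1, (h1 u hu).2, (h1 v hv).1, (h1 v hv).2, t1R hu, t1R hv,
        t2R hu, t2R hv, mR hu hv, inj (Or.inl hu) (Or.inl hv), lt_irrefl, true_and, false_or]
      constructor
      · rintro ⟨h | ⟨rfl, h | ⟨-, h⟩⟩, h' | ⟨-, h' | ⟨-, h'⟩⟩⟩
        all_goals first
          | exact h
          | exact h'
          | omega
      · intro h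
        exact ⟨Or.inl h, Or.inl h⟩
    · intro u v hu hv
      simp only [e1, e2, (h2 u hu).1, (h2 u hu).2, (h2 v hv).1, (h2 v hv).2, t1C hu, t1C hv,
        t2C hu, t2C hv, mC hu hv, inj (Or.inr hu) (Or.inr hv), lt_irrefl, true_and, false_or]
      constructor
      · rintro ⟨h | ⟨rfl, h | ⟨-, h⟩⟩, h' | ⟨-, h' | ⟨-, h'⟩⟩⟩
        all_goals first
          | exact h
          | exact h'
          | omega
      · intro h
        exact ⟨Or.inl h, Or.inl h⟩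
    · intro u v hu hv
      beta_reduce
      rw [e1, e2, (h1 u hu).1, (h1 u hu).2, (h2 v hv).1, (h2 v hv).2]
      exact ⟨Or.inl (mRC hu hv), Or.inl (mRC hu hv)⟩
    · intro u v hu hv
      beta_reduce
      rw [e1, e2, (h2 u hu).1, (h2 u hu).2, (h1 v hv).1, (h1 v hv).2]
      have := mRC hv hu
      rintro ⟨h | ⟨h, -⟩, -⟩
      · exact absurd h (not_lt.2 this.le)
      · exact absurd h this.ne'
    · intro u v r' hu hv hr hi
      obtain ⟨⟨k1, k2⟩, ⟨k3, k4⟩⟩ := h3 v hv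
      obtain ⟨r0, -, -, h4⟩ := hb.rR v hv
      have hl : l v = r' := (h4 _ k1 k2).trans (h4 r' hr hi).symm
      beta_reduce
      rw [e1, e2, (h1 u hu).1, (h1 u hu).2, hl, t1R hu, t1P hv, mR hu hr]
      constructor
      · rintro ⟨h | ⟨-, h | ⟨h, -⟩⟩, -⟩
        · exact h
        · exact absurd h (by norm_num)
        · exact absurd h (by norm_num)
      · intro h
        exact ⟨Or.inl h, Or.inl (mRC hu k3)⟩
    · intro u v hu hv
      obtain ⟨⟨k1, k2⟩, ⟨k3, k4⟩⟩ := h3 u hu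
      beta_reduce
      rw [e2, (h1 v hv).2]
      have := mRC hv k3
      rintro ⟨-, h | ⟨h, -⟩⟩
      · exact absurd h (not_lt.2 this.le)
      · exact absurd h this.ne'
    · intro u v c hu hv hc hi
      obtain ⟨⟨k1, k2⟩, ⟨k3, k4⟩⟩ := h3 u hu
      obtain ⟨r0, -, -, h4⟩ := hb.rC u hu
      have hl : r u = c := (h4 _ k3 k4).trans (h4 c hc hi).symm
      beta_reduce
      rw [e1, e2, (h2 v hv).1, (h2 v hv).2, hl, t2C hv, t2P hu, mC hc hv]
      constructor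
      · rintro ⟨-, h | ⟨-, h | ⟨h, -⟩⟩⟩
        · exact h
        · exact absurd h (by norm_num)
        · exact absurd h (by norm_num)
      · intro h
        exact ⟨Or.inl (mRC k1 hv), Or.inl h⟩
    · intro u v hu hv
      obtain ⟨⟨k1, k2⟩, ⟨k3, k4⟩⟩ := h3 v hv
      beta_reduce
      rw [e1, (h2 u hu).1]
      have := mRC k1 hu
      rintro ⟨h | ⟨h, -⟩, -⟩
      · exact absurd h (not_lt.2 this.le)
      · exact absurd h this.ne'
  · intro u v r1 c1 r2 c2 hu hv hr1 i1 hc1 i2 hr2 i3 hc2 i4 hne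
    obtain ⟨⟨k1, k2⟩, ⟨k3, k4⟩⟩ := h3 u hu
    obtain ⟨⟨k5, k6⟩, ⟨k7, k8⟩⟩ := h3 v hv
    obtain ⟨_, -, -, h4⟩ := hb.rR u hu
    obtain ⟨_, -, -, h5⟩ := hb.rC u hu
    obtain ⟨_, -, -, h6⟩ := hb.rR v hv
    obtain ⟨_, -, -, h7⟩ := hb.rC v hv
    beta_reduce
    rw [e1, e2, (h4 _ k1 k2).trans (h4 r1 hr1 i1).symm, (h6 _ k5 k6).trans (h6 r2 hr2 i3).symm,
      (h5 _ k3 k4).trans (h5 c1 hc1 i2).symm, (h7 _ k7 k8).trans (h7 c2 hc2 i4).symm,
      t1P hu, t1P hv, t2P hu, t2P hv, mR hr1 hr2, mC hc1 hc2, inj (Or.inl hr1) (Or.inl hr2),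
      inj (Or.inr hc1) (Or.inr hc2)]
    constructor
    · rintro ⟨h | ⟨h, h' | ⟨-, h' | ⟨h', -⟩⟩⟩, k | ⟨k, k' | ⟨-, k' | ⟨k', -⟩⟩⟩⟩
      all_goals first
        | exact ⟨Or.inr h, Or.inr k⟩
        | exact ⟨Or.inl h, Or.inr k⟩
        | exact ⟨Or.inr h, Or.inl k⟩
        | exact ⟨Or.inl h, Or.inl k⟩
        | exact absurd h' (lt_irrefl _)
        | exact absurd k' (lt_irrefl _)
    · rintro ⟨h | h, k | k⟩
      · exact absurd ⟨h, k⟩ hne
      · exact ⟨Or.inr ⟨h, Or.inr ⟨rfl, Or.inl k⟩⟩, Or.inl k⟩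
      · exact ⟨Or.inl h, Or.inr ⟨k, Or.inr ⟨rfl, Or.inl h⟩⟩⟩
      · exact ⟨Or.inl h, Or.inl k⟩
  · rintro u v r1 c1 hr hc ⟨hu, i1, i2⟩ ⟨hv, i3, i4⟩
    obtain ⟨⟨k1, k2⟩, ⟨k3, k4⟩⟩ := h3 u hu
    obtain ⟨⟨k5, k6⟩, ⟨k7, k8⟩⟩ := h3 v hv
    obtain ⟨_, -, -, h4⟩ := hb.rR u hu
    obtain ⟨_, -, -, h5⟩ := hb.rC u hu
    obtain ⟨_, -, -, h6⟩ := hb.rR v hv
    obtain ⟨_, -, -, h7⟩ := hb.rC v hv
    beta_reduce
    rw [e1, e2, (h4 _ k1 k2).trans (h4 r1 hr i1).symm, (h6 _ k5 k6).trans (h6 r1 hr i3).symm,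
      (h5 _ k3 k4).trans (h5 c1 hc i2).symm, (h7 _ k7 k8).trans (h7 c1 hc i4).symm,
      t1P hu, t1P hv, t2P hu, t2P hv]
    simp only [lt_irrefl, true_and, false_or]
    omega
  · refine ⟨?_, ?_, ?_⟩
    · intro u v hu hv h
      obtain ⟨⟨k1, k2⟩, ⟨k3, k4⟩⟩ := h3 u hu
      have h8 : q2 v < q2 u := by
        beta_reduce
        rw [e2, (h1 v hv).2]
        exact Or.inl (mRC hv k3)
      rcases lt_trichotomy (q1 u) (q1 v) with h9 | h9 | h9
      · exact h9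
      · exact absurd (congrArg (fun z => (ofLex (ofLex (ofLex z).2).2).2) h9) (by
          simp only [q1, ofLex_toLex, Nat.cast_inj]
          rintro rfl
          exact hu.1 hv)
      · exact absurd ⟨h9, h8⟩ h
    · intro u v hu hv
      obtain ⟨⟨k1, k2⟩, ⟨k3, k4⟩⟩ := h3 u hu
      beta_reduce
      rw [e1, (h2 v hv).1]
      exact Or.inl (mRC k1 hv)
    · intro u v r1 r2 hu hv hr1 i1 hr2 i2 hlt
      obtain ⟨⟨k1, k2⟩, -⟩ := h3 u hu
      obtain ⟨⟨k5, k6⟩, -⟩ := h3 v hv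
      obtain ⟨_, -, -, h4⟩ := hb.rR u hu
      obtain ⟨_, -, -, h6⟩ := hb.rR v hv
      beta_reduce
      rw [e1, (h4 _ k1 k2).trans (h4 r1 hr1 i1).symm, (h6 _ k5 k6).trans (h6 r2 hr2 i2).symm]
      exact Or.inl ((mR hr1 hr2).1 hlt)

end Pool.Agent.W889.VC
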