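import Pool.Agent.W889.VC.Ex

set_option autoImplicit false

/-! Measurability of decoding, and the transfer of the dichotomy. -/

namespace Pool.Agent.W889.VC

open Set

/-! ### measurable predicates -/

section BP

variable {Y : Type} [MeasurableSpace Y]

/-- measurable predicate -/
def BP (p : Y → Prop) : Prop := MeasurableSet {y | p y}

theorem BP.not {p : Y → Prop} (h : BP p) : BP (fun y => ¬ p y) := MeasurableSet.compl h

theorem BP.and {p q : Y → Prop} (h : BP p) (h' : BP q) : BP (fun y => p y ∧ q y) :=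
  MeasurableSet.inter h h'

theorem BP.or {p q : Y → Prop} (h : BP p) (h' : BP q) : BP (fun y => p y ∨ q y) :=
  MeasurableSet.union h h'

theorem BP.imp {p q : Y → Prop} (h : BP p) (h' : BP q) : BP (fun y => p y → q y) := by
  have : BP (fun y => ¬ p y ∨ q y) := h.not.or h'
  refine (congrArg MeasurableSet (Set.ext fun y => ?_)).mp this
  show (¬ p y ∨ q y) ↔ (p y → q y)
  exact imp_iff_not_or.symm

theorem BP.iff {p q : Y → Prop} (h : BP p) (h' : BP q) : BP (fun y => p y ↔ q y) := by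
  have : BP (fun y => (p y → q y) ∧ (q y → p y)) := (h.imp h').and (h'.imp h)
  refine (congrArg MeasurableSet (Set.ext fun y => ?_)).mp this
  show ((p y → q y) ∧ (q y → p y)) ↔ (p y ↔ q y)
  exact iff_def.symm

theorem BP.all {ι : Type} [Countable ι] {p : ι → Y → Prop} (h : ∀ i, BP (p i)) :
    BP (fun y => ∀ i, p i y) := by
  refine (congrArg MeasurableSet (Set.ext fun y => ?_)).mp (MeasurableSet.iInter h)
  rw [mem_iInter]
  rfl

theorem BP.ex {ι : Type} [Countable ι] {p : ι → Y → Prop} (h : ∀ i, BP (p i)) :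
    BP (fun y => ∃ i, p i y) := by
  refine (congrArg MeasurableSet (Set.ext fun y => ?_)).mp (MeasurableSet.iUnion h)
  rw [mem_iUnion]
  rfl

theorem BP.const (c : Prop) : BP (fun _ : Y => c) := MeasurableSet.const c

theorem BP.congr {p q : Y → Prop} (h : BP p) (hpq : ∀ y, p y ↔ q y) : BP q :=
  (congrArg MeasurableSet (Set.ext hpq)).mp h

/-- grids depending measurably on a point -/
structure MG (D : Y → Grid ℕ) : Prop where
  R : ∀ u, BP (fun y => (D y).R u)
  C : ∀ u, BP (fun y => (D y).C u)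
  lt : ∀ u v, BP (fun y => (D y).lt u v)
  iR : ∀ u v, BP (fun y => (D y).iR u v)
  iC : ∀ u v, BP (fun y => (D y).iC u v)

variable {D : Y → Grid ℕ} {a : ℕ → ℕ}

theorem MG.P (h : MG D) (u : ℕ) : BP (fun y => (D y).P u) := (h.R u).not.and (h.C u).not

theorem MG.Fib (h : MG D) (r c p : ℕ) : BP (fun y => (D y).Fib r c p) :=
  (h.P p).and ((h.iR p r).and (h.iC p c))

theorem MG.Mult (h : MG D) (r c k : ℕ) : BP (fun y => (D y).Mult r c k) :=
  BP.ex fun s : Finset ℕ => (BP.const _).and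
    (BP.all fun p => (BP.const (p ∈ s)).iff (h.Fib r c p))

theorem MG.Same (h : MG D) (r r' : ℕ) : BP (fun y => (D y).Same r r') :=
  BP.all fun c => (h.C c).imp (BP.all fun k => (h.Mult r c k).iff (h.Mult r' c k))

theorem MG.SameC (h : MG D) (c c' : ℕ) : BP (fun y => (D y).SameC c c') :=
  BP.all fun r => (h.R r).imp (BP.all fun k => (h.Mult r c k).iff (h.Mult r c' k))

theorem MG.rep (h : MG D) (r : ℕ) : BP (fun y => (D y).rep r) :=
  (h.R r).and (BP.all fun r' => (BP.const (r' < r)).imp ((h.R r').imp (h.Same r' r).not))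

theorem MG.Rth (h : MG D) (n r : ℕ) : BP (fun y => (D y).Rth n r) :=
  (h.rep r).and (BP.ex fun s : Finset ℕ => (BP.const (s.card = n)).and
    (BP.all fun u => (BP.const (u ∈ s)).iff ((BP.const (u < r)).and (h.rep u))))

theorem MG.ColT (h : MG D) (c : ℕ) (t : Tup a) : BP (fun y => (D y).ColT c t) :=
  BP.all fun n => BP.all fun r => (h.Rth n r).imp (h.Mult r c (lam n t))

theorem MG.dec (h : MG D) : Measurable (fun y => Grid.dec a (D y)) := by
  refine measurable_pi_iff.2 fun i => measurable_pi_iff.2 fun v => ?_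
  refine measurable_to_bool ?_
  have : BP (fun y => ∃ c, (D y).C c ∧ (D y).ColT c (Sum.inr ⟨i, v⟩ : Tup a)) :=
    BP.ex fun c => (h.C c).and (h.ColT c _)
  refine (congrArg MeasurableSet (Set.ext fun y => ?_)).mp this
  simp [Grid.dec]

theorem BP.on {S : ℕ → Y → Prop} {l : ℕ → ℕ → Y → Prop} (hS : ∀ u, BP (S u))
    (hl : ∀ u v, BP (l u v)) : BP (fun y => Grid.On (fun u => S u y) (fun u v => l u v y)) := by
  have : BP (fun y => (∀ a, S a y → ¬ l a a y) ∧
      (∀ a b c, S a y → S b y → S c y → l a b y → l b c y → l a c y) ∧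
      (∀ a b, S a y → S b y → a ≠ b → l a b y ∨ l b a y) ∧
      (∀ a b, S a y → S b y → l a b y → ∃ c, S c y ∧ l a c y ∧ l c b y) ∧
      (∀ a, S a y → ∃ b, S b y ∧ l a b y) ∧ (∀ a, S a y → ∃ b, S b y ∧ l b a y)) :=
    (BP.all fun a => (hS a).imp (hl a a).not).and <|
    (BP.all fun a => BP.all fun b => BP.all fun c => (hS a).imp <| (hS b).imp <| (hS c).imp <|
      (hl a b).imp <| (hl b c).imp (hl a c)).and <|
    (BP.all fun a => BP.all fun b => (hS a).imp <| (hS b).imp <| (BP.const (a ≠ b)).imp <|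
      (hl a b).or (hl b a)).and <|
    (BP.all fun a => BP.all fun b => (hS a).imp <| (hS b).imp <| (hl a b).imp <|
      BP.ex fun c => (hS c).and ((hl a c).and (hl c b))).and <|
    (BP.all fun a => (hS a).imp <| BP.ex fun b => (hS b).and (hl a b)).and
    (BP.all fun a => (hS a).imp <| BP.ex fun b => (hS b).and (hl b a))
  exact this.congr fun y => ⟨fun ⟨h1, h2, h3, h4, h5, h6⟩ => ⟨h1, h2, h3, h4, h5, h6⟩,
    fun ⟨h1, h2, h3, h4, h5, h6⟩ => ⟨h1, h2, h3, h4, h5, h6⟩⟩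

theorem MG.Base (h : MG D) : BP (fun y => Grid.Base (D y)) := by
  have : BP (fun y => (∀ u, (D y).R u → ¬ (D y).C u) ∧
      Grid.On (fun u => (D y).R u) (fun u v => (D y).lt u v) ∧
      Grid.On (fun u => (D y).C u) (fun u v => (D y).lt u v) ∧
      (∀ p, (D y).P p → ∃ r, (D y).R r ∧ (D y).iR p r ∧
        ∀ r', (D y).R r' → (D y).iR p r' → r' = r) ∧
      (∀ p, (D y).P p → ∃ c, (D y).C c ∧ (D y).iC p c ∧
        ∀ c', (D y).C c' → (D y).iC p c' → c' = c)) :=
    (BP.all fun u => (h.R u).imp (h.C u).not).and <|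
    (BP.on h.R h.lt).and <| (BP.on h.C h.lt).and <|
    (BP.all fun p => (h.P p).imp <| BP.ex fun r => (h.R r).and <| (h.iR p r).and <|
      BP.all fun r' => (h.R r').imp <| (h.iR p r').imp (BP.const (r' = r))).and
    (BP.all fun p => (h.P p).imp <| BP.ex fun r => (h.C r).and <| (h.iC p r).and <|
      BP.all fun r' => (h.C r').imp <| (h.iC p r').imp (BP.const (r' = r)))
  exact this.congr fun y => ⟨fun ⟨h1, h2, h3, h4, h5⟩ => ⟨h1, h2, h3, h4, h5⟩,
    fun ⟨h1, h2, h3, h4, h5⟩ => ⟨h1, h2, h3, h4, h5⟩⟩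

theorem MG.GoodN (h : MG D) : BP (fun y => Grid.GoodN a (D y)) := by
  have hct : Countable (Tup a) := inferInstance
  have : BP (fun y => Grid.Base (D y) ∧
      (∀ r r1 r2, (D y).R r → (D y).R r1 → (D y).R r2 → (D y).lt r1 r2 →
        ∃ r', (D y).R r' ∧ (D y).lt r1 r' ∧ (D y).lt r' r2 ∧ (D y).Same r' r) ∧
      (∀ r r1 r2, (D y).C r → (D y).C r1 → (D y).C r2 → (D y).lt r1 r2 →
        ∃ r', (D y).C r' ∧ (D y).lt r1 r' ∧ (D y).lt r' r2 ∧ (D y).SameC r' r) ∧
      (∀ N, ∃ r, N ≤ r ∧ (D y).rep r) ∧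
      (∀ c, (D y).C c → ∃ t : Tup a, (D y).ColT c t) ∧
      (∀ n, ∃ c, (D y).C c ∧ (D y).ColT c (Sum.inl n : Tup a))) :=
    h.Base.and <|
    (BP.all fun r => BP.all fun r1 => BP.all fun r2 => (h.R r).imp <| (h.R r1).imp <|
      (h.R r2).imp <| (h.lt r1 r2).imp <| BP.ex fun r' => (h.R r').and <| (h.lt r1 r').and <|
      (h.lt r' r2).and (h.Same r' r)).and <|
    (BP.all fun r => BP.all fun r1 => BP.all fun r2 => (h.C r).imp <| (h.C r1).imp <|
      (h.C r2).imp <| (h.lt r1 r2).imp <| BP.ex fun r' => (h.C r').and <| (h.lt r1 r').and <|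
      (h.lt r' r2).and (h.SameC r' r)).and <|
    (BP.all fun N => BP.ex fun r => (BP.const (N ≤ r)).and (h.rep r)).and <|
    (BP.all fun c => (h.C c).imp <| BP.ex fun t => h.ColT c t).and
    (BP.all fun n => BP.ex fun c => (h.C c).and (h.ColT c _))
  exact this.congr fun y => ⟨fun ⟨h1, h2, h3, h4, h5, h6⟩ => ⟨h1, h2, h3, h4, h5, h6⟩,
    fun ⟨h1, h2, h3, h4, h5, h6⟩ => ⟨h1, h2, h3, h4, h5, h6⟩⟩

end BP

/-! ### the dichotomy -/

/-- Countably many classes, or a family of pairwise inequivalent elements indexed by the Cantor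
space (continuous if `cont`). -/
def Dich (cont : Prop) {X : Type} [TopologicalSpace X] (E : X → X → Prop) (B : Set X) : Prop :=
  (∃ f : ℕ → X, ∀ x ∈ B, ∃ n, E (f n) x) ∨
  (∃ g : (ℕ → Bool) → X, (cont → Continuous g) ∧ (∀ c, g c ∈ B) ∧ ∀ c d, E (g c) (g d) → c = d)

/-- Vaught's conjecture for the invariant Borel subsets of a class. -/
def VCof (cont : Prop) {X : Type} [TopologicalSpace X] [MeasurableSpace X] (E : X → X → Prop)
    (K : X → Prop) : Prop :=
  ∀ B : Set X, MeasurableSet B → (∀ x y, E x y → (x ∈ B ↔ y ∈ B)) → (∀ x ∈ B, K x) →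
    Dich cont E B

theorem Iso.refl {a : ℕ → ℕ} (x : Str a) : Iso x x := ⟨1, fun _ _ => rfl⟩

theorem Iso.symm {a : ℕ → ℕ} {x y : Str a} (h : Iso x y) : Iso y x := by
  obtain ⟨σ, h⟩ := h
  refine ⟨σ⁻¹, fun i v => ?_⟩
  have := h i (⇑σ⁻¹ ∘ v)
  rw [← this]
  congr 1
  funext j
  simp

theorem Iso.trans {a : ℕ → ℕ} {x y z : Str a} (h : Iso x y) (h' : Iso y z) : Iso x z := by
  obtain ⟨σ, h⟩ := h
  obtain ⟨τ, h'⟩ := h'
  refine ⟨τ * σ, fun i v => ?_⟩
  have := h' i (⇑σ ∘ v)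
  rw [h] at this
  exact this

theorem uncountable_cantor : ¬ (univ : Set (ℕ → Bool)).Countable := by
  intro h
  rw [countable_univ_iff] at h
  obtain ⟨f, hf⟩ := exists_surjective_nat (ℕ → Bool)
  obtain ⟨n, hn⟩ := hf (fun k => !(f k k))
  have := congrFun hn n
  simp at this

/-- Borel families of pairwise inequivalent structures can be made continuous. -/
theorem cont_of_meas {X : Type} [TopologicalSpace X] [SecondCountableTopology X]
    [MeasurableSpace X] [OpensMeasurableSpace X] {F : (ℕ → Bool) → X} (hF : Measurable F) :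
    ∃ h : (ℕ → Bool) → (ℕ → Bool), Function.Injective h ∧ Continuous (F ∘ h) := by
  have hp1 : SecondCountableTopology (ℕ → Bool) := inferInstance
  have hp2 : TopologicalSpace.SeparableSpace (ℕ → Bool) := inferInstance
  have hp3 : TopologicalSpace.IsCompletelyMetrizableSpace (ℕ → Bool) := inferInstance
  have hp0 : PolishSpace (ℕ → Bool) := inferInstance
  obtain ⟨t', hle, hc, hp⟩ := hF.exists_continuous
  obtain ⟨h, -, h2, h3⟩ := @IsClosed.exists_nat_bool_injection_of_not_countable (ℕ → Bool) t' hp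
    univ (@isClosed_univ _ t') uncountable_cantor
  refine ⟨h, h3, ?_⟩
  exact @Continuous.comp _ _ _ Pi.topologicalSpace t' _ h F hc h2

/-- A class of structures in which grids can be described. -/
structure Target {Y : Type} [TopologicalSpace Y] [MeasurableSpace Y] (E : Y → Y → Prop)
    (K : Y → Prop) (D : Y → Grid ℕ) (W : Y → Prop) : Prop where
  symm : ∀ y z, E y z → E z y
  mg : MG D
  mW : BP W
  inv : ∀ y z, E y z → W y → W z
  iso : ∀ y z, E y z → ∃ σ : Equiv.Perm ℕ, Grid.GIso σ (D y) (D z)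
  iso' : ∀ y z, W y → W z → Grid.Base (D y) → Grid.Base (D z) →
    (∃ σ : Equiv.Perm ℕ, Grid.GIso σ (D y) (D z)) → E y z
  ex : ∀ γ : Grid ℕ, Grid.Base γ → (∃ r, γ.R r) → (∃ c, γ.C c) →
    (∀ r c, γ.R r → γ.C c → ∃ p, γ.Fib r c p) → (∀ r c, γ.R r → γ.C c → ∃ k, γ.Mult r c k) →
    ∃ y, W y ∧ Grid.GIso (Equiv.refl ℕ) γ (D y)
  cls : ∀ y, W y → Grid.Base (D y) → K y

/-- **Transfer**: Vaught's conjecture for a class in which grids can be described implies Vaught's
conjecture. -/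
theorem Target.vaught {Y : Type} [TopologicalSpace Y] [MeasurableSpace Y]
    [BorelSpace Y] {E : Y → Y → Prop} {K : Y → Prop} {D : Y → Grid ℕ} {W : Y → Prop}
    (T : Target E K D W) (cont : Prop) (hY : VCof cont E K) (a : ℕ → ℕ) :
    VCof cont (Iso (a := a)) (fun _ => True) := by
  intro B hB hinv _
  have key : ∀ y z, E y z → Grid.GoodN a (D y) →
      Grid.GoodN a (D z) ∧ Iso (Grid.dec a (D z)) (Grid.dec a (D y)) := by
    intro y z h1 h2
    obtain ⟨σ, h3⟩ := T.iso y z h1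
    obtain ⟨κ, κ', h4⟩ := Grid.lab_of_good h2
    exact Grid.good_of_lab (h3.base h2.base) (h3.lab h4)
  have hmd : Measurable (fun y => Grid.dec a (D y)) := T.mg.dec
  let B' : Set Y := {y | (W y ∧ Grid.GoodN a (D y)) ∧ Grid.dec a (D y) ∈ B}
  have hB' : MeasurableSet B' := (T.mW.and T.mg.GoodN).and (hmd hB)
  have hstep : ∀ y z, E y z → y ∈ B' → z ∈ B' := by
    rintro y z h ⟨⟨h1, h2⟩, h3⟩
    obtain ⟨h4, h5⟩ := key y z h h2
    exact ⟨⟨T.inv y z h h1, h4⟩, (hinv _ _ h5).2 h3⟩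
  have hinv' : ∀ y z, E y z → (y ∈ B' ↔ z ∈ B') := fun y z h =>
    ⟨hstep y z h, hstep z y (T.symm y z h)⟩
  rcases hY B' hB' hinv' (fun y hy => T.cls y hy.1.1 hy.1.2.base) with ⟨f, hf⟩ | ⟨g, h1, h2, h3⟩
  · left
    refine ⟨fun n => Grid.dec a (D (f n)), fun x hx => ?_⟩
    obtain ⟨γ, κ, κ', hb, hl⟩ := Grid.exists_grid x
    have hr0 : ∃ r, γ.R r := ⟨_, (hl.sR 0).choose_spec.1⟩
    have hc0 : ∃ c, γ.C c := ⟨_, ((hl.sC (Sum.inl 0)).2 trivial).choose_spec.1⟩
    obtain ⟨y, hy1, hy2⟩ := T.ex γ hb hr0 hc0 (by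
      intro r c hr hc
      obtain ⟨s, hs, h⟩ := hl.mult r c hr hc
      have : 0 < s.card := by rw [hs]; exact lam_pos _ _
      obtain ⟨p, hp⟩ := Finset.card_pos.1 this
      exact ⟨p, (h p).1 hp⟩) (fun r c hr hc => ⟨_, hl.mult r c hr hc⟩)
    obtain ⟨hg, hi⟩ := Grid.good_of_lab (hy2.base hb) (hy2.lab hl)
    obtain ⟨n, hn⟩ := hf y ⟨⟨hy1, hg⟩, (hinv _ _ hi).2 hx⟩
    exact ⟨n, (key y (f n) (T.symm _ _ hn) hg).2.trans hi⟩
  · right
    have hinj : ∀ c d, Iso (Grid.dec a (D (g c))) (Grid.dec a (D (g d))) → c = d := by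
      intro c d h
      refine h3 c d ?_
      have hc := (h2 c).1
      have hd := (h2 d).1
      obtain ⟨κ, κ', hl⟩ := Grid.lab_of_good hc.2
      obtain ⟨μ, μ', hl'⟩ := Grid.lab_of_good hd.2
      exact T.iso' _ _ hc.1 hd.1 hc.2.base hd.2.base
        (Grid.unique hc.2.base hd.2.base h hl hl')
    by_cases hcont : cont
    · have hm : Measurable (fun c => Grid.dec a (D (g c))) := hmd.comp (h1 hcont).measurable
      obtain ⟨h, h4, h5⟩ := cont_of_meas hm
      exact ⟨_, fun _ => h5, fun c => (h2 (h c)).2, fun c d hcd => h4 (hinj _ _ hcd)⟩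
    · exact ⟨_, fun h => absurd h hcont, fun c => (h2 c).2, hinj⟩

end Pool.Agent.W889.VC
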